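import Pool.Agent.MP_3ee8cb_gt.DNB3.PSpec
import Pool.Agent.MP_3ee8cb_gt.DNB2.RAsy

/-! Asymptotes. -/

namespace Pool.Agent.MP_3ee8cb_gt.DNB3.PT

open DN (Dim dm)

variable [Dim]

open Set Filter Topology Asymptotics Real DN DNC0 DNB2
open scoped RealInnerProductSpace ContDiff

namespace QAsy

variable {m : MF} {lg : W → V} {Γ : Type} [Group Γ] [MulAction Γ V] {O : Γ → V → V ≃ₗᵢ[ℝ] V}
  {a b : ℝ} {β : W → V → ℝ}

theorem ray (N : NV m lg Γ O a b) (S : Seg m lg a) (B : Bz m lg 0 β) {A : ℝ} (hA : 0 ≤ A) :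
    ∃ C : ℝ, 0 ≤ C ∧ ∀ (z : W) (y : V), ‖z.2‖ = 1 → ‖lg (z.1, y)‖ ≤ A → ∃ n : V, ‖n‖ = 1 ∧
      ∀ t, 0 ≤ t → df m lg z (m.Z (β z y) (y, n)) t ≤ C * ‖lg (z.1, y)‖ * exp (-(a * t)) := by
  obtain ⟨C, hC, hS⟩ := S A hA
  refine ⟨C, hC, fun z y hz hy => ?_⟩
  have hnz : nz z = z := by rw [nz, hz, inv_one, one_smul]
  obtain ⟨K, hK⟩ := exists_nat_gt A
  have h2 : ∀ T : ℕ, A < ((T + K : ℕ) : ℝ) := fun T => by
    push_cast
    linarith [Nat.cast_nonneg (α := ℝ) T]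
  have hS' := fun T : ℕ => hS z y (T + K) hz hy (h2 T)
  let x : ℕ → V := fun T => (nz (y, lg (y, (m.Z ((T + K : ℕ) : ℝ) z).1))).2
  have hx : ∀ T, x T ∈ Metric.sphere (0 : V) 1 := fun T => by
    rw [mem_sphere_zero_iff_norm]
    change ‖‖lg (y, (m.Z ((T + K : ℕ) : ℝ) z).1)‖⁻¹ • lg (y, (m.Z ((T + K : ℕ) : ℝ) z).1)‖ = 1
    rw [norm_smul, norm_inv, norm_norm, inv_mul_cancel₀ (norm_ne_zero_iff.2 (hS' T).1)]
  obtain ⟨n, hn, φ, hφ, hlim⟩ := (isCompact_sphere (0 : V) 1).tendsto_subseq hx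
  rw [mem_sphere_zero_iff_norm] at hn
  have hψ : Tendsto (fun k => φ k + K) atTop atTop :=
    (tendsto_add_atTop_nat K).comp hφ.tendsto_atTop
  have hb : Tendsto (fun k => bt m lg (φ k + K) z y) atTop (𝓝 (β z y)) := (B.lim z y hz).comp hψ
  have cZ : Continuous fun q : ℝ × V × V => m.Z q.1 q.2 := N.ok.cZ.continuous
  have hu : Tendsto (fun k => sg m lg (φ k + K) z y) atTop (𝓝 (m.Z (β z y) (y, n))) := by
    have h1 : Tendsto (fun k => (bt m lg (φ k + K) z y, (y, x (φ k)))) atTop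
        (𝓝 (β z y, (y, n))) := hb.prodMk_nhds (tendsto_const_nhds.prodMk_nhds hlim)
    refine ((cZ.tendsto _).comp h1).congr fun k => ?_
    simp only [Function.comp_apply, bt, sg, hnz, x]
    rfl
  refine ⟨n, hn, fun t ht => ?_⟩
  have cl : Continuous lg := N.had.c1.continuous
  have cz : Continuous (m.Z t) := cZ.comp (continuous_const.prodMk continuous_id)
  have cd : Continuous fun q : W => df m lg z q t :=
    (cl.comp (continuous_const.prodMk cz.fst)).norm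
  refine le_of_tendsto ((cd.tendsto _).comp hu) ?_
  have h3 : Tendsto (fun k => ((φ k + K : ℕ) : ℝ)) atTop atTop :=
    tendsto_natCast_atTop_atTop.comp hψ
  filter_upwards [h3.eventually_ge_atTop t] with k hk
  exact (hS' (φ k)).2.2.1 t ⟨ht, hk⟩

theorem uniq (N : NV m lg Γ O a b) {y n n' : V}
    (h : Tendsto (df m lg (y, n) (y, n')) atTop (𝓝 0)) : n = n' := by
  have h1 : ‖n - n'‖ ≤ 0 := by
    refine ge_of_tendsto h ((eventually_ge_atTop 1).mono fun t ht => ?_)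
    have := N.had.hinge y (t • n) (t • n')
    rw [RBs.ray N.jac, RBs.ray N.jac, ← smul_sub, norm_smul, Real.norm_of_nonneg (by linarith)]
      at this
    exact (le_mul_of_one_le_left (norm_nonneg _) ht).trans this
  exact sub_eq_zero.1 (norm_le_zero_iff.1 h1)

end QAsy

open QAsy in
theorem asy : SASY := by
  intro m lg Γ _ _ O a b N β bs S B
  have sy : ∀ p q, df m lg p q = df m lg q p := fun p q => funext fun t => bs.symm _ _
  refine ⟨fun z y hz => ?_, fun A => ?_⟩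
  · obtain ⟨C, -, H⟩ := ray N S B (norm_nonneg (lg (z.1, y)))
    obtain ⟨n, hn, h⟩ := H z y hz le_rfl
    refine ⟨m.Z (β z y) (y, n), by rw [N.jac.norm]; exact hn, ?_, ?_⟩
    · rw [Fw, sy]
      exact RAsy.lim0 N.a0 (fun _ => norm_nonneg _) h
    · rw [← N.ok.add, neg_add_cancel, N.ok.zero]
  · obtain ⟨C, hC, H⟩ := ray N S B (le_max_right A 0)
    refine ⟨C, hC, fun z u hz hu hf hA => ?_⟩
    have e0 : df m lg z u 0 = ‖lg (z.1, u.1)‖ := by rw [df, N.ok.zero, N.ok.zero]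
    obtain ⟨n, -, h⟩ := H z u.1 hz (by rw [← e0]; exact le_max_of_le_left hA)
    have e1 : β z u.1 = 0 := by
      have := B.self u 0 hu
      rw [N.ok.zero, neg_zero] at this
      rw [← B.top u z hu hz hf, this]
    rw [e1, N.ok.zero] at h
    have l1 := (Tendsto.add hf (RAsy.lim0 N.a0 (fun _ => norm_nonneg _) h))
    rw [add_zero] at l1
    have e2 : u.2 = n := uniq N (y := u.1) (squeeze_zero (fun _ => norm_nonneg _)
      (fun t => N.had.tri _ _ _) l1)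
    rw [← e2] at h
    rw [e0]
    exact h


end Pool.Agent.MP_3ee8cb_gt.DNB3.PT
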