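import Pool.Agent.MP_3ee8cb_gt.DNB3.PSpec
import Pool.Agent.MP_3ee8cb_gt.DNB2.REx

/-! The data of the bootstrap. -/

namespace Pool.Agent.MP_3ee8cb_gt.DNB3.PT

open DN (Dim dm)

variable [Dim]

open Set Filter Topology Asymptotics Real DN DNC0 DNB2
open scoped RealInnerProductSpace ContDiff

open DNB2.REx in
theorem ex : SEX := by
  intro m lg Γ _ _ O a b N β σ κ s0 s1 k0 k1 B J Z e2 nrm
  have d0 : ∀ z, df m lg z z = fun _ => 0 := fun z => funext fun t => by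
    rw [df, B.self, norm_zero]
  refine ⟨s0, s1, k0, k1, fun z => ?_, fun z p q _ hp hq h => ?_, e2, fun R => ?_, nrm,
    fun R => ?_⟩
  · rw [Fw, Bw, d0]
    exact ⟨tendsto_const_nhds, tendsto_const_nhds⟩
  · rcases h with ⟨h1, h2⟩ | ⟨h1, h2⟩
    · rw [← gr0 N.ok Z hp]
      exact iInf_congr fun y => by rw [Z.top q p hq hp (tr N.had B h2 h1)]
    · rw [← gr0 N.ok Z hq]
      exact iInf_congr fun y => by
        rw [Z.top (fl p) (fl q) (fl_unit hp) (fl_unit hq) (fw_fl B (tr N.had B h1 h2))]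
  · obtain ⟨C, l₀, hC, h0, H⟩ := e2 R
    refine ⟨C, l₀, hC, h0, fun z p q s l hR hz hp hq hb hs hl h1 h2 h3 => ?_⟩
    have := H (fl z) (fl p) (fl q) s l (by rwa [fl_norm]) (fl_unit hz) (fl_unit hp) (fl_unit hq)
      (fw_fl B hb) hs hl h1 (by rwa [← map_sub, fl_norm]) (by rwa [← map_sub, fl_norm])
    rwa [← map_sub, ← map_sub, al_fl, om_fl, gr_fl, sub_neg_eq_add, sub_neg_eq_add] at this
  · obtain ⟨C, hC, H⟩ := J.omb R
    have hb : 0 < b := N.a0.trans_le N.ab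
    refine ⟨C * C + C / b * |R|, by positivity, fun z ξ η hz => ⟨?_, ?_⟩⟩
    · have h1 : b * ‖m.hor z ξ‖ ≤ C * ‖ξ‖ :=
        (Real.le_sqrt_of_sq_le (by nlinarith [sq_nonneg ‖m.ver z ξ‖])).trans (H z ξ η hz).2
      have h2 : ‖m.hor z ξ‖ ≤ C / b * ‖ξ‖ := by
        rw [div_mul_eq_mul_div, le_div_iff₀ hb]
        linarith
      have h3 : ‖z.2‖ ≤ |R| := ((norm_snd_le z).trans hz).trans (le_abs_self R)
      calc |al m z ξ| ≤ ‖m.hor z ξ‖ * ‖z.2‖ := abs_real_inner_le_norm _ _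
        _ ≤ C / b * ‖ξ‖ * |R| := by gcongr
        _ ≤ _ := by nlinarith [mul_nonneg (mul_nonneg hC hC) (norm_nonneg ξ)]
    · have h1 : 0 ≤ C / b * |R| * ‖ξ‖ * ‖η‖ := by positivity
      calc |om m z ξ η| ≤ C * nn m b z ξ * ‖η‖ := (H z ξ η hz).1
        _ ≤ C * (C * ‖ξ‖) * ‖η‖ := by gcongr; exact (H z ξ η hz).2
        _ ≤ _ := by nlinarith


end Pool.Agent.MP_3ee8cb_gt.DNB3.PT
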