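import Pool.Agent.MP_3ee8cb_gt.DNB3.PSpec
import Pool.Agent.MP_3ee8cb_gt.DNB2.RNrm

/-! Norming. -/

namespace Pool.Agent.MP_3ee8cb_gt.DNB3.PT

open DN (Dim dm)

variable [Dim]

open Set Filter Topology Asymptotics Real DN DNC0 DNB2
open scoped RealInnerProductSpace ContDiff

open DNB2.RNrm in
theorem nrm : SNRM := by
  intro m lg Γ _ _ O a b N bs jf ts R
  obtain ⟨C, c, C0, c0, hT⟩ := ts R
  obtain ⟨B, B0, hB⟩ := jf.omb R
  obtain ⟨D, D0, hD⟩ := size N.ok R
  obtain ⟨ε, c', e0, d0, h⟩ := ab (C := B * C) (by positivity) c0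
  obtain ⟨l₀, l0, hl⟩ := hT ε e0
  refine ⟨C, c' / D, l₀, C0, by positivity, l0, fun z v r hz h1 r0 hr => ?_⟩
  have vb : ∀ w q : W, ‖w‖ ≤ R → ‖q - w‖ ≤ C * r → ‖m.ver w (q - w)‖ ≤ B * C * r :=
    fun w q hw hq => ((ver_le b _ _).trans (hB w (q - w) 0 hw).2).trans (by
      rw [mul_assoc]
      exact mul_le_mul_of_nonneg_left hq B0)
  obtain ⟨_, _, ⟨q, q1, q2, q3, rfl, rfl⟩, hq⟩ := h z.2 (m.hor z v) (m.ver z v) r
    (fun h w => ∃ q : W, ‖q.2‖ = 1 ∧ (Fw m lg q z ∨ Bw m lg q z) ∧ ‖q - z‖ ≤ C * r ∧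
      m.hor z (q - z) = h ∧ m.ver z (q - z) = w) h1 r0
    ⟨z, h1, Or.inl (by
      have e : df m lg z z = fun _ => 0 := funext fun t => by rw [df, bs.self, norm_zero]
      rw [Fw, e]
      exact tendsto_const_nhds), by rw [sub_self, norm_zero]; positivity, by simp, by simp⟩
    fun e he hen => by
      constructor
      · obtain ⟨q, q1, q2, q3, q4, q5⟩ := hl z e r hz h1 he hen r0 hr
        exact ⟨_, _, ⟨q, q1, Or.inl q2, q3, rfl, rfl⟩, q4, vb z q hz q3, q5⟩
      · have nf : ∀ w : W, ‖fl w‖ = ‖w‖ := fun w => by simp [fl, Prod.norm_def]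
        have ff : fl (fl z) = z := by simp [fl]
        obtain ⟨q, q1, q2, q3, q4, q5⟩ := hl (fl z) e r ((nf z).trans_le hz) (by simpa [fl] using h1)
          he (by simpa [fl] using hen) r0 hr
        have e1 : ‖fl q - z‖ ≤ C * r := by rwa [← nf, map_sub, ff] at q3
        have e2 : m.hor z (fl q - z) = m.hor (fl z) (q - fl z) := by simp [MF.hor, fl]
        have e3 : m.ver z (fl q - z) = -m.ver (fl z) (q - fl z) := by
          simp [MF.ver, fl]
          abel
        refine ⟨_, _, ⟨fl q, by simpa [fl] using q1, Or.inr ?_, e1, rfl, rfl⟩, by rwa [e2],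
          vb z _ hz e1, by rw [e3, inner_neg_left]; linarith⟩
        have e4 : df m lg (fl q) z = fun t => df m lg q (fl z) (-t) := funext fun t => by
          rw [df, df, bs.flip, bs.flip, neg_neg]
          rfl
        rw [Bw, e4]
        exact q2.comp tendsto_neg_atBot_atTop
  refine ⟨q, q1, q2, q3, ?_⟩
  rw [jf.tan] at hq
  refine le_trans ?_ hq
  have h2 := mul_le_mul_of_nonneg_left (hD z v hz) (show 0 ≤ c' / D * r by positivity)
  refine h2.trans (le_of_eq ?_)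
  field_simp


end Pool.Agent.MP_3ee8cb_gt.DNB3.PT
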