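import Pool.Agent.MP_3ee8cb_gt.DNB3.PSpec
import Pool.Agent.MP_3ee8cb_gt.DNB2.RTst

/-! Test vectors. -/

namespace Pool.Agent.MP_3ee8cb_gt.DNB3.PT

open DN (Dim dm)

variable [Dim]

open Set Filter Topology Asymptotics Real DN DNC0 DNB2
open scoped RealInnerProductSpace ContDiff

open DNB2.RTst in
theorem tst : STST := by
  intro m lg Γ _ _ O a b N β bs jf bz md as R
  have ok := N.ok
  have ja := N.jac
  have ha := N.had
  have a0 := N.a0
  have b0 : 0 < b := a0.trans_le N.ab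
  obtain ⟨Cm, m0, hm⟩ := md 1
  obtain ⟨Cd, d0, hd⟩ := as.dec 2
  obtain ⟨R₁, hR₁⟩ := bs.bdd (max R 2)
  obtain ⟨R₂, hR₂⟩ : ∃ R₂, R₂ = max (max R R₁) 1 := ⟨_, rfl⟩
  have r1 : R ≤ R₂ := hR₂ ▸ (le_max_left _ _).trans (le_max_left _ _)
  have r2 : R₁ ≤ R₂ := hR₂ ▸ (le_max_right _ _).trans (le_max_left _ _)
  have r3 : 1 ≤ R₂ := hR₂ ▸ le_max_right _ _
  obtain ⟨Ce, e0, he⟩ := bs.euc R₂
  obtain ⟨Cl, l0, hl⟩ := bs.del R₂
  obtain ⟨Cx, x0, hx⟩ := ex2 ok ja N.qz R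
  obtain ⟨Cs, s0, hs⟩ := H38.bdd_ball ok.cS.continuous R
  obtain ⟨Co, o0, ho⟩ := jf.omb R
  obtain ⟨T, T0, hT⟩ : ∃ T : ℝ, 0 ≤ T ∧ Cd * 2 * exp (-(a * T)) ≤ 1 / 16 := by
    have h1 : Tendsto (fun T : ℝ => Cd * 2 * exp (-(a * T))) atTop (𝓝 (Cd * 2 * 0)) :=
      (tendsto_exp_neg_atTop_nhds_zero.comp (tendsto_id.const_mul_atTop a0)).const_mul _
    rw [mul_zero] at h1
    exact ((eventually_ge_atTop 0).and (h1.eventually (ge_mem_nhds (by norm_num)))).exists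
  obtain ⟨R₃, -, hR₃⟩ := H38.bdd_ball (H38.z_cd ok T).continuous R
  obtain ⟨Cy, y0, hy⟩ := ex2 ok ja N.qz R₃
  obtain ⟨Ct, t0, ht⟩ := H38.bdd_ball ok.cS.continuous R₃
  obtain ⟨C, hC⟩ : ∃ C, C = Cl * (4 * Cd) := ⟨_, rfl⟩
  have C0 : 0 ≤ C := by rw [hC]; positivity
  obtain ⟨δ, δ0, hδ⟩ := ud (H38.z_cd ok T) R (1 / (16 * (Ct * C + 1))) (by positivity)
  obtain ⟨c, hc⟩ : ∃ c, c = b * exp (-(b * T)) / 2 := ⟨_, rfl⟩
  have c0 : 0 < c := by rw [hc]; positivity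
  obtain ⟨K, hK⟩ : ∃ K, K = Cx + Cs * (Ce * Cm) := ⟨_, rfl⟩
  have K0 : 0 ≤ K := by rw [hK]; positivity
  refine ⟨C, c / 8, C0, by positivity, fun ε ε0 => ?_⟩
  have sm : ∀ A η : ℝ, 0 < η → ∀ᶠ r in 𝓝 (0 : ℝ), A * r ≤ η := fun A η h => by
    have : Tendsto (fun r : ℝ => A * r) (𝓝 0) (𝓝 (A * 0)) := tendsto_id.const_mul A
    rw [mul_zero] at this
    exact this.eventually (ge_mem_nhds h)
  obtain ⟨l₀, l₀0, hl₀⟩ := Metric.eventually_nhds_iff.1 ((sm 1 1 one_pos).and ((sm Cm 1 one_pos).and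
    ((sm K ε ε0).and ((sm K (1 / 2) (by norm_num)).and ((sm C δ δ0).and ((sm Cy 1 one_pos).and
    (sm (Co * C * K) (c / 8) (by positivity))))))))
  refine ⟨l₀ / 2, by positivity, fun z e r hz h1 hn hen r0 hr => ?_⟩
  obtain ⟨q1, q2, q3, q4, q5, q6, q7⟩ := @hl₀ r (by
    rw [dist_zero_right, Real.norm_of_nonneg r0.le]; linarith only [hr, l₀0])
  rw [one_mul] at q1
  have sqr : ∀ A η : ℝ, A * r ≤ η → A * r ^ 2 ≤ η * r := fun A η h => by
    linarith only [mul_le_mul_of_nonneg_right h r0.le]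
  have z1 := (norm_fst_le z).trans hz
  have nl : ‖r • e‖ = r := by rw [norm_smul, hn, mul_one, Real.norm_of_nonneg r0.le]
  have pl : ⟪r • e, z.2⟫ = 0 := by rw [real_inner_smul_left, hen, mul_zero]
  have f1 := far ja ha h1 pl (t := 1) abs_one
  have f2 := far ja ha h1 pl (t := -1) (by simp)
  have hx1 := hx z.1 (r • e) z1 (by rwa [nl])
  have dy : ‖lg (z.1, (m.Z 1 (z.1, r • e)).1)‖ = r := by rw [ha.xe, nl]
  obtain ⟨y, hy'⟩ : ∃ y, y = (m.Z 1 (z.1, r • e)).1 := ⟨_, rfl⟩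
  rw [← hy'] at f1 f2 hx1 dy
  rw [nl] at hx1
  have f3 := hm z y h1 (by rwa [dy])
  rw [dy] at f3
  have fz : ‖(fl z).2‖ = 1 := by simpa [fl] using h1
  have g1 := bz.lip z y (m.Z 1 z).1 h1
  have g2 := bz.lip (fl z) y (m.Z 1 (fl z)).1 fz
  rw [bz.self _ _ h1, bs.symm] at g1
  rw [bz.self _ _ fz, bs.symm, bs.flip] at g2
  have g3 := bz.opp z y h1
  have g2' : β (fl z) y - -1 ≤ ‖lg ((m.Z (-1) z).1, y)‖ := g2
  have hβ : |β z y| ≤ Cm * r ^ 2 := abs_le.2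
    ⟨by linarith only [g3, g2', f3, f1], by linarith only [g1, f3, f2]⟩
  obtain ⟨u, u1, u2, u3⟩ := as.ex z y h1
  have du : ‖lg (y, u.1)‖ ≤ Cm * r ^ 2 := by
    have := bs.geo u (-β z y) 0
    rw [u3, ok.zero, u1, mul_one, sub_zero, abs_neg] at this
    rwa [this]
  have d1 : df m lg z u 0 ≤ 2 * r := by
    have := ha.tri z.1 y u.1
    rw [df, ok.zero, ok.zero]
    linarith only [this, dy, du, sqr Cm 1 q2]
  have d2 : ∀ t, 0 ≤ t → df m lg z u t ≤ Cd * 2 * exp (-(a * t)) * r := fun t h => by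
    refine (hd z u h1 u1 u2 (by linarith only [d1, q1]) t h).trans ?_
    linarith only [mul_le_mul_of_nonneg_left d1 (mul_nonneg d0 (exp_pos (-(a * t))).le)]
  have nu1 : ‖u.1‖ ≤ R₂ := (hR₁ z.1 u.1 (z1.trans (le_max_left _ _)) (by
    rw [df, ok.zero, ok.zero] at d1
    exact le_max_of_le_right (by linarith only [d1, q1]))).trans r2
  have ny : ‖y‖ ≤ R₂ := (hR₁ z.1 y (z1.trans (le_max_left _ _))
    (le_max_of_le_right (by linarith only [dy, q1]))).trans r2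
  have nu : ‖u‖ ≤ R₂ := by rw [Prod.norm_def]; exact max_le nu1 (u1.trans_le r3)
  have uz : ‖u - z‖ ≤ C * r := by
    refine (hl z u (hz.trans r1) nu).trans ?_
    have k1 := d2 0 le_rfl
    have k2 := d2 1 zero_le_one
    have k3 : exp (-(a * 1)) ≤ 1 := exp_le_one_iff.2 (by linarith only [a0])
    rw [mul_zero, neg_zero, exp_zero] at k1
    rw [hC, mul_assoc]
    refine mul_le_mul_of_nonneg_left ?_ l0
    linarith only [k1, k2, mul_le_mul_of_nonneg_left k3 (mul_nonneg d0 r0.le)]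
  have hh : ‖m.hor z (u - z) - r • e‖ ≤ K * r ^ 2 := by
    have e1 : m.hor z (u - z) - r • e = (m.S z.1 (y - z.1) - r • e) + m.S z.1 (u.1 - y) := by
      simp only [MF.hor, ContinuousLinearMap.comp_apply, ContinuousLinearMap.coe_fst', map_sub]
      abel
    have k1 := (m.S z.1).le_of_opNorm_le (hs _ z1) (u.1 - y)
    have k2 := (he y u.1 ny nu1).1.trans (mul_le_mul_of_nonneg_left du e0)
    rw [e1, hK]
    refine (norm_add_le _ _).trans ?_
    linarith only [hx1, k1, mul_le_mul_of_nonneg_left k2 s0]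
  have hn2 : r / 2 ≤ ‖m.hor z (u - z)‖ := by
    have := norm_le_insert (m.hor z (u - z)) (r • e)
    rw [nl] at this
    linarith only [this, hh, sqr K _ q4]
  have hJ : ‖m.J z (u - z) T‖ ≤ r / 5 := by
    have zT := (norm_fst_le _).trans (hR₃ z hz)
    have k0 : df m lg z u T ≤ r / 16 := (d2 T T0).trans
      (by linarith only [mul_le_mul_of_nonneg_right hT r0.le])
    rw [df] at k0
    have k1 := hy (m.Z T z).1 (lg ((m.Z T z).1, (m.Z T u).1)) zT (by linarith only [k0, q1])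
    rw [ha.ex] at k1
    have k2 := (norm_fst_le _).trans (hδ z u hz (uz.trans q5))
    have k3 := (m.S (m.Z T z).1).le_of_opNorm_le (ht _ zT)
      (m.Z T u - m.Z T z - fderiv ℝ (m.Z T) z (u - z)).1
    have e1 : m.J z (u - z) T = (m.S (m.Z T z).1 ((m.Z T u).1 - (m.Z T z).1) -
        lg ((m.Z T z).1, (m.Z T u).1)) + lg ((m.Z T z).1, (m.Z T u).1) -
        m.S (m.Z T z).1 (m.Z T u - m.Z T z - fderiv ℝ (m.Z T) z (u - z)).1 := by
      simp only [MF.J, MF.hor, ContinuousLinearMap.comp_apply, ContinuousLinearMap.coe_fst',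
        Prod.fst_sub, map_sub]
      abel
    have k4 : Ct * (1 / (16 * (Ct * C + 1)) * (C * r)) ≤ r / 16 := by
      rw [show Ct * (1 / (16 * (Ct * C + 1)) * (C * r)) = Ct * C / (Ct * C + 1) * (r / 16) by
        field_simp]
      exact mul_le_of_le_one_left (by positivity) ((div_le_one (by positivity)).2 (lt_add_one _).le)
    have k5 : Ct * ‖(m.Z T u - m.Z T z - fderiv ℝ (m.Z T) z (u - z)).1‖ ≤ r / 16 :=
      (mul_le_mul_of_nonneg_left (k2.trans (mul_le_mul_of_nonneg_left uz (by positivity))) t0).trans k4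
    rw [e1]
    refine (norm_sub_le _ _).trans ((add_le_add (norm_add_le _ _) le_rfl).trans ?_)
    have n0 := norm_nonneg (lg ((m.Z T z).1, (m.Z T u).1))
    generalize ‖lg ((m.Z T z).1, (m.Z T u).1)‖ = d at *
    have k6 : Cy * d ≤ 1 := by linarith only [mul_le_mul_of_nonneg_left k0 y0, q6]
    linarith only [k0, k1, k3, k5, mul_le_mul_of_nonneg_right k6 n0, r0]
  have hv := cvx b0 jf h1 T0 (ξ := u - z) (by linarith only [hJ, hn2, r0])
  rw [← hc] at hv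
  have vb : ‖m.ver z (u - z)‖ ≤ Co * (C * r) :=
    ((ver_le b _ _).trans (ho z (u - z) 0 hz).2).trans (mul_le_mul_of_nonneg_left uz o0)
  refine ⟨u, u1, u2, uz, hh.trans (sqr K ε q3), ?_⟩
  have k1 := abs_le.1 ((abs_real_inner_le_norm (m.ver z (u - z)) (m.hor z (u - z) - r • e)).trans
    (mul_le_mul vb hh (norm_nonneg _) (by positivity)))
  rw [inner_sub_right, real_inner_smul_right] at k1
  have k2 : c * (r / 2) ^ 2 ≤ c * ‖m.hor z (u - z)‖ ^ 2 := by gcongr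
  refine le_of_mul_le_mul_left ?_ r0
  linarith only [k1.1, k2, hv, mul_le_mul_of_nonneg_left q7 (sq_nonneg r)]


end Pool.Agent.MP_3ee8cb_gt.DNB3.PT
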