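import Pool.Agent.MP_3ee8cb_gt.DNB3.PPort
import Pool.Agent.MP_3ee8cb_gt.DNB3.PSeg
import Pool.Agent.MP_3ee8cb_gt.DNB3.PTelk
import Pool.Agent.MP_3ee8cb_gt.DNB3.PAsy
import Pool.Agent.MP_3ee8cb_gt.DNB3.PE1
import Pool.Agent.MP_3ee8cb_gt.DNB3.PE2
import Pool.Agent.MP_3ee8cb_gt.DNB3.PTst
import Pool.Agent.MP_3ee8cb_gt.DNB3.PNrm
import Pool.Agent.MP_3ee8cb_gt.DNB3.PEx
import Pool.Agent.MP_3ee8cb_gt.DNC0.All

/-! The data of the bootstrap for exponentially diverging geodesics. -/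

namespace Pool.Agent.MP_3ee8cb_gt.DNB3

open DN (Dim dm)

variable [Dim]

open DN DNC0

theorem exAll : SEX := by
  intro m lg Γ _ _ O a b w β σ bz lb s0 s1 hs
  have ha := w.a0
  have hb := w.ab
  have k0 : 0 < a / (a + b) := div_pos ha (by linarith)
  have k1 : a / (a + b) ≤ 1 := (div_le_one (by linarith)).2 (by linarith)
  have bs := PT.bs m lg Γ O a b w
  have jf := PT.jf m lg Γ O a b w
  have mov := PT.mov m lg Γ O a b w bs
  have tel := PT.telk m lg Γ O a b w σ s1 hs bs jf (PT.step sq2 m lg Γ O a b w jf) mov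
  have seg := PT.seg m lg Γ O a b w bs jf
  have der := PT.der m lg Γ O a b w bs jf
  have mid := PT.mid m lg Γ O a b w bs
  have asy := PT.asy m lg Γ O a b w β bs seg bz
  have e1 := PT.e1 m lg Γ O a b w β σ _ s0 s1 hs k0 k1 bs jf seg der bz tel
    (PT.trunc m lg Γ O a b w β bs bz mid asy)
    (PT.clo m lg Γ O a b w β bs jf seg asy (PT.grw m lg Γ O a b w bs jf der))
  exact PT.ex m lg Γ O a b w β σ _ s0 s1 k0 k1 bs jf bz
    (PT.e2 m lg Γ O a b w β σ _ s0 s1 k0 k1 bs jf bz asy e1 (lb asy))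
    (PT.nrm m lg Γ O a b w bs jf (PT.tst m lg Γ O a b w β bs jf bz mid asy))

end Pool.Agent.MP_3ee8cb_gt.DNB3
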