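import Pool.Agent.MP_3ee8cb_gt.DNB3.PSpec
import Pool.Agent.MP_3ee8cb_gt.DNB2.Port

/-! Rows taken over. -/

namespace Pool.Agent.MP_3ee8cb_gt.DNB3.PT

open DN (Dim dm)

variable [Dim]

open Set Filter Topology Asymptotics Real DN DNC0 DNB2
open scoped RealInnerProductSpace ContDiff

open RBs in
theorem bs : SBS := by
  intro m lg Γ _ _ O a b nw
  have ok := nw.ok
  have jac := nw.jac
  have had := nw.had
  refine ⟨fun γ x y => ?_, fun x y => ?_, self ok jac had, fun z s t => ?_, fun t z => ?_,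
    fun R => ?_, euc ok jac had, del ok jac had, loc ok jac had⟩
  · have h1 := nw.act.flow γ 1 (x, lg (x, y))
    have h2 := had.xe (γ • x) (O γ x (lg (x, y)))
    simp only [had.ex] at h1
    rw [h1] at h2
    simp only at h2
    rw [h2, LinearIsometryEquiv.norm_map]
  · rw [had.rev x y, norm_neg, jac.norm]
  · have h1 : m.Z t z = m.Z (t - s) (m.Z s z) := by rw [← ok.add, sub_add_cancel]
    have h2 := ray jac (m.Z s z).1 (m.Z s z).2 (t - s)
    rw [h1, ← h2, had.xe, norm_smul, jac.norm, Real.norm_eq_abs, abs_sub_comm]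
  · have h1 := jac.scale t (-1) z.1 z.2
    simp only [neg_smul, one_smul, neg_mul, one_mul] at h1
    exact h1
  · obtain ⟨A, -, hA⟩ := H38.bdd_ball (c1 ok 1).fst.continuous R
    refine ⟨A, fun x y hx hy => ?_⟩
    have := hA (x, lg (x, y)) (by rw [Prod.norm_def]; exact max_le hx hy)
    rwa [had.ex] at this

theorem jf : SJF := by
  intro m lg Γ _ _ O a b w
  have hb : 0 < b := w.a0.trans_le w.ab
  exact ⟨RJf.grow w.ok w.jac hb w.up w.dn, RJf.al w.ok w.jac, RJf.cvx w.ok w.jac w.up,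
    RJf.tan w.ok, RJf.omb w.ok hb, w.th⟩

open RMov in
theorem mov : SMOV := by
  intro m lg Γ _ _ O a b nw bs γ k z ξ
  have o := nw.ok
  have act := nw.act
  have hdf : ∀ (q : W) (t : ℝ),
      df m lg (ac O γ (m.Z k z)) (ac O γ (m.Z k q)) t = df m lg z q (t + k) := by
    intro q t
    unfold df
    rw [fl_ac act, fl_ac act, ← o.add, ← o.add]
    exact bs.eqv γ _ _
  refine ⟨?_, hdf, fun q ε T cl => ⟨⟨?_, ?_, fun j hj => ?_, ?_⟩, ?_⟩⟩
  · unfold nn
    rw [hor_ac act, ver_ac act, LinearIsometryEquiv.norm_map, LinearIsometryEquiv.norm_map]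
  · change ‖O γ _ (m.Z k z).2‖ = 1
    rw [LinearIsometryEquiv.norm_map, nw.jac.norm, cl.nz]
  · change ‖O γ _ (m.Z k q).2‖ = 1
    rw [LinearIsometryEquiv.norm_map, nw.jac.norm, cl.nq]
  · have := cl.le (j + k) (by omega)
    rw [hdf, mul_assoc, ← exp_add]
    push_cast at this
    rwa [show -(a * k) + -(a * j) = -(a * (j + k)) by ring]
  · have := cl.meet
    push_cast at this
    rw [fl_ac act, fl_ac act, ← o.add, ← o.add]
    exact congrArg (fun x => γ • x) this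
  · have := cl.meet
    unfold en MF.J
    push_cast at this ⊢
    rw [chain1 o act, chain2 o, fl_ac act, fl_ac act, ← o.add, ← o.add, hor_ac act]
    change ⟪_, O γ (m.Z (T + k) q).1 (m.Z (T + k) q).2 -
      O γ (m.Z (T + k) z).1 (m.Z (T + k) z).2⟫ = _
    rw [← this, ← map_sub, LinearIsometryEquiv.inner_map_map]

open RDer in
theorem der : SDER := by
  intro m lg Γ _ _ O a b N _ J
  refine ⟨fun T z y hz hl => ?_, fun T z ξ y hz hl => ?_, fun z hz => unit hz,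
    fun z ξ hz h => ⟨nz_eq hz, ?_⟩, fun z ξ hz => ?_⟩
  · have h1 : ContDiffAt ℝ 1 (fun q : W × V => m.Z T (nz q.1)) (z, y) :=
      (c_Z N.ok T).contDiffAt.comp (z, y) ((c_nz hz).comp (z, y) contDiffAt_fst)
    have h2 : ContDiffAt ℝ 1 (fun q : W × V => lg (q.2, (m.Z T (nz q.1)).1)) (z, y) :=
      N.had.c1.contDiffAt.comp (z, y) (contDiffAt_snd.prodMk h1.fst)
    exact (h2.norm ℝ hl).sub contDiffAt_const
  · obtain ⟨D, hD, eD⟩ := d_dist N.had hl
    obtain ⟨dn, en'⟩ := d_nz hz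
    have h1 := ((c_Z N.ok T).differentiable one_ne_zero (nz z)).hasFDerivAt.comp z dn.hasFDerivAt
    have h2 := (hasFDerivAt_const y z).prodMk h1.fst
    have h3 := (HasFDerivAt.comp z (g := fun q => ‖lg q‖)
      (f := fun x => (y, (m.Z T (nz x)).1)) hD h2).sub_const (T : ℝ)
    have h4 : HasFDerivAt (fun z => bt m lg T z y) _ z := h3
    have L0 : ‖lg (y, (m.Z T (nz z)).1)‖ ≠ 0 := norm_ne_zero_iff.2 hl
    have h5 : lg ((m.Z T (nz z)).1, y) =
        -(‖lg (y, (m.Z T (nz z)).1)‖ • (m.Z T (sg m lg T (nz z) y)).2) := by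
      have e := N.jac.scale 1 ‖lg (y, (m.Z T (nz z)).1)‖ y
        (‖lg (y, (m.Z T (nz z)).1)‖⁻¹ • lg (y, (m.Z T (nz z)).1))
      rw [smul_inv_smul₀ L0, mul_one] at e
      rw [N.had.rev, e, sg, ← N.ok.add, add_sub_cancel]
      rfl
    have h6 : ⟪m.ver (nz z) (fderiv ℝ nz z ξ), (nz z).2⟫ = 0 := by
      have h0 : ‖z.2‖ ≠ 0 := norm_ne_zero_iff.2 hz
      rw [J.tan, en']
      simp only [nz, inner_sub_left, inner_smul_left, inner_smul_right, real_inner_self_eq_norm_sq,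
        conj_trivial, real_inner_comm z.2 ξ.2]
      field_simp
      ring
    have h7 : m.S (m.Z T (nz z)).1 (fderiv ℝ (m.Z T) (nz z) (fderiv ℝ nz z ξ)).1 =
        m.J (nz z) (fderiv ℝ nz z ξ) T := rfl
    rw [DT, h4.fderiv, ← J.al _ _ T h6, en, inner_sub_right]
    simp only [ContinuousLinearMap.comp_apply, ContinuousLinearMap.prod_apply, eD,
      ContinuousLinearMap.zero_apply, map_zero, inner_zero_right, ContinuousLinearMap.coe_fst',
      Prod.swap_prod_mk, h5, h7, inner_neg_left, inner_smul_left, conj_trivial]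
    rw [real_inner_comm]
    field_simp
    ring
  · have h0 : z.2 ≠ 0 := norm_ne_zero_iff.1 (hz ▸ one_ne_zero)
    rw [(d_nz h0).2, real_inner_comm, h, hz]
    simp
  · have h0 : 0 < ‖z.2‖ := norm_pos_iff.2 hz
    have h1 := inv_pos.2 h0
    have h2 := norm_fst_le ξ
    have h3 := norm_snd_le ξ
    have h4 := norm_nonneg ξ
    rw [(d_nz hz).2, Prod.norm_def]
    refine max_le (by nlinarith) ((norm_sub_le _ _).trans ?_)
    have h5 : ‖(‖z.2‖⁻¹ ^ 3 * ⟪z.2, ξ.2⟫) • z.2‖ ≤ ‖z.2‖⁻¹ * ‖ξ.2‖ := by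
      rw [norm_smul, norm_mul, norm_of_nonneg (pow_pos h1 3).le]
      calc _ ≤ ‖z.2‖⁻¹ ^ 3 * (‖z.2‖ * ‖ξ.2‖) * ‖z.2‖ := by
            gcongr
            exact norm_inner_le_norm _ _
        _ = _ := by field_simp
    rw [norm_smul, norm_of_nonneg h1.le]
    nlinarith [mul_le_mul_of_nonneg_left h3 h1.le]

theorem step : SSTEP := by
  intro _ m lg Γ _ _ O a b nw jf R
  obtain ⟨B, B0, hB⟩ := H38.bdd_ball (H38.z_cd nw.ok 1).continuous R
  obtain ⟨c, c0, hc⟩ := H38.fin_bound (nw.fin (max R B)) (P := fun δ C => ∀ p q : W,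
      ‖p‖ ≤ R → ‖q‖ ≤ R → ‖ac O δ (m.Z 1 q) - ac O δ (m.Z 1 p) -
        fderiv ℝ (ac O δ) (m.Z 1 p) (fderiv ℝ (m.Z 1) p (q - p))‖ ≤ C * ‖q - p‖ ^ 2)
    (fun γ C C' h hP p q hp hq => (hP p q hp hq).trans (by gcongr))
    (fun γ => tel_comp nw.ok nw.qz (nw.qa γ) _)
  obtain ⟨d, d0, hd⟩ := jf.omb R
  refine ⟨d * c, by positivity, fun γ z q ξ hz hq hγ => ?_⟩
  have mem : γ ∈ {γ : Γ | ∃ x : V, ‖x‖ ≤ max R B ∧ ‖γ • x‖ ≤ max R B} :=
    ⟨_, le_max_of_le_right ((norm_fst_le _).trans (hB z hz)), le_max_of_le_left hγ⟩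
  have e1 : om m z ξ (q - z) = om m (ac O γ (m.Z 1 z))
      (fderiv ℝ (ac O γ) (m.Z 1 z) (fderiv ℝ (m.Z 1) z ξ))
      (fderiv ℝ (ac O γ) (m.Z 1 z) (fderiv ℝ (m.Z 1) z (q - z))) :=
    ((H38.om0_act nw.act γ _ _ _).trans (H38.om0_flow nw.jac 1 z ξ (q - z))).symm
  have e2 : ∀ z ξ η η' : W, om m z ξ η - om m z ξ η' = om m z ξ (η - η') := fun z ξ η η' =>
    (H38.om0_sub z ξ η η').symm
  have n1 : ‖ac O γ (m.Z 1 z)‖ ≤ R := by
    rw [Prod.norm_def]
    refine max_le hγ ?_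
    simp only [ac, LinearIsometryEquiv.norm_map, nw.jac.norm]
    exact (norm_snd_le z).trans hz
  have e3 : nn m b (ac O γ (m.Z 1 z)) (fderiv ℝ (ac O γ) (m.Z 1 z) (fderiv ℝ (m.Z 1) z ξ)) =
      nn m b (m.Z 1 z) (fderiv ℝ (m.Z 1) z ξ) := by
    have h1 := congrArg norm (nw.act.hor γ (m.Z 1 z) (fderiv ℝ (m.Z 1) z ξ))
    have h2 := congrArg norm (nw.act.ver γ (m.Z 1 z) (fderiv ℝ (m.Z 1) z ξ))
    rw [LinearIsometryEquiv.norm_map] at h1 h2
    unfold nn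
    rw [← h1, ← h2]
    rfl
  rw [e1, e2]
  refine (hd _ _ _ n1).1.trans ?_
  rw [e3]
  have n0 : 0 ≤ nn m b (m.Z 1 z) (fderiv ℝ (m.Z 1) z ξ) := Real.sqrt_nonneg _
  calc _ ≤ d * nn m b (m.Z 1 z) (fderiv ℝ (m.Z 1) z ξ) * (c * ‖q - z‖ ^ 2) :=
        mul_le_mul_of_nonneg_left (hc γ mem z q hz hq) (by positivity)
    _ = _ := by ring

end Pool.Agent.MP_3ee8cb_gt.DNB3.PT
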