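import Pool.Agent.MP_3ee8cb_gt.DNB3.Spec

/-! The rows of one space, for exponentially diverging geodesics. -/

namespace Pool.Agent.MP_3ee8cb_gt.DNB3.PT

open DN (Dim dm)

variable [Dim]

open Set Filter Topology Asymptotics Real DN DNC0 DNB2
open scoped RealInnerProductSpace ContDiff

def SBS : Prop := OnV fun m lg Γ _ _ _ _ _ => Bs m lg Γ
def SJF : Prop := OnV fun m lg _ _ _ _ a b => Jf m lg a b
def SSTEP : Prop := SQ2 → OnV fun m lg _ _ _ O a b => Jf m lg a b → Step m O b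
def SMOV : Prop := OnV fun m lg Γ _ _ O a b => Bs m lg Γ → Mov m lg O a b
def SSEG : Prop := OnV fun m lg Γ _ _ _ a b => Bs m lg Γ → Jf m lg a b → Seg m lg a
def SDER : Prop := OnV fun m lg Γ _ _ _ a b => Bs m lg Γ → Jf m lg a b → Der m lg

def STELK : Prop := OnV fun m lg Γ _ _ O a b => ∀ σ, σ ≤ 1 → b * σ < 2 * a → Bs m lg Γ →
  Jf m lg a b → Step m O b → Mov m lg O a b → TelK m lg a b σ
def SMID : Prop := OnV fun m lg Γ _ _ _ _ _ => Bs m lg Γ → Mid m lg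
def SASY : Prop := OnV fun m lg Γ _ _ _ a _ => ∀ β, Bs m lg Γ → Seg m lg a → Bz m lg 0 β →
  Asy m lg a β
def STRUNC : Prop := OnV fun m lg Γ _ _ _ a _ => ∀ β, Bs m lg Γ → Bz m lg 0 β → Mid m lg →
  Asy m lg a β → Trunc m lg a β
def SGRW : Prop := OnV fun m lg Γ _ _ _ a b => Bs m lg Γ → Jf m lg a b → Der m lg → Grw m lg b
def SCLO : Prop := OnV fun m lg Γ _ _ _ a b => ∀ β, Bs m lg Γ → Jf m lg a b → Seg m lg a →
  Asy m lg a β → Grw m lg b → Clo m lg b (a / (a + b))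
def SE1 : Prop := OnV fun m lg Γ _ _ _ a b => ∀ β σ κ, 0 < σ → σ ≤ 1 → b * σ < 2 * a → 0 < κ →
  κ ≤ 1 → Bs m lg Γ → Jf m lg a b → Seg m lg a → Der m lg → Bz m lg 0 β → TelK m lg a b σ →
  Trunc m lg a β → Clo m lg b κ → E1 m lg β σ κ
def SE2 : Prop := OnV fun m lg Γ _ _ _ a b => ∀ β σ κ, 0 < σ → σ ≤ 1 → 0 < κ → κ ≤ 1 →
  Bs m lg Γ → Jf m lg a b → Bz m lg 0 β → Asy m lg a β → E1 m lg β σ κ →
  Lbq lg β → E2 m lg β σ κ
def STST : Prop := OnV fun m lg Γ _ _ _ a b => ∀ β, Bs m lg Γ → Jf m lg a b → Bz m lg 0 β →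
  Mid m lg → Asy m lg a β → Tst m lg
def SNRM : Prop := OnV fun m lg Γ _ _ _ a b => Bs m lg Γ → Jf m lg a b → Tst m lg → Nrm m lg
def SEX : Prop := OnV fun m lg Γ _ _ _ a b => ∀ β σ κ, 0 < σ → σ ≤ 1 → 0 < κ → κ ≤ 1 →
  Bs m lg Γ → Jf m lg a b → Bz m lg 0 β → E2 m lg β σ κ → Nrm m lg → Ex m lg β σ κ


end Pool.Agent.MP_3ee8cb_gt.DNB3.PT
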