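import Pool.Agent.MP_3ee8cb_gt.DNB3.Spec
import Pool.Agent.MP_3ee8cb_gt.DNWI.Base

/-! Row ANG: geodesics from one point that stay close have an exponentially small angle. -/

namespace Pool.Agent.MP_3ee8cb_gt.DNB3

open DN (Dim dm)

variable [Dim]

open Set Filter Topology Real DN DNC0
open DNB2 (Fw Bw Bz)
open scoped RealInnerProductSpace

noncomputable section

namespace ANGx

variable {m : MF} {lg : W → V} {β : W → V → ℝ}

omit [Dim] in
theorem conv_le {f : ℝ → ℝ} (hf : ConvexOn ℝ univ f) (h0 : 0 ≤ f 0)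
    (hl : Tendsto f atTop (𝓝 0)) : f 1 ≤ f 0 := by
  by_contra hc
  rw [not_le] at hc
  have h1 : ∀ᶠ T in atTop, f 1 ≤ f T := by
    filter_upwards [eventually_gt_atTop (1 : ℝ)] with T hT
    refine hf.le_right_of_left_le (x := 0) (mem_univ _) (mem_univ _) ?_ hc.le
    rw [openSegment_eq_Ioo (by linarith)]
    exact ⟨one_pos, hT⟩
  have := ge_of_tendsto hl h1
  linarith

theorem df_shift (ho : m.OK) (p q : W) (s t : ℝ) :
    df m lg (m.Z t p) (m.Z t q) s = df m lg p q (s + t) := by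
  simp only [df, ho.add]

theorem df_zero (ho : m.OK) (p q : W) : df m lg p q 0 = ‖lg (p.1, q.1)‖ := by
  simp only [df, ho.zero]

/-- The Busemann function lies above its tangent. -/
theorem low (hj : m.Jac) (hl : m.Had lg) (hb : B0 m lg β) (x w q : V) (hw : ‖w‖ = 1)
    (r : ℝ) : -(r * ⟪w, q⟫) ≤ β (x, w) (m.Z r (x, q)).1 := by
  refine ge_of_tendsto' (hb.lim (x, w) (m.Z r (x, q)).1 hw) fun T => ?_
  have hn : nz (x, w) = (x, w) := by simp [nz, hw]
  have h1 := DNWI.hinge' hl x (m.Z r (x, q)).1 (m.Z T (x, w)).1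
  have e1 := DNWI.lg_ray hj hl r (x, q)
  have e2 := DNWI.lg_ray hj hl T (x, w)
  simp only at e1 e2
  rw [e1, e2] at h1
  have h2 := real_inner_le_norm w ((T : ℝ) • w - r • q)
  rw [hw, one_mul, inner_sub_right, real_inner_smul_right, real_inner_smul_right,
    real_inner_self_eq_norm_sq, hw, norm_sub_rev] at h2
  simp only [bt, hn]
  linarith

end ANGx

open ANGx in
theorem ang : SANG := by
  intro m lg β m' lg' β' a' φ ψ H hmv hkey hyc
  obtain ⟨c, C, hc, hC, hY⟩ := hyc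
  obtain ⟨δ, hδ, hK⟩ := hkey (1 / 4) (by norm_num)
  obtain ⟨δ₁, hδ₁, hU⟩ := H.p1.uc (1 / 8) (by norm_num)
  have ho := H.ok
  have hj := H.jac
  have hl := H.had
  refine ⟨min (δ / 4) δ₁, c / 2, 4 * √C * exp (c / 2), by positivity, by positivity,
    by positivity, fun x w q T hw hq hT hd => ?_⟩
  set l := min (δ / 4) δ₁ with hl0
  have l1 : l ≤ δ / 4 := min_le_left _ _
  have l2 : l ≤ δ₁ := min_le_right _ _
  have uP : ‖(φ (x, w)).2‖ = 1 := H.p1.unit (x, w) hw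
  have uQ : ‖(φ (x, q)).2‖ = 1 := H.p1.unit (x, q) hq
  have uZ : ∀ (t : ℝ) (y u : V), ‖u‖ = 1 → ‖(m.Z t (y, u)).2‖ = 1 := fun t y u hu => by
    rw [hj.norm]; exact hu
  have cl : ∀ t ∈ Icc 0 (T - 1), df m' lg' (φ (x, w)) (φ (x, q)) t ≤ 1 / 8 := by
    intro t ht
    have h := hU (m.Z t (x, w)) (m.Z t (x, q)) (uZ t x w hw) (uZ t x q hq) fun s hs => by
      rw [df_shift ho]
      exact (hd _ ⟨by linarith [hs.1, ht.1], by linarith [hs.2, ht.2]⟩).trans l2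
    rw [H.p1.flow t (x, w) hw, H.p1.flow t (x, q) hq, df_shift H.ok', zero_add] at h
    exact h
  obtain ⟨τ, hτ⟩ := hY (φ (x, w)) (φ (x, q)) (T - 1) uP uQ (by linarith) cl
  set θ := C * exp (-(c * (T - 1))) with hθ
  have hA : τ ≤ θ := by
    obtain ⟨y, hy, hs⟩ := hK x w q hw hq
      ((hd 1 ⟨zero_le_one, by linarith⟩).trans (by linarith))
    have h0 := cl 0 ⟨le_rfl, by linarith⟩
    rw [df_zero H.ok', DNWI.lg_symm H.jac' H.had'] at h0
    have h1 := H.had'.tri (φ (x, q)).1 (φ (x, w)).1 y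
    have h2 := abs_le.1 (hτ y (by linarith))
    have h3 := H.bz.opp (φ (x, q)) y uQ
    linarith [h2.1]
  obtain ⟨v, k, hv, hf⟩ := hmv (x, w) (m.Z (1 / 4) (x, q)).1 hw
  set x' := (m.Z (1 / 4) (x, q)).1 with hx'
  have hk : β (x, w) x' = -k := by
    have h1 := H.b0.top (x', v) (m.Z k (x, w)) hv (uZ k x w hw) hf x'
    have h2 := H.b0.self (x', v) 0 hv
    rw [ho.zero] at h2
    rw [H.b0.shift (x, w) k x' hw] at h1
    simp only at h2
    linarith
  have d1 : ‖lg ((m.Z (1 / 4) (x, w)).1, x')‖ ≤ l := hd (1 / 4) ⟨by norm_num, by linarith⟩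
  have d2 : ‖lg (x', (m.Z (1 / 4) (x, w)).1)‖ ≤ l := by
    rw [DNWI.lg_symm hj hl]; exact d1
  have hkr : |k - 1 / 4| ≤ l := by
    have h1 := H.b0.lip (x, w) x' (m.Z (1 / 4) (x, w)).1 hw
    have h2 := H.b0.lip (x, w) (m.Z (1 / 4) (x, w)).1 x' hw
    rw [hk, H.b0.self (x, w) (1 / 4) hw] at h1 h2
    rw [abs_le]
    constructor <;> linarith
  have hclose : df m lg (x', (m.Z (1 / 4) (x, q)).2) (x', v) 1 ≤ δ := by
    have h1 := conv_le (H.cvx (x', v) (m.Z k (x, w))) (norm_nonneg _) hf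
    rw [df_zero ho] at h1
    have h2 := hl.tri x' (m.Z (1 / 4) (x, w)).1 (m.Z k (x, w)).1
    have h3 := DNWI.dist_geo ho hj hl (x, w) (1 / 4) k
    have h4 := DNWI.dist_geo ho hj hl (x, w) (1 + 1 / 4) (1 + k)
    have e : 1 + k - (1 + 1 / 4) = k - 1 / 4 := by ring
    simp only [hw, mul_one, e] at h3 h4
    have h5 : ‖lg ((m.Z (1 + 1 / 4) (x, w)).1, (m.Z (1 + 1 / 4) (x, q)).1)‖ ≤ l :=
      hd (1 + 1 / 4) ⟨by norm_num, by linarith⟩
    rw [DNWI.lg_symm hj hl] at h5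
    have h6 := hl.tri (m.Z (1 + 1 / 4) (x, q)).1 (m.Z (1 + 1 / 4) (x, w)).1 (m.Z 1 (x', v)).1
    have h7 := hl.tri (m.Z (1 + 1 / 4) (x, w)).1 (m.Z (1 + k) (x, w)).1 (m.Z 1 (x', v)).1
    have h8 : df m lg (x', v) (m.Z k (x, w)) 1 =
        ‖lg ((m.Z (1 + k) (x, w)).1, (m.Z 1 (x', v)).1)‖ := by
      rw [DNWI.lg_symm hj hl, df, ho.add]
    have h9 : df m lg (x', (m.Z (1 / 4) (x, q)).2) (x', v) 1 =
        ‖lg ((m.Z (1 + 1 / 4) (x, q)).1, (m.Z 1 (x', v)).1)‖ := by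
      rw [df, ho.add]
    simp only at h1
    linarith
  have hB : 1 / 4 - 2 * θ ≤ k := by
    obtain ⟨y, hy, hs⟩ := hK x' (m.Z (1 / 4) (x, q)).2 v (uZ (1 / 4) x q hq) hv hclose
    have e : φ (x', (m.Z (1 / 4) (x, q)).2) = m'.Z (1 / 4) (φ (x, q)) := H.p1.flow (1 / 4) (x, q) hq
    rw [e] at hy hs
    have uV : ‖(φ (x', v)).2‖ = 1 := H.p1.unit (x', v) hv
    have h1 := H.bz.opp (φ (x', v)) y uV
    have h2 := H.bz.top (φ (x', v)) (φ (m.Z k (x, w))) uV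
      (H.p1.unit (m.Z k (x, w)) (uZ k x w hw))
      (H.p1.fw (x', v) (m.Z k (x, w)) hv (uZ k x w hw) hf) y
    rw [H.p1.flow k (x, w) hw, H.bz.shift (φ (x, w)) k y uP] at h2
    rw [H.bz.shift (φ (x, q)) (1 / 4) y uQ] at hs
    have h3 := H.had'.tri (φ (x, q)).1 (m'.Z (1 / 4) (φ (x, q))).1 y
    have h4 := DNWI.dist_geo H.ok' H.jac' H.had' (φ (x, q)) 0 (1 / 4)
    rw [H.ok'.zero, uQ, sub_zero, abs_of_pos (by norm_num)] at h4
    have h5 := abs_le.1 (hτ y (by linarith))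
    linarith [h5.2]
  have hL := low hj hl H.b0 x w q hw (1 / 4)
  rw [← hx', hk] at hL
  have hsq : ‖w - q‖ ^ 2 ≤ 16 * θ := by
    rw [norm_sub_sq_real, hw, hq]
    linarith
  have hE : (4 * √C * exp (c / 2) * exp (-(c / 2 * T))) ^ 2 = 16 * θ := by
    have e1 : exp (c / 2) * exp (-(c / 2 * T)) * (exp (c / 2) * exp (-(c / 2 * T))) =
        exp (-(c * (T - 1))) := by
      rw [← exp_add, ← exp_add]
      congr 1
      ring
    have e2 := mul_self_sqrt hC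
    rw [hθ, ← e1]
    linear_combination (16 * (exp (c / 2) * exp (-(c / 2 * T))) ^ 2) * e2
  exact (pow_le_pow_iff_left₀ (norm_nonneg _) (by positivity) two_ne_zero).1 (hsq.trans hE.ge)

end

end Pool.Agent.MP_3ee8cb_gt.DNB3
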