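import Pool.Agent.MP_3ee8cb_gt.DNB3.Spec
import Pool.Agent.MP_3ee8cb_gt.DNC0.RBs
import Pool.Agent.MP_3ee8cb_gt.DNC0.RJf
import Pool.Agent.MP_3ee8cb_gt.DNC0.RMov
import Pool.Agent.MP_3ee8cb_gt.DNC0.RTel

/-! The basic rows for a nonpositively curved source. -/

namespace Pool.Agent.MP_3ee8cb_gt.DNB3

open DN (Dim dm)

variable [Dim]

open Set Filter Topology Asymptotics Real DN DNC0
open scoped RealInnerProductSpace ContDiff

open RBs in
theorem bs0 : SBS0 := by
  intro m lg Γ _ _ O b nw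
  have ok := nw.ok
  have jac := nw.jac
  have had := nw.had
  refine ⟨fun γ x y => ?_, fun x y => ?_, self ok jac had, fun z s t => ?_, fun t z => ?_,
    fun R => ?_, euc ok jac had, del ok jac had, loc ok jac had⟩
  · have h1 := nw.act.flow γ 1 (x, lg (x, y))
    have h2 := had.xe (γ • x) (O γ x (lg (x, y)))
    simp only [had.ex] at h1
    rw [h1] at h2
    simp only at h2
    rw [h2, LinearIsometryEquiv.norm_map]
  · rw [had.rev x y, norm_neg, jac.norm]
  · have h1 : m.Z t z = m.Z (t - s) (m.Z s z) := by rw [← ok.add, sub_add_cancel]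
    have h2 := ray jac (m.Z s z).1 (m.Z s z).2 (t - s)
    rw [h1, ← h2, had.xe, norm_smul, jac.norm, Real.norm_eq_abs, abs_sub_comm]
  · have h1 := jac.scale t (-1) z.1 z.2
    simp only [neg_smul, one_smul, neg_mul, one_mul] at h1
    exact h1
  · obtain ⟨A, -, hA⟩ := H38.bdd_ball (c1 ok 1).fst.continuous R
    refine ⟨A, fun x y hx hy => ?_⟩
    have := hA (x, lg (x, y)) (by rw [Prod.norm_def]; exact max_le hx hy)
    rwa [had.ex] at this

open RMov in
theorem mov0 : SMOV0 := by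
  intro m lg Γ _ _ O b nw a bs γ k z ξ
  have o := nw.ok
  have act := nw.act
  have hdf : ∀ (q : W) (t : ℝ),
      df m lg (ac O γ (m.Z k z)) (ac O γ (m.Z k q)) t = df m lg z q (t + k) := by
    intro q t
    unfold df
    rw [fl_ac act, fl_ac act, ← o.add, ← o.add]
    exact bs.eqv γ _ _
  refine ⟨?_, hdf, fun q ε T cl => ⟨⟨?_, ?_, fun j hj => ?_, ?_⟩, ?_⟩⟩
  · unfold nn
    rw [hor_ac act, ver_ac act, LinearIsometryEquiv.norm_map, LinearIsometryEquiv.norm_map]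
  · change ‖O γ _ (m.Z k z).2‖ = 1
    rw [LinearIsometryEquiv.norm_map, nw.jac.norm, cl.nz]
  · change ‖O γ _ (m.Z k q).2‖ = 1
    rw [LinearIsometryEquiv.norm_map, nw.jac.norm, cl.nq]
  · have := cl.le (j + k) (by omega)
    rw [hdf, mul_assoc, ← exp_add]
    push_cast at this
    rwa [show -(a * k) + -(a * j) = -(a * (j + k)) by ring]
  · have := cl.meet
    push_cast at this
    rw [fl_ac act, fl_ac act, ← o.add, ← o.add]
    exact congrArg (fun x => γ • x) this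
  · have := cl.meet
    unfold en MF.J
    push_cast at this ⊢
    rw [chain1 o act, chain2 o, fl_ac act, fl_ac act, ← o.add, ← o.add, hor_ac act]
    change ⟪_, O γ (m.Z (T + k) q).1 (m.Z (T + k) q).2 -
      O γ (m.Z (T + k) z).1 (m.Z (T + k) z).2⟫ = _
    rw [← this, ← map_sub, LinearIsometryEquiv.inner_map_map]

theorem step0 : SSTEP0 := by
  intro m lg Γ _ _ O b nw R
  obtain ⟨B, B0, hB⟩ := H38.bdd_ball (H38.z_cd nw.ok 1).continuous R
  obtain ⟨c, c0, hc⟩ := H38.fin_bound (nw.fin (max R B)) (P := fun δ C => ∀ p q : W,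
      ‖p‖ ≤ R → ‖q‖ ≤ R → ‖ac O δ (m.Z 1 q) - ac O δ (m.Z 1 p) -
        fderiv ℝ (ac O δ) (m.Z 1 p) (fderiv ℝ (m.Z 1) p (q - p))‖ ≤ C * ‖q - p‖ ^ 2)
    (fun γ C C' h hP p q hp hq => (hP p q hp hq).trans (by gcongr))
    (fun γ => tel_comp nw.ok nw.qz (nw.qa γ) _)
  obtain ⟨d, d0, hd⟩ := RJf.omb nw.ok nw.b0 R
  refine ⟨d * c, by positivity, fun γ z q ξ hz hq hγ => ?_⟩
  have mem : γ ∈ {γ : Γ | ∃ x : V, ‖x‖ ≤ max R B ∧ ‖γ • x‖ ≤ max R B} :=
    ⟨_, le_max_of_le_right ((norm_fst_le _).trans (hB z hz)), le_max_of_le_left hγ⟩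
  have e1 : om m z ξ (q - z) = om m (ac O γ (m.Z 1 z))
      (fderiv ℝ (ac O γ) (m.Z 1 z) (fderiv ℝ (m.Z 1) z ξ))
      (fderiv ℝ (ac O γ) (m.Z 1 z) (fderiv ℝ (m.Z 1) z (q - z))) :=
    ((H38.om0_act nw.act γ _ _ _).trans (H38.om0_flow nw.jac 1 z ξ (q - z))).symm
  have e2 : ∀ z ξ η η' : W, om m z ξ η - om m z ξ η' = om m z ξ (η - η') := fun z ξ η η' =>
    (H38.om0_sub z ξ η η').symm
  have n1 : ‖ac O γ (m.Z 1 z)‖ ≤ R := by
    rw [Prod.norm_def]
    refine max_le hγ ?_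
    simp only [ac, LinearIsometryEquiv.norm_map, nw.jac.norm]
    exact (norm_snd_le z).trans hz
  have e3 : nn m b (ac O γ (m.Z 1 z)) (fderiv ℝ (ac O γ) (m.Z 1 z) (fderiv ℝ (m.Z 1) z ξ)) =
      nn m b (m.Z 1 z) (fderiv ℝ (m.Z 1) z ξ) := by
    have h1 := congrArg norm (nw.act.hor γ (m.Z 1 z) (fderiv ℝ (m.Z 1) z ξ))
    have h2 := congrArg norm (nw.act.ver γ (m.Z 1 z) (fderiv ℝ (m.Z 1) z ξ))
    rw [LinearIsometryEquiv.norm_map] at h1 h2
    unfold nn
    rw [← h1, ← h2]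
    rfl
  rw [e1, e2]
  refine (hd _ _ _ n1).1.trans ?_
  rw [e3]
  have n0 : 0 ≤ nn m b (m.Z 1 z) (fderiv ℝ (m.Z 1) z ξ) := Real.sqrt_nonneg _
  calc _ ≤ d * nn m b (m.Z 1 z) (fderiv ℝ (m.Z 1) z ξ) * (c * ‖q - z‖ ^ 2) :=
        mul_le_mul_of_nonneg_left (hc γ mem z q hz hq) (by positivity)
    _ = _ := by ring

theorem ug : SUG := by
  intro m lg Γ _ _ O b nw bs η hη
  obtain ⟨K, hK, hc⟩ := nw.act.cpt
  obtain ⟨R0, hR0⟩ := hK.isBounded.exists_norm_le
  obtain ⟨R', hR'⟩ := bs.bdd (max R0 1)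
  obtain ⟨C, C0, hC⟩ := bs.del (max (max R0 1) R')
  have cz : Continuous fun x : ℝ × W => (m.Z x.1 x.2).1 := continuous_fst.comp nw.ok.cZ.continuous
  have c : Continuous fun x : ℝ × W × W => df m lg x.2.1 x.2.2 x.1 :=
    (nw.had.c1.continuous.comp
      ((cz.comp (continuous_fst.prodMk continuous_snd.fst)).prodMk
        (cz.comp (continuous_fst.prodMk continuous_snd.snd)))).norm
  have kb := isCompact_closedBall (0 : W) (max (max R0 1) R')
  obtain ⟨ε, hε, H⟩ := Metric.uniformContinuousOn_iff_le.1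
    (((isCompact_Icc (a := (0 : ℝ)) (b := 3)).prod (kb.prod kb)).uniformContinuousOn_of_continuous
      c.continuousOn) η hη
  have p0 : 0 < 2 * C + 1 := by positivity
  refine ⟨min 1 (ε / (2 * C + 1)), lt_min one_pos (div_pos hε p0), fun p q hp hq h0 h1 t ht => ?_⟩
  obtain ⟨γ, hγ⟩ := hc p.1
  have e : ∀ s, df m lg (ac O γ p) (ac O γ q) s = df m lg p q s := fun s => by
    unfold df
    rw [RMov.fl_ac nw.act, RMov.fl_ac nw.act]
    exact bs.eqv γ _ _
  have n1 : ‖γ • p.1‖ ≤ max R0 1 := (hR0 _ hγ).trans (le_max_left _ _)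
  have np : ‖ac O γ p‖ ≤ max (max R0 1) R' := by
    rw [Prod.norm_def]
    refine (max_le n1 ?_).trans (le_max_left _ _)
    simp only [ac, LinearIsometryEquiv.norm_map, hp]
    exact le_max_right _ _
  have nq : ‖ac O γ q‖ ≤ max (max R0 1) R' := by
    rw [Prod.norm_def]
    refine max_le ((hR' _ _ n1 ?_).trans (le_max_right _ _)) ?_
    · have := h0.trans ((min_le_left _ _).trans (le_max_right R0 1))
      rw [← e, df, nw.ok.zero, nw.ok.zero] at this
      exact this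
    · simp only [ac, LinearIsometryEquiv.norm_map, hq]
      exact (le_max_right _ _).trans (le_max_left _ _)
  have d := hC _ _ np nq
  rw [e, e] at d
  have d0 := (le_div_iff₀ p0).1 (h0.trans (min_le_right _ _))
  have d1 := (le_div_iff₀ p0).1 (h1.trans (min_le_right _ _))
  have n0 : 0 ≤ df m lg p q 0 := norm_nonneg _
  have n2 : 0 ≤ df m lg p q 1 := norm_nonneg _
  have := H (t, ac O γ p, ac O γ q)
    ⟨ht, mem_closedBall_zero_iff.2 np, mem_closedBall_zero_iff.2 nq⟩ (t, ac O γ p, ac O γ p)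
    ⟨ht, mem_closedBall_zero_iff.2 np, mem_closedBall_zero_iff.2 np⟩ (by
      rw [Prod.dist_eq, Prod.dist_eq, dist_self, dist_self, dist_eq_norm]
      exact max_le hε.le (max_le hε.le (by linarith)))
  have z : df m lg (ac O γ p) (ac O γ p) t = 0 := by rw [df, bs.self, norm_zero]
  rw [Real.dist_eq, z, sub_zero, e] at this
  exact (le_abs_self _).trans this

end Pool.Agent.MP_3ee8cb_gt.DNB3
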