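import Pool.Agent.MP_3ee8cb_gt.DNB3.Spec
import Pool.Agent.MP_3ee8cb_gt.DQ.RAP

/-! The distance between two geodesics is convex. -/

namespace Pool.Agent.MP_3ee8cb_gt.DNB3

open DN (Dim dm)

variable [Dim]

open DN DNWI DNC0 Set

namespace CVXx

variable {m : MF} {lg : V × V → V}

theorem back (ho : m.OK) (hj : m.Jac) (hl : m.Had lg) (z : V × V) (t : ℝ) :
    (m.Z (1 - t) ((m.Z 1 z).1, lg ((m.Z 1 z).1, z.1))).1 = (m.Z t z).1 := by
  have e1 : lg ((m.Z 1 z).1, z.1) = ((0 : ℝ) - 1) • (m.Z 1 z).2 := by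
    have := lg_geo ho hj hl z 1 0
    rwa [ho.zero] at this
  rw [e1, hj.scale, ← ho.add, show ((0 : ℝ) - 1) * (1 - t) + 1 = t by ring]

theorem one (ho : m.OK) (hj : m.Jac) (hl : m.Had lg) (z y : V × V) {t : ℝ} (h0 : 0 ≤ t)
    (h1 : t ≤ 1) : ‖lg ((m.Z t z).1, (m.Z t y).1)‖ ≤
      (1 - t) * ‖lg (z.1, y.1)‖ + t * ‖lg ((m.Z 1 z).1, (m.Z 1 y).1)‖ := by
  have a := DQ.APx.thin ho hj hl z.1 z.2 (lg (z.1, (m.Z 1 y).1)) h0 h1
  rw [hl.ex] at a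
  have b := DQ.APx.thin ho hj hl (m.Z 1 y).1 (lg ((m.Z 1 y).1, z.1))
    (lg ((m.Z 1 y).1, y.1)) (sub_nonneg.2 h1) (by linarith : 1 - t ≤ 1)
  rw [hl.ex, hl.ex, back ho hj hl y t] at b
  have c := back ho hj hl (z.1, lg (z.1, (m.Z 1 y).1)) t
  rw [hl.ex] at c
  simp only at c
  rw [c] at b
  have d := hl.tri (m.Z t z).1 (m.Z t (z.1, lg (z.1, (m.Z 1 y).1))).1 (m.Z t y).1
  linarith

theorem sc (ho : m.OK) (hj : m.Jac) (p : V × V) (s r u : ℝ) :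
    (m.Z u ((m.Z s p).1, r • (m.Z s p).2)).1 = (m.Z (r * u + s) p).1 := by
  rw [hj.scale, ho.add]

end CVXx

theorem cvx : SCVX := by
  intro m lg ho hj hl p q
  refine ⟨convex_univ, fun s _ t _ a b ha hb hab => ?_⟩
  have h := CVXx.one ho hj hl ((m.Z s p).1, (t - s) • (m.Z s p).2)
    ((m.Z s q).1, (t - s) • (m.Z s q).2) hb (by linarith)
  have e : (t - s) * b + s = a • s + b • t := by
    obtain rfl : a = 1 - b := by linarith
    simp only [smul_eq_mul]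
    ring
  rw [CVXx.sc ho hj, CVXx.sc ho hj, CVXx.sc ho hj, CVXx.sc ho hj, e,
    show (t - s) * 1 + s = t by ring, show 1 - b = a by linarith] at h
  exact h

end Pool.Agent.MP_3ee8cb_gt.DNB3
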