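import Pool.Agent.MP_3ee8cb_gt.DNB3.Spec
import Pool.Agent.MP_3ee8cb_gt.DNC0.RJf

/-! The Jacobi field that vanishes at the end of an almost parallel one. -/

namespace Pool.Agent.MP_3ee8cb_gt.DNB3

open DN (Dim dm)

variable [Dim]

open Set Filter Topology Real DN DNC0
open scoped RealInnerProductSpace

namespace GRONx

omit [Dim] in
theorem back {N N' : ℝ → ℝ} {L T c : ℝ} (hL : 0 ≤ L) (hc : 0 ≤ c)
    (hd : ∀ t, HasDerivAt N (N' t) t)
    (hb : ∀ t ∈ Icc 0 T, 0 ≤ N' t + L * (N t + c)) (hT : N T = 0) :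
    ∀ t ∈ Icc 0 T, N t ≤ c * exp (L * T) := by
  have hG : ∀ t, HasDerivAt (fun s => (N s + c) * exp (L * s))
      ((N' t + L * (N t + c)) * exp (L * t)) t := by
    intro t
    have h1 : HasDerivAt (fun s => exp (L * s)) (exp (L * t) * L) t := by
      simpa using ((hasDerivAt_id t).const_mul L).exp
    refine (((hd t).add_const c).mul h1).congr_deriv ?_
    ring
  have hm : MonotoneOn (fun s => (N s + c) * exp (L * s)) (Icc 0 T) := by
    refine monotoneOn_of_deriv_nonneg (convex_Icc 0 T)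
      (fun t _ => (hG t).continuousAt.continuousWithinAt)
      (fun t _ => (hG t).differentiableAt.differentiableWithinAt) fun t ht => ?_
    rw [(hG t).deriv]
    exact mul_nonneg (hb t (interior_subset ht)) (exp_pos _).le
  intro t ht
  have h := hm ht ⟨ht.1.trans ht.2, le_rfl⟩ ht.2
  simp only [hT, zero_add] at h
  have h1 : 1 ≤ exp (L * t) := one_le_exp (mul_nonneg hL ht.1)
  have h2 : 0 ≤ c * exp (L * T) := mul_nonneg hc (exp_pos _).le
  by_cases hn : 0 ≤ N t
  · nlinarith [mul_nonneg hc (exp_pos (L * t)).le]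
  · linarith

end GRONx

theorem gron : SGRON := by
  intro m lg Γ _ _ O b h
  have ok := h.ok
  have jac := h.jac
  have hb := h.b0
  have hL : 0 ≤ 3 + b + b ^ 3 := by positivity
  refine ⟨3 + b + b ^ 3, hL, fun z ξ ζ T β hz hβ hJ h0 h1 => ?_⟩
  set E : ℝ → V := fun t => m.J z ζ t - (t - T) • m.J z ξ t with hE
  set F : ℝ → V := fun t => m.J' z ζ t - m.J z ξ t - (t - T) • m.J' z ξ t with hF
  have dE : ∀ t, HasDerivAt E (F t - m.w z t (E t)) t := by
    intro t
    refine ((jac.d1 z ζ t).sub (((hasDerivAt_id t).sub_const T).smul (jac.d1 z ξ t))).congr_deriv ?_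
    simp only [hE, hF, id, map_sub, map_smul]
    module
  have dF : ∀ t, HasDerivAt F ((-m.K (m.Z t z).1 (E t) (m.Z t z).2 (m.Z t z).2 -
      (2 : ℝ) • m.J' z ξ t) - m.w z t (F t)) t := by
    intro t
    refine (((jac.d2 z ζ t).sub (jac.d1 z ξ t)).sub
      (((hasDerivAt_id t).sub_const T).smul (jac.d2 z ξ t))).congr_deriv ?_
    obtain ⟨L, hl⟩ := jac.lK (m.Z t z).1
    simp only [hE, hF, id, hl, map_sub, map_smul, ContinuousLinearMap.sub_apply,
      ContinuousLinearMap.smul_apply]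
    module
  have key := GRONx.back (N := fun t => ⟪E t, E t⟫ + ⟪F t, F t⟫) (L := 3 + b + b ^ 3) (T := T)
    (c := β ^ 2) hL (sq_nonneg β)
    (fun t => (RJf.inn ok (dE t) (dE t)).add (RJf.inn ok (dF t) (dF t))) (fun t ht => by
      have k := RJf.kbd jac hb h.up h.dn (m.Z t z).1 (E t) (-F t) (m.Z t z).2
        ((jac.norm t z).trans hz)
      have a1 := abs_le.1 (abs_real_inner_le_norm (E t) (F t))
      have a2 := abs_le.1 (abs_real_inner_le_norm (F t) (m.J' z ξ t))
      have a3 := hJ t ht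
      have a4 := mul_le_mul_of_nonneg_left a3 (norm_nonneg (F t))
      rw [inner_neg_right, norm_neg] at k
      simp only [inner_sub_left, inner_sub_right, inner_neg_left, inner_neg_right,
        real_inner_smul_left, real_inner_smul_right, real_inner_self_eq_norm_sq,
        real_inner_comm (E t) (F t), real_inner_comm (F t) (m.J' z ξ t),
        real_inner_comm (m.K (m.Z t z).1 (E t) (m.Z t z).2 (m.Z t z).2) (F t)] at a1 a2 k ⊢
      have p1 := mul_nonneg hb.le (sq_nonneg ‖E t‖)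
      have p2 := mul_nonneg (pow_pos hb 3).le (sq_nonneg ‖F t‖)
      have p3 := mul_nonneg hb.le (sq_nonneg β)
      have p4 := mul_nonneg (pow_pos hb 3).le (sq_nonneg β)
      nlinarith [sq_nonneg (‖E t‖ - ‖F t‖), sq_nonneg (‖F t‖ - β), sq_nonneg ‖E t‖, sq_nonneg β])
    (by simp [hE, hF, h0, h1])
  intro t ht
  have k := key t ht
  simp only [real_inner_self_eq_norm_sq] at k
  have e1 : 1 ≤ exp ((3 + b + b ^ 3) * T) := one_le_exp (mul_nonneg hL (ht.1.trans ht.2))
  have e2 : β ^ 2 * exp ((3 + b + b ^ 3) * T) ≤ (β * exp ((3 + b + b ^ 3) * T)) ^ 2 := by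
    rw [mul_pow]
    exact mul_le_mul_of_nonneg_left (by nlinarith) (sq_nonneg β)
  have e3 : 0 ≤ β * exp ((3 + b + b ^ 3) * T) := by positivity
  exact ⟨(pow_le_pow_iff_left₀ (norm_nonneg (E t)) e3 two_ne_zero).1
      (by nlinarith [sq_nonneg ‖F t‖]),
    (pow_le_pow_iff_left₀ (norm_nonneg (F t)) e3 two_ne_zero).1 (by nlinarith [sq_nonneg ‖E t‖])⟩

end Pool.Agent.MP_3ee8cb_gt.DNB3
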