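import Pool.Agent.MP_3ee8cb_gt.DNB3.Spec
import Pool.Agent.MP_3ee8cb_gt.DNC0.RJf
import Pool.Agent.MP_3ee8cb_gt.DNC0.RMov

/-! Without almost parallel fields, Jacobi fields that vanish at time zero double. -/

namespace Pool.Agent.MP_3ee8cb_gt.DNB3

open DN (Dim dm)

open Set Real
open scoped RealInnerProductSpace

namespace HALFx

theorem mono {f f' : ℝ → ℝ} (hf : ∀ x, HasDerivAt f (f' x) x) {a b c : ℝ} (ab : a ≤ b)
    (h : ∀ x ∈ Icc a b, c ≤ f' x) : c * (b - a) ≤ f b - f a :=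
  (convex_Icc a b).mul_sub_le_image_sub_of_le_deriv
    (fun x _ => (hf x).continuousAt.continuousWithinAt)
    (fun x _ => (hf x).differentiableAt.differentiableWithinAt)
    (fun x hx => (hf x).deriv ▸ h x (interior_subset hx)) a (left_mem_Icc.2 ab) b
    (right_mem_Icc.2 ab) ab

/-- The scalar part. -/
theorem core {N h q h' q' : ℝ → ℝ} {b β δ s T R : ℝ} (dN : ∀ t, HasDerivAt N (2 * h t) t)
    (dh : ∀ t, HasDerivAt h (h' t) t) (dq : ∀ t, HasDerivAt q (q' t) t) (q0 : ∀ t, 0 ≤ q t)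
    (N0 : ∀ t, 0 ≤ N t) (hh : ∀ t, q t ≤ h' t) (hq : ∀ t, -(b * (b ^ 2 * N t + q t)) ≤ q' t)
    (h0 : h 0 = 0) (b0 : 0 < b) (β0 : 0 < β) (δ0 : 0 < δ) (δ1 : δ ≤ 1) (δ2 : b * δ ≤ 1 / 2)
    (δ3 : b ^ 3 * δ ≤ β ^ 2 / 4) (s0 : 0 ≤ s) (hR : R = s + T + 1 + 2 / (δ * β ^ 2))
    (NR : N R = 1) (t : ℝ) (ht : t ∈ Icc s (s + T)) :
    N s ≤ N t ∧ N t ≤ 1 ∧ q t ≤ β ^ 2 := by
  have mh : ∀ {x y}, x ≤ y → h x ≤ h y := fun xy => by
    have := mono dh xy (c := 0) fun x _ => (q0 x).trans (hh x)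
    linarith
  have mN : ∀ {x y}, 0 ≤ x → x ≤ y → N x ≤ N y := fun x0 xy => by
    have := mono dN xy (c := 0) fun z hz => by linarith [mh (x0.trans hz.1)]
    linarith
  have p0 : 0 < 2 / (δ * β ^ 2) := by positivity
  have t0 := s0.trans ht.1
  have e1 := mono dN (show s + T + 1 ≤ R by linarith) (c := 2 * h (s + T + 1))
    fun z hz => by linarith [mh hz.1]
  have e2 : h (s + T + 1) ≤ δ * β ^ 2 / 4 := by
    have e3 : R - (s + T + 1) = 2 / (δ * β ^ 2) := by linarith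
    rw [e3, NR, ← mul_div_assoc, div_le_iff₀ (by positivity)] at e1
    nlinarith [mul_nonneg (N0 (s + T + 1)) (show 0 ≤ δ * β ^ 2 by positivity)]
  have e4 : ∀ r ∈ Icc t (t + δ), q t / 2 - β ^ 2 / 4 ≤ q r := fun r hr => by
    have d : ∀ x, HasDerivAt (fun x => (q x + b ^ 2) * exp (b * x))
        (q' x * exp (b * x) + (q x + b ^ 2) * (exp (b * x) * (b * 1))) x := fun x =>
      ((dq x).add_const _).mul ((hasDerivAt_id x).const_mul b).exp
    have e5 := mono d hr.1 (c := 0) fun x hx => by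
      have e6 : N x ≤ 1 := NR ▸ mN (t0.trans hx.1) (by linarith [hx.2, hr.2, ht.2])
      have e7 : 0 ≤ q' x + (q x + b ^ 2) * b := by
        nlinarith [hq x, mul_le_mul_of_nonneg_left e6 (pow_pos b0 3).le]
      nlinarith [mul_nonneg e7 (exp_pos (b * x)).le]
    have e8 : (q t + b ^ 2) * exp (b * t - b * r) ≤ q r + b ^ 2 := by
      rw [exp_sub, ← mul_div_assoc, div_le_iff₀ (exp_pos _)]
      linarith
    have e9 : 1 - b * δ ≤ exp (b * t - b * r) :=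
      le_trans (by nlinarith [hr.2]) (add_one_le_exp _)
    have e10 := mul_le_mul_of_nonneg_left e9 (add_nonneg (q0 t) (sq_nonneg b))
    nlinarith [mul_le_mul_of_nonneg_left δ2 (q0 t)]
  have e5 := mono dh (show t ≤ t + δ by linarith) fun r hr => (e4 r hr).trans (hh r)
  have e6 := mh (show t + δ ≤ s + T + 1 by linarith [ht.2])
  have e7 := mh t0
  refine ⟨mN s0 ht.1, NR ▸ mN t0 (by linarith [ht.2]), ?_⟩
  have e8 : (q t / 2 - β ^ 2 / 4) * δ ≤ β ^ 2 / 4 * δ := by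
    rw [add_sub_cancel_left] at e5
    linarith
  linarith [le_of_mul_le_mul_right e8 δ0]

end HALFx

variable [Dim]

open DN DNC0 HALFx in
theorem half : SHALF := by
  rintro m lg Γ _ _ O b n ⟨T, β, T0, β0, nf⟩
  have b0 := n.b0
  obtain ⟨δ, δ0, δ1, δ2, δ3⟩ : ∃ δ : ℝ, 0 < δ ∧ δ ≤ 1 ∧ b * δ ≤ 1 / 2 ∧ b ^ 3 * δ ≤ β ^ 2 / 4 := by
    refine ⟨min 1 (min (1 / 2 / b) (β ^ 2 / 4 / b ^ 3)), by positivity, min_le_left _ _, ?_, ?_⟩
    · exact (le_div_iff₀' b0).1 ((min_le_right _ _).trans (min_le_left _ _))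
    · exact (le_div_iff₀' (pow_pos b0 3)).1 ((min_le_right _ _).trans (min_le_right _ _))
  refine ⟨T + 1 + 2 / (δ * β ^ 2), by positivity, fun y u e R hu he hR => ?_⟩
  obtain ⟨s, rfl⟩ : ∃ s, R = s + (T + 1 + 2 / (δ * β ^ 2)) := ⟨R - _, (sub_add_cancel _ _).symm⟩
  rw [add_sub_cancel_right]
  have s0 : 0 ≤ s := by linarith
  have un : ∀ t, ‖(m.Z t (y, u)).2‖ = 1 := fun t => (n.jac.norm t _).trans hu
  have dN : ∀ ξ t, HasDerivAt (fun t => ⟪m.J (y, u) ξ t, m.J (y, u) ξ t⟫)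
      (2 * ⟪m.J (y, u) ξ t, m.J' (y, u) ξ t⟫) t := fun ξ t =>
    (RJf.inn n.ok (n.jac.d1 _ ξ t) (n.jac.d1 _ ξ t)).congr_deriv (by
      rw [real_inner_comm (m.J (y, u) ξ t) (m.J' (y, u) ξ t)]
      ring)
  have dh := fun ξ t => RJf.inn n.ok (n.jac.d1 (y, u) ξ t) (n.jac.d2 (y, u) ξ t)
  have dq := fun ξ t => RJf.inn n.ok (n.jac.d2 (y, u) ξ t) (n.jac.d2 (y, u) ξ t)
  have hh : ∀ ξ t, ⟪m.J' (y, u) ξ t, m.J' (y, u) ξ t⟫ ≤ ⟪m.J (y, u) ξ t,
      -m.K (m.Z t (y, u)).1 (m.J (y, u) ξ t) (m.Z t (y, u)).2 (m.Z t (y, u)).2⟫ +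
        ⟪m.J' (y, u) ξ t, m.J' (y, u) ξ t⟫ := fun ξ t => by
    have := n.up (m.Z t (y, u)).1 (m.J (y, u) ξ t) (m.Z t (y, u)).2
    rw [zero_mul, real_inner_comm] at this
    rw [inner_neg_right]
    linarith
  have J0 : ∀ v : V, m.J (y, u) (0, v) 0 = 0 := fun v => by
    rw [RJf.J0 n.ok]
    simp [MF.hor]
  have sm : ∀ (c : ℝ) t, m.J (y, u) (0, c • e) t = c • m.J (y, u) (0, e) t := fun c t => by
    rw [MF.J, MF.J, ← map_smul, ← map_smul, Prod.smul_mk, smul_zero]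
  by_contra hc
  rw [not_le] at hc
  generalize hR' : s + (T + 1 + 2 / (δ * β ^ 2)) = R at hc hR
  have hp : ‖m.J (y, u) (0, e) R‖ ≠ 0 := fun h => by
    have e1 := mono (dN (0, e)) (show s ≤ R by rw [← hR']; exact le_add_of_nonneg_right (by
      positivity)) (c := 0) fun x hx => by
        have := mono (dh (0, e)) (s0.trans hx.1) (c := 0)
          fun x _ => real_inner_self_nonneg.trans (hh _ x)
        rw [J0, inner_zero_left] at this
        linarith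
    rw [real_inner_self_eq_norm_sq, real_inner_self_eq_norm_sq, h] at e1
    rw [h] at hc
    nlinarith
  have hp' := lt_of_le_of_ne (norm_nonneg _) hp.symm
  obtain ⟨v, hv⟩ : ∃ v, v = ‖m.J (y, u) (0, e) R‖⁻¹ • e := ⟨_, rfl⟩
  have k := core (dN (0, v)) (dh (0, v)) (dq (0, v)) (fun _ => real_inner_self_nonneg)
    (fun _ => real_inner_self_nonneg) (hh (0, v)) (fun t => by
      have := RJf.kbd n.jac b0 n.up n.dn (m.Z t (y, u)).1 (m.J (y, u) (0, v) t)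
        (-m.J' (y, u) (0, v) t) _ (un t)
      rw [norm_neg, inner_neg_right] at this
      rw [real_inner_self_eq_norm_sq, real_inner_self_eq_norm_sq, inner_neg_left, inner_neg_right,
        real_inner_comm]
      linarith) (by rw [J0, inner_zero_left]) b0 β0 δ0 δ1 δ2 δ3 s0 (T := T) (R := R)
    (by rw [← hR']; ring) (by
      rw [real_inner_self_eq_norm_sq, hv, sm, norm_smul, norm_inv, norm_norm, inv_mul_cancel₀ hp,
        one_pow])
  simp only [real_inner_self_eq_norm_sq] at k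
  have lo : 1 / 2 ≤ ‖m.J (y, u) (0, v) s‖ := by
    rw [hv, sm, norm_smul, norm_inv, norm_norm, le_inv_mul_iff₀ hp']
    linarith
  have eJ : ∀ t, m.J (m.Z s (y, u)) (fderiv ℝ (m.Z s) (y, u) (0, v)) t =
      m.J (y, u) (0, v) (t + s) := fun t => by
    rw [MF.J, MF.J, RMov.chain2 n.ok, n.ok.add]
  have eJ' : ∀ t, m.J' (m.Z s (y, u)) (fderiv ℝ (m.Z s) (y, u) (0, v)) t =
      m.J' (y, u) (0, v) (t + s) := fun t => by
    rw [MF.J', MF.J', RMov.chain2 n.ok, n.ok.add]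
  have k' := fun t (ht : t ∈ Icc 0 T) => k (t + s) ⟨by linarith [ht.1], by linarith [ht.2]⟩
  refine nf (m.Z s (y, u)) (fderiv ℝ (m.Z s) (y, u) (0, v)) ⟨un s, fun t => ?_, fun t ht => ?_,
    fun t ht => ?_, fun t ht => ?_⟩
  · rw [eJ, ← n.ok.add, RJf.al n.ok n.jac _ _ _ (by simp [MF.ver, hv, inner_smul_left, he])]
    simp [MF.hor]
  · rw [eJ]
    exact lo.trans (abs_le_of_sq_le_sq' (k' t ht).1 (norm_nonneg _)).2
  · rw [eJ]
    exact (sq_le_one_iff₀ (norm_nonneg _)).1 (k' t ht).2.1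
  · rw [eJ']
    exact (abs_le_of_sq_le_sq' (k' t ht).2.2 β0.le).2

end Pool.Agent.MP_3ee8cb_gt.DNB3
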