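import Pool.Agent.MP_3ee8cb_gt.DNB3.Spec
import Pool.Agent.MP_3ee8cb_gt.DNB2.RTst
import Pool.Agent.MP_3ee8cb_gt.DNC0.RMov

/-! An almost parallel Jacobi field gives two geodesics that approach slowly. -/

namespace Pool.Agent.MP_3ee8cb_gt.DNB3

open DN (Dim dm)

variable [Dim]

open Set Filter Topology Real DN DNC0
open scoped RealInnerProductSpace

namespace KEEPx

variable {m : MF} {lg : W → V} {Γ : Type} [Group Γ] [MulAction Γ V] {O : Γ → V → V ≃ₗᵢ[ℝ] V}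
  {b : ℝ}

theorem flmov (N : N0 m lg Γ O b) {z ξ : W} {S S' β : ℝ} (f : Fl m z ξ S β) (γ : Γ) {k : ℝ}
    (k0 : 0 ≤ k) (k1 : S' + k ≤ S) : Fl m (ac O γ (m.Z k z))
      (fderiv ℝ (ac O γ) (m.Z k z) (fderiv ℝ (m.Z k) z ξ)) S' β := by
  have e0 : ∀ t, m.Z t (ac O γ (m.Z k z)) = ac O γ (m.Z (t + k) z) := fun t => by
    rw [RMov.fl_ac N.act, N.ok.add]
  have e1 : ∀ t, m.J (ac O γ (m.Z k z)) (fderiv ℝ (ac O γ) (m.Z k z) (fderiv ℝ (m.Z k) z ξ)) t =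
      O γ (m.Z (t + k) z).1 (m.J z ξ (t + k)) := fun t => by
    unfold MF.J
    rw [RMov.chain1 N.ok N.act, RMov.chain2 N.ok, e0, ← N.ok.add, RMov.hor_ac N.act]
  have e2 : ∀ t, m.J' (ac O γ (m.Z k z)) (fderiv ℝ (ac O γ) (m.Z k z) (fderiv ℝ (m.Z k) z ξ)) t =
      O γ (m.Z (t + k) z).1 (m.J' z ξ (t + k)) := fun t => by
    unfold MF.J'
    rw [RMov.chain1 N.ok N.act, RMov.chain2 N.ok, e0, ← N.ok.add, RMov.ver_ac N.act]
  have i : ∀ t ∈ Icc 0 S', t + k ∈ Icc 0 S := fun t ht => ⟨by linarith [ht.1], by linarith [ht.2]⟩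
  refine ⟨?_, fun t => ?_, fun t ht => ?_, fun t ht => ?_, fun t ht => ?_⟩
  · rw [ac, LinearIsometryEquiv.norm_map, N.jac.norm, f.unit]
  · rw [e1, e0, ac, LinearIsometryEquiv.inner_map_map, f.perp]
  · rw [e1, LinearIsometryEquiv.norm_map]
    exact f.low _ (i t ht)
  · rw [e1, LinearIsometryEquiv.norm_map]
    exact f.upp _ (i t ht)
  · rw [e2, LinearIsometryEquiv.norm_map]
    exact f.der _ (i t ht)

theorem unit {v : V} (hv : v ≠ 0) : ‖‖v‖⁻¹ • v‖ = 1 := by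
  rw [norm_smul, norm_inv, norm_norm, inv_mul_cancel₀ (norm_ne_zero_iff.2 hv)]

theorem ray (N : N0 m lg Γ O b) (x u : V) (r : ℝ) :
    m.Z 1 (x, r • u) = ((m.Z r (x, u)).1, r • (m.Z r (x, u)).2) := by
  rw [N.jac.scale, mul_one]

theorem sh (N : N0 m lg Γ O b) (B : Bs m lg Γ) (p : W) (hp : ‖p.2‖ = 1) (r t : ℝ) :
    df m lg p (m.Z r p) t = |r| := by
  unfold df
  rw [← N.ok.add, B.geo, hp, mul_one, sub_add_cancel_left, abs_neg]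

/-- The pair at time zero. -/
theorem start (N : N0 m lg Γ O b) (B : Bs m lg Γ) (cv : Cvx m lg) {R : ℝ} (R1 : 1 ≤ R) :
    ∃ C : ℝ, 0 ≤ C ∧ ∀ (z : W) (l : V) (S : ℕ) (ε : ℝ), ‖z‖ ≤ R → ‖z.2‖ = 1 → ⟪l, z.2⟫ = 0 →
      ‖l‖ ≤ 1 → l ≠ 0 → 0 < ε → ε ≤ 1 / 2 → 1 ≤ S → ∃ q : W, ‖q.2‖ = 1 ∧
        (∀ t ∈ Icc (0 : ℝ) S, df m lg z q t ≤ 2 * ε) ∧ (m.Z S z).1 = (m.Z S q).1 ∧
        ε * ‖l‖ ^ 2 - C * ε ^ 2 ≤ ⟪l, m.S z.1 (q.1 - z.1)⟫ := by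
  obtain ⟨R', hR⟩ := B.bdd R
  obtain ⟨D, D0, hD⟩ := B.del (max R' R)
  obtain ⟨E, E0, hE⟩ := DNB2.RTst.ex2 N.ok N.jac N.qz R
  refine ⟨4 * E + 12 * D, by positivity, fun z l S ε hz z1 pp l1 l0 e0 e1 S1 => ?_⟩
  have S1' : (1 : ℝ) ≤ S := by exact_mod_cast S1
  have x1 : ‖z.1‖ ≤ R := (norm_fst_le z).trans hz
  have bd : ∀ p : W, ‖p.2‖ = 1 → ‖lg (z.1, p.1)‖ ≤ 1 → ‖p‖ ≤ max R' R := fun p h1 h2 => by
    rw [Prod.norm_def, h1]
    exact max_le_max (hR _ _ x1 (h2.trans R1)) R1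
  have n0 := norm_pos_iff.2 l0
  obtain ⟨u, hu⟩ : ∃ u, u = ‖l‖⁻¹ • l := ⟨_, rfl⟩
  have u1 : ‖u‖ = 1 := hu ▸ unit l0
  obtain ⟨r, hr⟩ : ∃ r, r = ε * ‖l‖ := ⟨_, rfl⟩
  have r0 : 0 < r := hr ▸ mul_pos e0 n0
  have r1 : r ≤ ε := hr ▸ mul_le_of_le_one_right e0.le l1
  have ru : r • u = ε • l := by rw [hr, hu, smul_smul, mul_assoc, mul_inv_cancel₀ n0.ne', mul_one]
  have pu : ⟪u, z.2⟫ = 0 := by rw [hu, inner_smul_left, pp, mul_zero]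
  obtain ⟨Y, hY⟩ : ∃ Y, Y = m.Z r (z.1, u) := ⟨_, rfl⟩
  have Y1 : ‖Y.2‖ = 1 := by rw [hY, N.jac.norm, u1]
  have g1 : lg (z.1, Y.1) = r • u := by
    rw [← N.had.xe z.1 (r • u), ray N, hY]
  have g2 : lg (Y.1, z.1) = -(r • Y.2) := by rw [N.had.rev, g1, ray N, hY]
  have g3 : ‖lg (z.1, Y.1)‖ = r := by rw [g1, norm_smul, u1, mul_one, norm_of_nonneg r0.le]
  have d1 : ‖Y.2 - u‖ ≤ D * (2 * r) := by
    have h := hD (z.1, u) Y (bd (z.1, u) u1 (by rw [B.self, norm_zero]; exact zero_le_one))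
      (bd Y Y1 (by linarith))
    rw [hY, sh N B (z.1, u) u1, sh N B (z.1, u) u1, abs_of_pos r0, ← hY, ← two_mul] at h
    exact (norm_snd_le (Y - (z.1, u))).trans h
  obtain ⟨p, hp⟩ : ∃ p, p = (m.Z S z).1 := ⟨_, rfl⟩
  have p1 : lg (z.1, p) = (S : ℝ) • z.2 := by
    rw [← N.had.xe z.1 ((S : ℝ) • z.2), ray N, hp]
  have p2 : ‖lg (z.1, p)‖ = S := by rw [p1, norm_smul, z1, mul_one, norm_of_nonneg (by linarith)]
  have hg : ∀ a c d : V, ‖lg (a, c) - lg (a, d)‖ ≤ ‖lg (c, d)‖ := fun a c d => by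
    have := N.had.hinge a (lg (a, c)) (lg (a, d))
    rwa [N.had.ex, N.had.ex] at this
  obtain ⟨L, hL⟩ : ∃ L, L = ‖lg (Y.1, p)‖ := ⟨_, rfl⟩
  have L1 : (S : ℝ) ≤ L := by
    have h := hg z.1 Y.1 p
    rw [← hL, g1, p1] at h
    have h2 := norm_sub_sq_real (r • u) ((S : ℝ) • z.2)
    rw [inner_smul_left, inner_smul_right, pu, ← p1, p2] at h2
    rw [← p1] at h
    refine le_trans (le_of_sq_le_sq ?_ (norm_nonneg _)) h
    rw [h2]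
    nlinarith [sq_nonneg ‖r • u‖]
  have L2 : L ≤ S + r := by
    have h := N.had.tri Y.1 z.1 p
    rw [B.symm Y.1 z.1] at h
    linarith
  have v0 : lg (Y.1, p) ≠ 0 := norm_pos_iff.1 (by linarith)
  obtain ⟨n, hn⟩ : ∃ n, n = L⁻¹ • lg (Y.1, p) := ⟨_, rfl⟩
  have n1 : ‖n‖ = 1 := by rw [hn, hL, unit v0]
  have n2 : lg (Y.1, p) = L • n := by rw [hn, smul_inv_smul₀ (by linarith)]
  obtain ⟨q, hq⟩ : ∃ q, q = m.Z (L - S) (Y.1, n) := ⟨_, rfl⟩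
  have q1 : ‖q.2‖ = 1 := by rw [hq, N.jac.norm, n1]
  have mt : p = (m.Z S q).1 := by
    rw [hq, ← N.ok.add, add_sub_cancel, ← N.had.ex Y.1 p, n2, ray N]
  have q2 : ∀ t, df m lg (Y.1, n) q t = L - S := fun t => by
    rw [hq, sh N B (Y.1, n) n1, abs_of_nonneg (by linarith)]
  have q3 : ‖lg (Y.1, q.1)‖ = L - S := by simpa only [df, N.ok.zero] using q2 0
  have q4 : ‖lg (z.1, q.1)‖ ≤ 2 * ε := by linarith [N.had.tri z.1 Y.1 q.1]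
  have cl : ∀ t ∈ Icc (0 : ℝ) S, df m lg z q t ≤ 2 * ε := fun t ht => by
    refine ((cv z q).le_max_of_mem_Icc (mem_univ 0) (mem_univ (S : ℝ)) ht).trans (max_le ?_ ?_)
    · simpa only [df, N.ok.zero] using q4
    · rw [df, ← hp, ← mt, B.self, norm_zero]
      positivity
  have d2 : ‖n - z.2‖ ≤ D * (4 * ε) := by
    have h := hD z (Y.1, n) (hz.trans (le_max_right _ _)) (bd (Y.1, n) n1 (by linarith))
    have h1 : df m lg z (Y.1, n) 0 = r := by simpa only [df, N.ok.zero] using g3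
    have h2 := N.had.tri (m.Z 1 z).1 (m.Z 1 q).1 (m.Z 1 (Y.1, n)).1
    have h3 := q2 1
    have h4 := cl 1 ⟨zero_le_one, S1'⟩
    unfold df at h3 h4
    rw [B.symm] at h3
    refine ((norm_snd_le ((Y.1, n) - z)).trans h).trans (mul_le_mul_of_nonneg_left ?_ D0)
    rw [h1, df]
    linarith
  have ta : L - S ≤ 12 * D * ε ^ 2 := by
    have h := hg Y.1 z.1 p
    rw [p2, g2, n2] at h
    have h2 := norm_sub_sq_real (-(r • Y.2)) (L • n)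
    rw [inner_neg_left, inner_smul_left, inner_smul_right, norm_smul L, n1, mul_one,
      norm_of_nonneg (by linarith : 0 ≤ L), conj_trivial] at h2
    have h3 : -⟪Y.2, n⟫ ≤ D * (6 * ε) := by
      have a1 := abs_real_inner_le_norm (Y.2 - u) n
      have a2 := abs_real_inner_le_norm u (n - z.2)
      rw [inner_sub_left, n1, mul_one] at a1
      rw [inner_sub_right, pu, u1, one_mul, sub_zero] at a2
      have a3 := mul_le_mul_of_nonneg_left r1 D0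
      linarith [neg_abs_le (⟪Y.2, n⟫ - ⟪u, n⟫), neg_abs_le ⟪u, n⟫]
    have h4 := pow_le_pow_left₀ (norm_nonneg _) h 2
    have h5 : r * -⟪Y.2, n⟫ ≤ ε * (D * (6 * ε)) :=
      (mul_le_mul_of_nonneg_left h3 r0.le).trans (by gcongr)
    have h6 := mul_le_mul_of_nonneg_left h5 (by linarith : 0 ≤ L)
    refine le_of_mul_le_mul_left ?_ (by linarith : 0 < L)
    nlinarith [sq_nonneg ‖-(r • Y.2)‖]
  refine ⟨q, q1, cl, hp ▸ mt, ?_⟩
  have h1 := hE z.1 (lg (z.1, q.1)) x1 (by linarith)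
  rw [N.had.ex] at h1
  have h2 := hg z.1 q.1 Y.1
  rw [B.symm, q3, g1, ru] at h2
  have h3 : E * ‖lg (z.1, q.1)‖ ^ 2 ≤ E * (2 * ε) ^ 2 := by gcongr
  have a1 := abs_real_inner_le_norm l (m.S z.1 (q.1 - z.1) - lg (z.1, q.1))
  have a2 := abs_real_inner_le_norm l (lg (z.1, q.1) - ε • l)
  have a3 := mul_le_of_le_one_left (norm_nonneg (m.S z.1 (q.1 - z.1) - lg (z.1, q.1))) l1
  have a4 := mul_le_of_le_one_left (norm_nonneg (lg (z.1, q.1) - ε • l)) l1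
  rw [inner_sub_right] at a1 a2
  rw [inner_smul_right, real_inner_self_eq_norm_sq] at a2
  linarith [(abs_le.1 a1).1, (abs_le.1 a2).1]

end KEEPx

open KEEPx in
theorem keep : SKEEP := by
  intro m lg Γ _ _ O b N B cv mv _ lin
  obtain ⟨K, hK, hc⟩ := N.act.cpt
  obtain ⟨R₀, hR₀⟩ := hK.isBounded.exists_norm_le
  obtain ⟨R, hR⟩ : ∃ R, R = max R₀ 1 := ⟨_, rfl⟩
  have R1 : 1 ≤ R := hR ▸ le_max_right _ _
  have mo : ∀ z : W, ‖z.2‖ = 1 → ∃ γ : Γ, ‖ac O γ z‖ ≤ R := fun z hz => by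
    obtain ⟨γ, hγ⟩ := hc z.1
    refine ⟨γ, ?_⟩
    rw [ac, Prod.norm_def, LinearIsometryEquiv.norm_map, hz, hR]
    exact max_le_max (hR₀ _ hγ) le_rfl
  obtain ⟨C₁, c1, h1⟩ := start N B cv R1
  obtain ⟨C₂, c2, h2⟩ := lin R
  obtain ⟨R', hR'⟩ := B.bdd R
  obtain ⟨C₃, c3, h3⟩ := B.euc (max R' R)
  obtain ⟨C₄, c4, h4⟩ := H38.bdd_ball N.ok.cS.continuous R
  refine ⟨16 * (C₁ + 48 * C₂) + 2, 1 / (32 * (C₄ * C₃ + 1)), by positivity, by positivity,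
    fun T T1 => ?_⟩
  obtain ⟨β, β0, h5⟩ := h2 (T + T) (1 / 48) (by omega) (by norm_num)
  have T1' : (1 : ℝ) ≤ T := by exact_mod_cast T1
  have eT : ((T + T : ℕ) : ℝ) = 2 * T := by
    push_cast
    ring
  suffices H : ∀ (z ξ : W) (ε : ℝ), ‖z‖ ≤ R → Fl m z ξ (2 * T) β → 0 < ε →
      (16 * (C₁ + 48 * C₂) + 2) * T ^ 2 * ε ≤ 1 → ∃ q : W, ‖q.2‖ = 1 ∧
        (∀ t ∈ Icc (0 : ℝ) (2 * T), df m lg z q t ≤ 2 * ε) ∧ df m lg z q (2 * T) = 0 ∧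
        1 / (32 * (C₄ * C₃ + 1)) * ε ≤ df m lg z q T by
    refine ⟨β, β0, fun z ξ ε f e0 e1 => ?_⟩
    obtain ⟨γ, hγ⟩ := mo (m.Z 0 z) (by rw [N.jac.norm, f.unit])
    obtain ⟨q, q1, q2, q3, q4⟩ := H _ _ ε hγ (flmov N f γ le_rfl (add_zero _).le) e0 e1
    have e : ac O γ (ac O γ⁻¹ q) = q := by
      unfold ac
      rw [← N.act.mul, mul_inv_cancel, N.act.one, smul_inv_smul]
    have d : ∀ t, df m lg (ac O γ (m.Z 0 z)) q t = df m lg z (ac O γ⁻¹ q) t := fun t => by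
      have := (mv γ 0 z 0).2.1 (ac O γ⁻¹ q) t
      rwa [Nat.cast_zero, add_zero, N.ok.zero (ac O γ⁻¹ q), e] at this
    simp only [d] at q2 q3 q4
    exact ⟨_, by rw [ac, LinearIsometryEquiv.norm_map, q1], q2, q3, q4⟩
  intro z ξ ε hz f e0 e1
  have T2 : (1 : ℝ) ≤ T ^ 2 := one_le_pow₀ T1'
  have t0 : 0 ≤ (T : ℝ) ^ 2 * ε := by positivity
  have t1 : ε ≤ T ^ 2 * ε := le_mul_of_one_le_left e0.le T2
  have e2 : ε ≤ 1 / 2 := by nlinarith [mul_nonneg c1 t0, mul_nonneg c2 t0]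
  have i0 : (0 : ℝ) ∈ Icc (0 : ℝ) (2 * T) := ⟨le_rfl, by positivity⟩
  have lo := f.low 0 i0
  have pp := f.perp 0
  rw [N.ok.zero] at pp
  obtain ⟨q, q1, q2, q3, q4⟩ := h1 z (m.J z ξ 0) (T + T) ε hz f.unit pp (f.upp 0 i0)
    (norm_pos_iff.1 (by linarith)) e0 e2 (by omega)
  have cl : Cl m lg 0 (2 * ε) (T + T) z q := ⟨f.unit, q1, fun j hj => by
    simpa using q2 j ⟨Nat.cast_nonneg j, by exact_mod_cast hj⟩, q3⟩
  have a1 := h5 (T + T) z ξ q (2 * ε) (by omega) le_rfl hz (eT ▸ f) (by positivity) (by linarith) cl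
  obtain ⟨γ, hγ⟩ := mo (m.Z T z) (by rw [N.jac.norm, f.unit])
  obtain ⟨-, m1, m2⟩ := mv γ T z ξ
  obtain ⟨m3, m4⟩ := m2 q _ T cl
  rw [zero_mul, neg_zero, exp_zero, mul_one] at m3
  have f' := flmov N f γ (S' := T) (Nat.cast_nonneg T) (two_mul _).ge
  have a2 := h5 T _ _ _ (2 * ε) T1 (by omega) hγ f' (by positivity) (by linarith) m3
  have m5 := m1 q 0
  rw [zero_add] at m5
  rw [m4] at a2
  rw [eT] at q2 q3 a1 a2
  have dT := q2 T ⟨by positivity, by linarith⟩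
  refine ⟨q, q1, q2, by rw [df, ← q3, B.self, norm_zero], ?_⟩
  have up := f'.upp 0 ⟨le_rfl, by positivity⟩
  generalize m.J (ac O γ (m.Z T z)) _ 0 = J at a2 up
  generalize ac O γ (m.Z T z) = z' at *
  generalize ac O γ (m.Z T q) = q' at *
  rw [df, N.ok.zero, N.ok.zero] at m5
  have x1 : ‖z'.1‖ ≤ R := (norm_fst_le z').trans hγ
  have b1 := (h3 z'.1 q'.1 (x1.trans (le_max_right _ _))
    ((hR' _ _ x1 (by linarith)).trans (le_max_left _ _))).1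
  have b2 : ‖m.hor z' (q' - z')‖ ≤ C₄ * ‖q'.1 - z'.1‖ := (m.S z'.1).le_of_opNorm_le (h4 _ x1) _
  have b3 := (real_inner_le_norm J (m.hor z' (q' - z'))).trans
    (mul_le_of_le_one_left (norm_nonneg _) up)
  have b4 := mul_le_mul_of_nonneg_left b1 c4
  rw [m5] at b4
  have d0 : 0 ≤ df m lg z q T := norm_nonneg _
  have b5 : ε * (1 / 2) ^ 2 ≤ ε * ‖m.J z ξ 0‖ ^ 2 := by gcongr
  have b6 : C₁ * ε * ε ≤ C₁ * (T ^ 2 * ε) * ε := by gcongr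
  have b7 := mul_le_mul_of_nonneg_right e1 e0.le
  have b8 := mul_nonneg t0 e0.le
  change _ ≤ ⟪_, m.hor z (q - z)⟫ at q4
  rw [one_div, inv_mul_le_iff₀ (by positivity)]
  nlinarith [(abs_le.1 a1).2, (abs_le.1 a2).1]

end Pool.Agent.MP_3ee8cb_gt.DNB3
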