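import Pool.Agent.MP_3ee8cb_gt.DNB3.Spec

/-! The offset of two vectors at one point, and the local product structure of the source. -/

namespace Pool.Agent.MP_3ee8cb_gt.DNB3

open DN (Dim dm)

variable [Dim]

open Set Filter Topology Real DN DNC0
open DNB2 (Fw Bw Bz)

set_option maxHeartbeats 200000

namespace KEYx

variable {m m' : MF} {lg lg' : W → V}

theorem fl1 (z : W) : (fl z).1 = z.1 := rfl

theorem fln (z : W) : ‖(fl z).2‖ = ‖z.2‖ := by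
  show ‖-z.2‖ = ‖z.2‖
  exact norm_neg _

theorem zfl (hj : m.Jac) (t : ℝ) (z : W) : (m.Z t (fl z)).1 = (m.Z (-t) z).1 := by
  have h := hj.scale t (-1) z.1 z.2
  have e : fl z = (z.1, (-1 : ℝ) • z.2) := by
    show (z.1, -z.2) = (z.1, (-1 : ℝ) • z.2)
    rw [neg_one_smul]
  rw [e, h, neg_one_mul]

theorem sym (hj : m.Jac) (hh : m.Had lg) (x y : V) : ‖lg (x, y)‖ = ‖lg (y, x)‖ := by
  rw [hh.rev y x, norm_neg, hj.norm]

theorem lg0 (ho : m.OK) (hj : m.Jac) (hh : m.Had lg) (x : V) : lg (x, x) = 0 := by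
  have h := hj.scale 1 0 x 0
  rw [zero_smul, zero_mul, ho.zero] at h
  have h2 := hh.xe x 0
  rw [h] at h2
  exact h2

theorem dsym (hj : m.Jac) (hh : m.Had lg) (p q : W) (t : ℝ) : df m lg p q t = df m lg q p t :=
  sym hj hh _ _

theorem dsh (ho : m.OK) (p q : W) (s t : ℝ) :
    df m lg (m.Z s p) (m.Z s q) t = df m lg p q (t + s) := by
  unfold df
  rw [ho.add, ho.add]

theorem fwfl (hj : m.Jac) {p q : W} (h : Bw m lg p q) : Fw m lg (fl p) (fl q) := by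
  have e : df m lg (fl p) (fl q) = fun t => df m lg p q (-t) := by
    funext t
    unfold df
    rw [zfl hj, zfl hj]
  unfold Fw
  rw [e]
  have h' : Tendsto (df m lg p q) atBot (𝓝 0) := h
  exact h'.comp tendsto_neg_atTop_atBot

/-- Uniform continuity at any time. -/
theorem ucs (ho : m.OK) (hj : m.Jac) (ho' : m'.OK) {φ ψ : W → W} (h : P1 m lg m' lg' φ ψ)
    (η : ℝ) (hη : 0 < η) : ∃ δ : ℝ, 0 < δ ∧ ∀ (p q : W) (s : ℝ), ‖p.2‖ = 1 → ‖q.2‖ = 1 →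
      (∀ t ∈ Icc (0 : ℝ) 1, df m lg p q (t + s) ≤ δ) → df m' lg' (φ p) (φ q) s ≤ η := by
  obtain ⟨δ, hδ, H⟩ := h.uc η hη
  refine ⟨δ, hδ, fun p q s hp hq hd => ?_⟩
  have := H (m.Z s p) (m.Z s q) (by rw [hj.norm, hp]) (by rw [hj.norm, hq])
    (fun t ht => by rw [dsh ho]; exact hd t ht)
  rw [h.flow s p hp, h.flow s q hq, dsh ho', zero_add] at this
  exact this

/-- Closeness at the times zero and one passes to the image. -/
theorem two (ho : m.OK) (hj : m.Jac) (ho' : m'.OK) (hu : Ug m lg) {φ ψ : W → W}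
    (h : P1 m lg m' lg' φ ψ) (η : ℝ) (hη : 0 < η) : ∃ δ : ℝ, 0 < δ ∧ ∀ p q : W, ‖p.2‖ = 1 →
      ‖q.2‖ = 1 → df m lg p q 0 ≤ δ → df m lg p q 1 ≤ δ →
        df m' lg' (φ p) (φ q) 0 ≤ η ∧ df m' lg' (φ p) (φ q) 1 ≤ η := by
  obtain ⟨δ₁, h1, H1⟩ := ucs ho hj ho' h η hη
  obtain ⟨δ₂, h2, H2⟩ := hu δ₁ h1
  refine ⟨δ₂, h2, fun p q hp hq d0 d1 => ?_⟩
  have H := H2 p q hp hq d0 d1
  exact ⟨H1 p q 0 hp hq fun t ht => H _ ⟨by linarith [ht.1], by linarith [ht.2]⟩,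
    H1 p q 1 hp hq fun t ht => H _ ⟨by linarith [ht.1], by linarith [ht.2]⟩⟩

end KEYx

open KEYx

theorem key : SKEY := by
  intro m lg β m' lg' β' a' φ ψ P η hη
  obtain ⟨δ₁, h1, H1⟩ := P.bz.uni (η / 2) (by linarith)
  obtain ⟨δ₂, h2, H2⟩ := two P.ok P.jac P.ok' P.ug P.p1 (min δ₁ (η / 2))
    (lt_min h1 (by linarith))
  refine ⟨δ₂, h2, fun x v v' hv hv' hd => ?_⟩
  have d0 : df m lg (x, v) (x, v') 0 ≤ δ₂ := by
    unfold df
    rw [P.ok.zero, P.ok.zero, lg0 P.ok P.jac P.had, norm_zero]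
    exact h2.le
  obtain ⟨e0, e1⟩ := H2 (x, v) (x, v') hv hv' d0 hd
  have hp := P.p1.unit (x, v) hv
  have hq := P.p1.unit (x, v') hv'
  obtain ⟨u, t₀, hu, hT, hb, hf⟩ := H1 (φ (x, v')) (φ (x, v)) hq hp
    (by rw [dsym P.jac' P.had']; exact e0.trans (min_le_left _ _))
    (by rw [dsym P.jac' P.had']; exact e1.trans (min_le_left _ _))
  have hzu : ‖(m'.Z t₀ u).2‖ = 1 := by rw [P.jac'.norm, hu]
  refine ⟨u.1, ?_, ?_⟩
  · have a1 := hT 0 le_rfl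
    have a2 := e0.trans (min_le_right _ _)
    unfold df at a1 a2
    rw [neg_zero, P.ok'.zero, P.ok'.zero, sym P.jac' P.had'] at a1
    rw [P.ok'.zero, P.ok'.zero] at a2
    have a3 := P.had'.tri (φ (x, v)).1 (φ (x, v')).1 u.1
    linarith
  · have b1 := P.bz.top _ _ hzu hp hf u.1
    have b2 := P.bz.shift u t₀ u.1 hu
    have b3 := P.bz.self u 0 hu
    have hfu : ‖(fl u).2‖ = 1 := by rw [fln, hu]
    have b4 := P.bz.top (fl u) (fl (φ (x, v'))) hfu (by rw [fln, hq]) (fwfl P.jac' hb) u.1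
    have b5 := P.bz.self (fl u) 0 hfu
    rw [P.ok'.zero] at b3 b5
    rw [fl1] at b5
    have hu0 := P.p2.unit u hu
    have c1 := P.p2.fw _ _ hzu hp hf
    have c2 := P.p2.bw _ _ hu hq hb
    rw [P.p2.flow t₀ u hu, P.p1.left (x, v) hv] at c1
    rw [P.p1.left (x, v') hv'] at c2
    have c3 := P.b0.top (m.Z t₀ (ψ u)) (x, v) (by rw [P.jac.norm, hu0]) hv c1 x
    have c4 := P.b0.shift (ψ u) t₀ x hu0
    have c5 := P.b0.self (x, v) 0 hv
    have hf' : ‖(fl (x, v')).2‖ = 1 := by rw [fln]; exact hv'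
    have c6 := P.b0.top (fl (ψ u)) (fl (x, v')) (by rw [fln, hu0]) hf' (fwfl P.jac c2) x
    have c7 := P.b0.self (fl (x, v')) 0 hf'
    have c8 := P.b0.opp (ψ u) x hu0
    rw [P.ok.zero] at c5 c7
    rw [fl1] at c7
    simp only [neg_zero] at b3 b5 c5 c7
    linarith

theorem uni : SUNI := by
  intro m lg β m' lg' β' a' φ ψ P
  refine ⟨P.b0.lim, P.b0.lip, P.b0.self, P.b0.shift, P.b0.top, P.b0.opp, fun z y _ => ?_, ?_⟩
  · simp
  intro η hη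
  obtain ⟨δ₁, h1, H1⟩ := P.ug η hη
  obtain ⟨δ₂, h2, H2⟩ := ucs P.ok' P.jac' P.ok P.p2 δ₁ h1
  obtain ⟨δ₃, h3, H3⟩ := P.bz.uni δ₂ h2
  obtain ⟨δ₄, h4, H4⟩ := two P.ok P.jac P.ok' P.ug P.p1 δ₃ h3
  refine ⟨δ₄, h4, fun q p hq hp d0 d1 => ?_⟩
  obtain ⟨e0, e1⟩ := H4 q p hq hp d0 d1
  have hP := P.p1.unit p hp
  have hQ := P.p1.unit q hq
  obtain ⟨u, t₀, hu, hT, hb, hf⟩ := H3 (φ q) (φ p) hQ hP e0 e1
  have hu0 := P.p2.unit u hu
  have hzu : ‖(m'.Z t₀ u).2‖ = 1 := by rw [P.jac'.norm, hu]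
  have c1 := P.p2.fw _ _ hzu hP hf
  have c2 := P.p2.bw _ _ hu hQ hb
  rw [P.p2.flow t₀ u hu, P.p1.left p hp] at c1
  rw [P.p1.left q hq] at c2
  refine ⟨ψ u, t₀, hu0, fun T h0 => ?_, c2, c1⟩
  have key : ∀ s : ℝ, s ≤ -1 → df m lg (ψ u) q s ≤ δ₁ := by
    intro s hs
    have := H2 u (φ q) s hu hQ fun t ht => by
      have e := hT (-(t + s)) (by linarith [ht.2])
      rwa [neg_neg] at e
    rwa [P.p1.left q hq] at this
  have := H1 (m.Z (-T - 2) (ψ u)) (m.Z (-T - 2) q) (by rw [P.jac.norm, hu0])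
    (by rw [P.jac.norm, hq]) (by rw [dsh P.ok]; exact key _ (by linarith))
    (by rw [dsh P.ok]; exact key _ (by linarith)) 2 ⟨by norm_num, by norm_num⟩
  rw [dsh P.ok] at this
  have e : (2 : ℝ) + (-T - 2) = -T := by ring
  rwa [e] at this

end Pool.Agent.MP_3ee8cb_gt.DNB3
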