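import Pool.Agent.MP_3ee8cb_gt.DNB3.Spec

/-! The quadratic lower bound for the sum of opposite Busemann functions. -/

namespace Pool.Agent.MP_3ee8cb_gt.DNB3

open DN (Dim dm)

variable [Dim]

open Set Filter Topology Real DN DNC0
open DNB2 (Fw Asy)
open scoped RealInnerProductSpace

noncomputable section

namespace LBQx

variable {m : MF} {lg : W → V} {β : W → V → ℝ}

theorem pt (jac : m.Jac) (t : ℝ) (y n : V) : (m.Z 1 (y, t • n)).1 = (m.Z t (y, n)).1 := by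
  rw [jac.scale, mul_one]

theorem hg (jac : m.Jac) (had : m.Had lg) (t : ℝ) (y n q : V) :
    ‖t • n - lg (y, q)‖ ≤ ‖lg ((m.Z t (y, n)).1, q)‖ := by
  have h := had.hinge y (t • n) (lg (y, q))
  rwa [had.ex, pt jac] at h

theorem hg2 (jac : m.Jac) (had : m.Had lg) (t : ℝ) (y n q : V) (hn : ‖n‖ = 1) :
    t ^ 2 - 2 * t * ⟪n, lg (y, q)⟫ + ‖lg (y, q)‖ ^ 2 ≤ ‖lg ((m.Z t (y, n)).1, q)‖ ^ 2 := by
  have h := pow_le_pow_left₀ (norm_nonneg _) (hg jac had t y n q) 2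
  rw [norm_sub_sq_real, norm_smul, hn, real_inner_smul_left, mul_one, Real.norm_eq_abs,
    sq_abs] at h
  linarith

theorem blow (jac : m.Jac) (had : m.Had lg) (sy : ∀ x y, ‖lg (x, y)‖ = ‖lg (y, x)‖)
    (b0 : B0 m lg β) (y n q : V) (hn : ‖n‖ = 1) : -⟪n, lg (y, q)⟫ ≤ β (y, n) q := by
  refine ge_of_tendsto' (b0.lim (y, n) q hn) fun T => ?_
  have e : nz (y, n) = (y, n) := by simp [nz, hn]
  have h := hg jac had T y n q
  have h2 := real_inner_le_norm n ((T : ℝ) • n - lg (y, q))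
  rw [inner_sub_right, real_inner_smul_right, real_inner_self_eq_norm_sq, hn] at h2
  simp only [bt, e]
  rw [sy]
  linarith

theorem bmid (ok : m.OK) (jac : m.Jac) (cvx : Cvx m lg) (b0 : B0 m lg β) (z w : W)
    (hz : ‖z.2‖ = 1) : β z (m.Z (1 / 2) w).1 ≤ (β z w.1 + β z (m.Z 1 w).1) / 2 := by
  refine le_of_tendsto_of_tendsto' (b0.lim z _ hz)
    (((b0.lim z w.1 hz).add (b0.lim z _ hz)).div_const 2) fun T => ?_
  have c : ∀ (t : ℝ) (p : V), (m.Z t (p, 0)).1 = p := fun t p => by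
    have := jac.scale t 0 p 0
    rw [zero_smul, zero_mul, ok.zero] at this
    rw [this]
  have h := (cvx w ((m.Z T (nz z)).1, 0)).2 (mem_univ 0) (mem_univ 1)
    (show (0 : ℝ) ≤ 1 / 2 by norm_num) (show (0 : ℝ) ≤ 1 / 2 by norm_num) (by norm_num)
  simp only [df, c, smul_eq_mul, mul_zero, mul_one, zero_add, ok.zero] at h
  simp only [bt]
  linarith

theorem lin (ok : m.OK) (cvx : Cvx m lg) (p q : W) {T s t : ℝ} (ht : t ∈ Ioo 0 T)
    (h : df m lg p q T ≤ ‖lg (p.1, q.1)‖ - T * s) :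
    df m lg p q t ^ 2 ≤ (‖lg (p.1, q.1)‖ - t * s) ^ 2 := by
  have hT : 0 < T := ht.1.trans ht.2
  have h1 : t / T ≤ 1 := (div_le_one hT).2 ht.2.le
  have h0 : 0 ≤ t / T := div_nonneg ht.1.le hT.le
  have c := (cvx p q).2 (mem_univ 0) (mem_univ T) (sub_nonneg.2 h1) h0 (by ring)
  have e : t / T * T = t := div_mul_cancel₀ _ hT.ne'
  have e0 : df m lg p q 0 = ‖lg (p.1, q.1)‖ := by simp only [df, ok.zero]
  simp only [smul_eq_mul, mul_zero, zero_add, e, e0] at c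
  have h2 := mul_le_mul_of_nonneg_left h h0
  have e2 : t / T * (‖lg (p.1, q.1)‖ - T * s) = t / T * ‖lg (p.1, q.1)‖ - t * s := by
    rw [mul_sub, ← mul_assoc, e]
  have h3 : df m lg p q t ≤ ‖lg (p.1, q.1)‖ - t * s := by
    rw [sub_mul, one_mul] at c
    linarith
  exact pow_le_pow_left₀ (norm_nonneg _) h3 2

theorem ang (ok : m.OK) (jac : m.Jac) (had : m.Had lg) (sy : ∀ x y, ‖lg (x, y)‖ = ‖lg (y, x)‖)
    (cvx : Cvx m lg) (y x v n n' : V) (hv : ‖v‖ = 1) (hn : ‖n‖ = 1) (hn' : ‖n'‖ = 1) {T s : ℝ}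
    (hT : 0 < T) (h1 : df m lg (y, n) (x, v) T ≤ ‖lg (y, x)‖ - T * s)
    (h2 : df m lg (y, n') (x, -v) T ≤ ‖lg (y, x)‖ - T * s) :
    2 * ‖lg (y, x)‖ * s ≤ ⟪n, lg (y, x)⟫ + ⟪n', lg (y, x)⟫ := by
  have cl := had.c1.continuous
  have cz : ∀ z : W, Continuous fun t : ℝ => m.Z t z := fun z =>
    ok.cZ.continuous.comp (continuous_id.prodMk continuous_const)
  have cg : Continuous fun t : ℝ => ⟪n, lg (y, (m.Z t (x, v)).1)⟫ +
      ⟪n', lg (y, (m.Z t (x, -v)).1)⟫ + t * s ^ 2 :=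
    ((continuous_const.inner (cl.comp (continuous_const.prodMk (cz _).fst))).add
      (continuous_const.inner (cl.comp (continuous_const.prodMk (cz _).fst)))).add
      (continuous_id.mul continuous_const)
  have lim := (cg.tendsto 0).mono_left (nhdsWithin_le_nhds (s := Ioi 0))
  simp only [ok.zero, zero_mul, add_zero] at lim
  refine ge_of_tendsto lim (mem_of_superset (Ioo_mem_nhdsGT hT) fun t ht => ?_)
  have a1 := lin ok cvx _ _ ht h1
  have a2 := lin ok cvx _ _ ht h2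
  have b1 := hg2 jac had t y n (m.Z t (x, v)).1 hn
  have b2 := hg2 jac had t y n' (m.Z t (x, -v)).1 hn'
  have c1 := hg2 jac had t x v y hv
  have c2 := hg2 jac had t x (-v) y (by rw [norm_neg, hv])
  rw [inner_neg_left] at c2
  rw [sy (m.Z t (x, v)).1, sy x] at c1
  rw [sy (m.Z t (x, -v)).1, sy x] at c2
  simp only [df] at a1 a2
  refine le_of_mul_le_mul_left ?_ ht.1
  nlinarith [sq_nonneg t]

theorem side {Γ : Type} [Group Γ] [MulAction Γ V] {a C : ℝ} (ok : m.OK) (jac : m.Jac)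
    (had : m.Had lg) (bs : Bs m lg Γ) (b0 : B0 m lg β) (as : Asy m lg a β) (hC : 0 ≤ C)
    (dec : ∀ z u : W, ‖z.2‖ = 1 → ‖u.2‖ = 1 → Fw m lg u z → df m lg z u 0 ≤ 1 → ∀ t, 0 ≤ t →
      df m lg z u t ≤ C * df m lg z u 0 * exp (-(a * t)))
    (z : W) (y : V) (hz : ‖z.2‖ = 1) (hy : ‖lg (y, z.1)‖ ≤ 1 / 2) : ∃ n : V, ‖n‖ = 1 ∧
      (∀ q, β z y - ⟪n, lg (y, q)⟫ ≤ β z q) ∧ ∀ t, 0 ≤ t →
        df m lg (y, n) z t ≤ |β z y| + C * (2 * ‖lg (y, z.1)‖) * exp (-(a * t)) := by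
  obtain ⟨u, hu, fw, e⟩ := as.ex z y hz
  have hn : ‖(m.Z (-β z y) u).2‖ = 1 := by rw [jac.norm, hu]
  have ep : (y, (m.Z (-β z y) u).2) = m.Z (-β z y) u := Prod.ext e.symm rfl
  refine ⟨_, hn, fun q => ?_, fun t ht => ?_⟩
  · have h := blow jac had bs.symm b0 y _ q hn
    rw [ep, b0.shift u _ q hu, b0.top u z hu hz fw] at h
    linarith
  · have z0 : β z z.1 = 0 := by simpa only [ok.zero, neg_zero] using b0.self z 0 hz
    have l1 := b0.lip z y z.1 hz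
    have l2 := b0.lip z z.1 y hz
    rw [bs.symm] at l2
    have ab : |β z y| ≤ ‖lg (y, z.1)‖ := abs_le.2 ⟨by linarith, by linarith⟩
    have g0 := bs.geo u (-β z y) 0
    rw [e, ok.zero, hu, sub_zero, abs_neg, mul_one] at g0
    have d0 : df m lg z u 0 ≤ 2 * ‖lg (y, z.1)‖ := by
      have := had.tri z.1 y u.1
      rw [bs.symm z.1 y] at this
      simp only [df, ok.zero]
      linarith
    have d1 := dec z u hz hu fw (by linarith) t ht
    have d2 : C * df m lg z u 0 * exp (-(a * t)) ≤ C * (2 * ‖lg (y, z.1)‖) * exp (-(a * t)) := by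
      gcongr
    have g1 := bs.geo u (t + -β z y) t
    rw [hu, add_sub_cancel_left, abs_neg, mul_one] at g1
    have tr := had.tri (m.Z (t + -β z y) u).1 (m.Z t u).1 (m.Z t z).1
    rw [bs.symm (m.Z t u).1] at tr
    rw [ep]
    simp only [df] at d1 d2 ⊢
    rw [← ok.add]
    linarith

end LBQx

open LBQx in
theorem lbq : SLBQ := by
  intro m lg Γ _ _ O a b N β bs cvx b0 as
  have ok := N.ok
  have jac := N.jac
  have had := N.had
  obtain ⟨C, hC, dec⟩ := as.dec 1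
  obtain ⟨T, T1, hT⟩ : ∃ T : ℝ, 1 ≤ T ∧ C * exp (-(a * T)) ≤ 1 / 16 := by
    have a0 := N.a0
    refine ⟨1 + 16 * C / a, le_add_of_nonneg_right (by positivity), ?_⟩
    have h := add_one_le_exp (a * (1 + 16 * C / a))
    have e : a * (1 + 16 * C / a) = a + 16 * C := by field_simp
    rw [exp_neg, ← div_eq_mul_inv, div_le_div_iff₀ (exp_pos _) (by norm_num)]
    linarith
  have T0 : 0 < T := by linarith
  refine ⟨1 / T, by positivity, fun z y hz hb hr => ?_⟩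
  obtain ⟨x, v⟩ := z
  have ef : fl (x, v) = (x, -v) := by simp [fl]
  have hv : ‖v‖ = 1 := hz
  have hv' : ‖((x, -v) : W).2‖ = 1 := by rw [norm_neg, hv]
  rw [ef] at hb
  obtain ⟨w, hw⟩ : ∃ w, w = m.Z (1 / 2) (x, lg (x, y)) := ⟨_, rfl⟩
  have nw : ‖w.2‖ = ‖lg (x, y)‖ := by rw [hw, jac.norm]
  have ey : lg (w.1, y) = (1 / 2 : ℝ) • w.2 := by
    rw [← had.xe w.1 ((1 / 2 : ℝ) • w.2), pt jac, Prod.mk.eta, hw, ← ok.add, add_halves, had.ex]
  have ex : lg (w.1, x) = (-(1 / 2) : ℝ) • w.2 := by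
    rw [← had.xe w.1 ((-(1 / 2) : ℝ) • w.2), pt jac, Prod.mk.eta, hw, ← ok.add, neg_add_cancel,
      ok.zero]
  have nx : ‖lg (w.1, x)‖ = ‖lg (x, y)‖ / 2 := by
    rw [ex, norm_smul, nw, norm_neg, Real.norm_of_nonneg (by norm_num)]
    ring
  have m1 := bmid ok jac cvx b0 (x, v) (x, lg (x, y)) hz
  have m2 := bmid ok jac cvx b0 (x, -v) (x, lg (x, y)) hv'
  have s1 := b0.self (x, v) 0 hz
  have s2 := b0.self (x, -v) 0 hv'
  have o1 := b0.opp (x, v) w.1 hz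
  have o2 := b0.opp (x, v) y hz
  rw [ef] at o1 o2
  rw [ok.zero, neg_zero] at s1 s2
  rw [← hw, had.ex] at m1 m2
  dsimp only at m1 m2 s1 s2 hr ⊢
  obtain ⟨n, hn, p1, q1⟩ := side ok jac had bs b0 as hC dec (x, v) w.1 hz (by rw [nx]; linarith)
  obtain ⟨n', hn', p2, q2⟩ := side ok jac had bs b0 as hC dec (x, -v) w.1 hv'
    (by rw [nx]; linarith)
  have t1 : |β (x, v) w.1| ≤ β (x, v) y / 2 := abs_le.2 ⟨by linarith, by linarith⟩
  have t2 : |β (x, -v) w.1| ≤ β (x, v) y / 2 := abs_le.2 ⟨by linarith, by linarith⟩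
  have r0 := norm_nonneg (lg (x, y))
  have k : C * (2 * ‖lg (w.1, x)‖) * exp (-(a * T)) ≤ ‖lg (x, y)‖ / 16 := by
    rw [nx]
    nlinarith [mul_le_mul_of_nonneg_left hT r0]
  obtain ⟨s, hs⟩ : ∃ s, T * s = 7 * ‖lg (x, y)‖ / 16 - β (x, v) y / 2 :=
    ⟨_, mul_div_cancel₀ _ T0.ne'⟩
  have g := ang ok jac had bs.symm cvx w.1 x v n n' hv hn hn' T0 (s := s)
    (by have := q1 T T0.le; dsimp only at this; linarith)
    (by have := q2 T T0.le; dsimp only at this; linarith)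
  have p3 := p1 y
  have p4 := p2 y
  rw [nx] at g
  rw [ex, real_inner_smul_right, real_inner_smul_right] at g
  rw [ey, real_inner_smul_right] at p3 p4
  have f : ‖lg (x, y)‖ * s ≤ 2 * β (x, v) y := by linarith
  have f2 := mul_le_mul_of_nonneg_left f T0.le
  have f3 : T * (‖lg (x, y)‖ * s) = ‖lg (x, y)‖ * (7 * ‖lg (x, y)‖ / 16 - β (x, v) y / 2) := by
    rw [← hs]
    ring
  have B0' : 0 ≤ β (x, v) y := by linarith
  rw [one_div, inv_mul_le_iff₀ T0]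
  nlinarith [mul_le_mul_of_nonneg_left hr B0', mul_le_mul_of_nonneg_left T1 B0']

end

end Pool.Agent.MP_3ee8cb_gt.DNB3
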