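import Pool.Agent.MP_3ee8cb_gt.DNB3.Spec
import Pool.Agent.MP_3ee8cb_gt.DNB2.RTst
import Pool.Agent.MP_3ee8cb_gt.DNC0.RJf
import Pool.Agent.MP_3ee8cb_gt.DNC0.RMov

/-! The offset of a converging geodesic is linear. -/

namespace Pool.Agent.MP_3ee8cb_gt.DNB3

open DN (Dim dm)

variable [Dim]

open Set Filter Topology Real DN DNC0
open scoped RealInnerProductSpace

namespace LIN0x

variable {m : MF} {lg : W → V}

theorem nn_le {b : ℝ} (b0 : 0 < b) (z ξ : W) :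
    nn m b z ξ ≤ b * ‖m.hor z ξ‖ + ‖m.ver z ξ‖ :=
  Real.sqrt_le_iff.2 ⟨by positivity, by
    nlinarith [mul_nonneg (mul_nonneg b0.le (norm_nonneg (m.hor z ξ))) (norm_nonneg (m.ver z ξ))]⟩

theorem back (ok : m.OK) (z : W) (s : ℝ) (u : V) : ∃ ζ : W, m.J z ζ s = 0 ∧ m.J' z ζ s = u := by
  have e : m.Z (-s) (m.Z s z) = z := by rw [← ok.add, neg_add_cancel, ok.zero]
  have h := RMov.chain2 ok s (-s) (m.Z s z) (0, u)
  rw [e, add_neg_cancel, H38.z_zero ok] at h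
  refine ⟨fderiv ℝ (m.Z (-s)) (m.Z s z) (0, u), ?_, ?_⟩
  · rw [MF.J, h]
    simp [MF.hor]
  · rw [MF.J', h]
    simp [MF.ver]

theorem off {Γ : Type} [Group Γ] [MulAction Γ V] (ok : m.OK) (bs : Bs m lg Γ) (R : ℝ) :
    ∃ D : ℝ, 0 ≤ D ∧ ∀ (S : ℕ) (z q : W) (ε : ℝ), 1 ≤ S → ‖z‖ ≤ R → 0 ≤ ε → ε ≤ 1 →
      Cl m lg 0 ε S z q → ‖m.hor z (q - z)‖ ≤ D * ε ∧ ‖m.ver z (q - z)‖ ≤ D * ε := by
  obtain ⟨R', hR'⟩ := bs.bdd (max R 1)
  obtain ⟨Cd, d0, hd⟩ := bs.del (max (max R 1) R')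
  obtain ⟨Co, o0, ho⟩ := RJf.omb ok one_pos R
  refine ⟨Co * (Cd * 2), by positivity, fun S z q ε S1 hz e0 e1 cl => ?_⟩
  have l0 : df m lg z q 0 ≤ ε := by simpa using cl.le 0 (Nat.zero_le _)
  have l1 : df m lg z q 1 ≤ ε := by simpa using cl.le 1 S1
  have l2 : ‖lg (z.1, q.1)‖ ≤ ε := by simpa only [df, ok.zero] using l0
  have q1 : ‖q.1‖ ≤ R' := hR' z.1 q.1 ((norm_fst_le z).trans (hz.trans (le_max_left _ _)))
    (l2.trans (e1.trans (le_max_right _ _)))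
  have hq : ‖q‖ ≤ max (max R 1) R' := by
    rw [Prod.norm_def, cl.nq]
    exact max_le (q1.trans (le_max_right _ _)) ((le_max_right _ _).trans (le_max_left _ _))
  have h1 := hd z q (hz.trans ((le_max_left _ _).trans (le_max_left _ _))) hq
  have h2 : ‖q - z‖ ≤ Cd * 2 * ε := h1.trans (by nlinarith)
  have h3 : nn m 1 z (q - z) ≤ Co * (Cd * 2) * ε := by
    refine (ho z (q - z) 0 hz).2.trans ?_
    rw [mul_assoc]
    exact mul_le_mul_of_nonneg_left h2 o0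
  refine ⟨?_, (DNB2.RTst.ver_le 1 _ _).trans h3⟩
  have := DNB2.RTst.hor_le (m := m) one_pos z (q - z)
  rw [inv_one, one_mul] at this
  exact this.trans h3

omit [Dim] in
theorem fin {Ct b S T ε μ D κ e jv jh j'h hv h'h : ℝ} (t0 : 0 ≤ Ct) (b0 : 0 < b) (S0 : 0 ≤ S)
    (ST : S ≤ T) (e0 : 0 ≤ ε) (m0 : 0 < μ) (m2 : μ * (2 * D + 1) ≤ κ)
    (A1 : |e - (jv - j'h)| ≤ Ct * S * (b + 1) * ε ^ 2)
    (A2 : |hv - h'h| ≤ Ct * S * (T * (2 * b + 3)) * ε ^ 2)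
    (c1 : |hv - (0 - S) * jv| ≤ μ * (D * ε))
    (c2 : |h'h - jh - (0 - S) * j'h| ≤ μ * (D * ε)) :
    |jh + S * e| ≤ κ * ε + Ct * (3 * b + 4) * T ^ 2 * ε ^ 2 := by
  have T0 := S0.trans ST
  have B1 : |S * (e - (jv - j'h))| ≤ T * (Ct * S * (b + 1) * ε ^ 2) := by
    rw [abs_mul, abs_of_nonneg S0]
    exact mul_le_mul ST A1 (abs_nonneg _) T0
  have p0 : 0 ≤ Ct * T * ε ^ 2 := by positivity
  have B2 := mul_le_mul_of_nonneg_left ST (mul_nonneg p0 (by positivity : 0 ≤ b + 1))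
  have B3 := mul_le_mul_of_nonneg_left ST (mul_nonneg p0 (by positivity : 0 ≤ 2 * b + 3))
  have B4 := mul_le_mul_of_nonneg_right m2 e0
  have B5 := mul_nonneg m0.le e0
  have a1 := abs_le.1 B1
  have a2 := abs_le.1 A2
  have a3 := abs_le.1 c1
  have a4 := abs_le.1 c2
  rw [abs_le]
  constructor <;> linarith [a1.1, a1.2, a2.1, a2.2, a3.1, a3.2, a4.1, a4.2]

end LIN0x

open LIN0x in
theorem lin0 : SLIN0 := by
  intro m lg Γ _ _ O b nw bs tel gron R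
  have ok := nw.ok
  have b0 := nw.b0
  obtain ⟨Ct, t0, ht⟩ := tel R
  obtain ⟨Cg, g0, hg⟩ := gron
  obtain ⟨D, D0, hD⟩ := off ok bs R
  refine ⟨Ct * (3 * b + 4), by positivity, fun T κ T1 k0 => ?_⟩
  have T1' : (1 : ℝ) ≤ T := by exact_mod_cast T1
  obtain ⟨μ, hμ⟩ : ∃ μ : ℝ, μ = min (1 / (T : ℝ)) (κ / (2 * D + 1)) := ⟨_, rfl⟩
  have m0 : 0 < μ := by rw [hμ]; positivity
  have m1 : T * μ ≤ 1 := by
    have : μ ≤ 1 / T := hμ ▸ min_le_left _ _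
    rwa [le_div_iff₀ (by positivity), mul_comm] at this
  have m2 : μ * (2 * D + 1) ≤ κ := by
    have : μ ≤ κ / (2 * D + 1) := hμ ▸ min_le_right _ _
    rwa [le_div_iff₀ (by positivity)] at this
  have m3 : μ ≤ 1 := (le_mul_of_one_le_left m0.le T1').trans m1
  refine ⟨μ * exp (-(Cg * T)), by positivity, fun S z ξ q ε S1 ST hz f e0 e1 cl => ?_⟩
  obtain ⟨β, hβ⟩ : ∃ β : ℝ, β = μ * exp (-(Cg * T)) := ⟨_, rfl⟩
  rw [← hβ] at f
  have β0 : 0 ≤ β := by rw [hβ]; positivity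
  have ST' : (S : ℝ) ≤ T := by exact_mod_cast ST
  have S0 : (0 : ℝ) ≤ S := Nat.cast_nonneg S
  have β1 : β * exp (Cg * S) ≤ μ := by
    rw [hβ, mul_assoc, ← exp_add]
    refine mul_le_of_le_one_right m0.le (exp_le_one_iff.2 ?_)
    linarith only [mul_le_mul_of_nonneg_left ST' g0]
  have β2 : β ≤ μ := by
    refine le_trans ?_ β1
    exact le_mul_of_one_le_right β0 (one_le_exp (by positivity))
  obtain ⟨ζ, z1, z2⟩ := back ok z S (m.J z ξ S)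
  have G := hg z ξ ζ S β f.unit β0 f.der z1 z2
  have mem : ∀ k : ℕ, k ≤ S → (k : ℝ) ∈ Icc (0 : ℝ) S := fun k hk =>
    ⟨Nat.cast_nonneg k, by exact_mod_cast hk⟩
  have A1 := ht S z q ξ ε (b + 1) hz e0 e1 (by positivity) cl fun k hk => by
    refine (nn_le b0 _ _).trans ?_
    have u1 : ‖m.J z ξ k‖ ≤ 1 := f.upp k (mem k hk)
    have u2 : ‖m.J' z ξ k‖ ≤ β := f.der k (mem k hk)
    change b * ‖m.J z ξ k‖ + ‖m.J' z ξ k‖ ≤ _
    linarith only [mul_le_mul_of_nonneg_left u1 b0.le, u2, β2, m3]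
  have A2 := ht S z q ζ ε (T * (2 * b + 3)) hz e0 e1 (by positivity) cl fun k hk => by
    refine (nn_le b0 _ _).trans ?_
    have u1 : ‖m.J z ξ k‖ ≤ 1 := f.upp k (mem k hk)
    have u2 : ‖m.J' z ξ k‖ ≤ β := f.der k (mem k hk)
    obtain ⟨g1, g2⟩ := G k (mem k hk)
    have ak : |(k : ℝ) - S| ≤ T := by
      have := mem k hk
      rw [abs_le]
      constructor <;> linarith only [this.1, this.2, ST']
    have n1 : ‖((k : ℝ) - S) • m.J z ξ k‖ ≤ T := by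
      rw [norm_smul, Real.norm_eq_abs]
      exact (mul_le_mul ak u1 (norm_nonneg _) (by positivity)).trans (by rw [mul_one])
    have n2 : ‖((k : ℝ) - S) • m.J' z ξ k‖ ≤ 1 := by
      rw [norm_smul, Real.norm_eq_abs]
      exact (mul_le_mul ak (u2.trans β2) (norm_nonneg _) (by positivity)).trans m1
    have v1 : ‖m.J z ζ k‖ ≤ 2 * T := by
      have := norm_le_insert' (m.J z ζ k) (((k : ℝ) - S) • m.J z ξ k)
      linarith only [this, n1, g1, β1, m3, T1']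
    have v2 : ‖m.J' z ζ k‖ ≤ 3 := by
      have a1 := norm_le_insert' (m.J' z ζ k - m.J z ξ k) (((k : ℝ) - S) • m.J' z ξ k)
      have a2 := norm_le_insert' (m.J' z ζ k) (m.J z ξ k)
      linarith only [a1, a2, n2, g2, β1, m3, u1]
    change b * ‖m.J z ζ k‖ + ‖m.J' z ζ k‖ ≤ _
    linarith only [mul_le_mul_of_nonneg_left v1 b0.le, v2, T1']
  have en0 : en m S z ζ q = 0 := by rw [en, z1, inner_zero_left]
  rw [en0, zero_sub, abs_neg] at A2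
  obtain ⟨g1, g2⟩ := G 0 ⟨le_rfl, S0⟩
  obtain ⟨hh, hv⟩ := hD S z q ε S1 hz e0 e1 cl
  have c1 := (abs_real_inner_le_norm _ (m.ver z (q - z))).trans
    (mul_le_mul (g1.trans β1) hv (norm_nonneg _) m0.le)
  have c2 := (abs_real_inner_le_norm _ (m.hor z (q - z))).trans
    (mul_le_mul (g2.trans β1) hh (norm_nonneg _) m0.le)
  simp only [inner_sub_left, real_inner_smul_left, RJf.J0 ok, RJf.J'0 ok] at c1 c2
  rw [RJf.J0 ok]
  unfold om at A1 A2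
  exact fin t0 b0 S0 ST' e0 m0 m2 A1 A2 c1 c2

end Pool.Agent.MP_3ee8cb_gt.DNB3
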