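import Pool.Agent.MP_3ee8cb_gt.DNB3.Spec

/-! Doubling in a fixed time gives exponential growth of Jacobi fields. -/

namespace Pool.Agent.MP_3ee8cb_gt.DNB3

open DN (Dim dm)

variable [Dim]

open Set Real DN
open scoped RealInnerProductSpace

namespace LTHx

theorem dh {m : MF} (ok : m.OK) (jac : m.Jac) (z ξ : V × V) (t : ℝ) :
    HasDerivAt (fun s => ⟪m.J z ξ s, m.J' z ξ s⟫)
      (‖m.J' z ξ t‖ ^ 2 - ⟪m.K (m.Z t z).1 (m.J z ξ t) (m.Z t z).2 (m.Z t z).2, m.J z ξ t⟫) t := by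
  have h := (jac.d1 z ξ t).inner ℝ (jac.d2 z ξ t)
  have sk : ⟪m.w z t (m.J z ξ t), m.J' z ξ t⟫ = -⟪m.J z ξ t, m.w z t (m.J' z ξ t)⟫ :=
    ok.skew _ _ _ _
  refine h.congr_deriv ?_
  rw [inner_sub_right, inner_sub_left, inner_neg_right, sk, real_inner_self_eq_norm_sq,
    real_inner_comm (m.J z ξ t) (m.K _ _ _ _)]
  ring

theorem dn {m : MF} (ok : m.OK) (jac : m.Jac) (z ξ : V × V) (t : ℝ) :
    HasDerivAt (fun s => ⟪m.J z ξ s, m.J z ξ s⟫) (2 * ⟪m.J z ξ t, m.J' z ξ t⟫) t := by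
  have h := (jac.d1 z ξ t).inner ℝ (jac.d1 z ξ t)
  have sk : ⟪m.w z t (m.J z ξ t), m.J z ξ t⟫ = -⟪m.J z ξ t, m.w z t (m.J z ξ t)⟫ :=
    ok.skew _ _ _ _
  refine h.congr_deriv ?_
  rw [inner_sub_right, inner_sub_left, sk, real_inner_comm (m.J z ξ t) (m.J' z ξ t)]
  ring

theorem j0 {m : MF} (ok : m.OK) (y u e : V) : m.J (y, u) (0, e) 0 = 0 := by
  have : m.Z 0 = id := funext ok.zero
  simp [MF.J, this, MF.hor]

theorem mono {m : MF} (ok : m.OK) (jac : m.Jac) (up : m.Up 0) (y u e : V) {s t : ℝ}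
    (hs : 0 ≤ s) (hst : s ≤ t) : ‖m.J (y, u) (0, e) s‖ ≤ ‖m.J (y, u) (0, e) t‖ := by
  have h1 : Monotone fun s => ⟪m.J (y, u) (0, e) s, m.J' (y, u) (0, e) s⟫ := by
    refine monotone_of_deriv_nonneg (fun t => (dh ok jac _ _ t).differentiableAt) fun t => ?_
    rw [(dh ok jac _ _ t).deriv]
    have := up (m.Z t (y, u)).1 (m.J (y, u) (0, e) t) (m.Z t (y, u)).2
    have h2 := sq_nonneg ‖m.J' (y, u) (0, e) t‖
    linarith
  have h2 : ∀ r, 0 ≤ r → 0 ≤ ⟪m.J (y, u) (0, e) r, m.J' (y, u) (0, e) r⟫ := fun r hr => by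
    have := h1 hr
    simpa [j0 ok] using this
  have h3 : MonotoneOn (fun s => ⟪m.J (y, u) (0, e) s, m.J (y, u) (0, e) s⟫) (Ici 0) := by
    refine monotoneOn_of_deriv_nonneg (convex_Ici 0)
      (fun t _ => (dn ok jac _ _ t).continuousAt.continuousWithinAt)
      (fun t _ => (dn ok jac _ _ t).differentiableAt.differentiableWithinAt) fun t ht => ?_
    rw [(dn ok jac _ _ t).deriv]
    have := h2 t (interior_subset ht)
    linarith
  have h4 := h3 (show s ∈ Ici 0 from hs) (show t ∈ Ici 0 from hs.trans hst) hst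
  simp only [real_inner_self_eq_norm_sq] at h4
  exact le_of_sq_le_sq h4 (norm_nonneg _)

end LTHx

open LTHx in
theorem lth : SLTH := by
  intro m lg Γ _ _ O b N ⟨T, hT, hH⟩
  have l2 : 0 < log 2 := log_pos one_lt_two
  refine ⟨min b (log 2 / T), lt_min N.b0 (div_pos l2 hT), min_le_left _ _, ?_⟩
  intro y u e s t hu he hs hst
  have it : ∀ k : ℕ, 2 ^ k * ‖m.J (y, u) (0, e) s‖ ≤ ‖m.J (y, u) (0, e) (s + k * T)‖ := by
    intro k
    induction k with
    | zero => simp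
    | succ k ih =>
      have hk : (0 : ℝ) ≤ k * T := by positivity
      have h := hH y u e (s + (k + 1 : ℕ) * T) hu he (by push_cast; nlinarith)
      have e1 : s + ((k + 1 : ℕ) : ℝ) * T - T = s + k * T := by push_cast; ring
      rw [e1] at h
      rw [pow_succ]
      linarith
  set k := ⌊(t - s) / T⌋₊ with hk
  have q0 : 0 ≤ (t - s) / T := div_nonneg (sub_nonneg.2 hst) hT.le
  have k1 : (k : ℝ) * T ≤ t - s := (le_div_iff₀ hT).1 (Nat.floor_le q0)
  have k2 : (t - s) / T < k + 1 := Nat.lt_floor_add_one _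
  have hkT : (0 : ℝ) ≤ k * T := by positivity
  have m1 := (it k).trans (mono N.ok N.jac N.up y u e (s := s + k * T) (t := t) (by linarith)
    (by linarith))
  have a1 : min b (log 2 / T) * (t - s) ≤ (k + 1 : ℕ) * log 2 := by
    have : min b (log 2 / T) * (t - s) ≤ log 2 / T * (t - s) :=
      mul_le_mul_of_nonneg_right (min_le_right _ _) (sub_nonneg.2 hst)
    have e2 : log 2 / T * (t - s) = (t - s) / T * log 2 := by ring
    push_cast
    nlinarith
  have a2 : exp (min b (log 2 / T) * (t - s)) ≤ 2 ^ (k + 1) := by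
    have := exp_le_exp.2 a1
    rwa [exp_nat_mul, exp_log two_pos] at this
  have p := exp_pos (min b (log 2 / T) * (t - s))
  rw [exp_neg, mul_assoc, mul_comm _⁻¹, ← div_eq_mul_inv, ← mul_div_assoc, le_div_iff₀ p]
  have n0 := norm_nonneg (m.J (y, u) (0, e) s)
  have := mul_le_mul_of_nonneg_left a2 n0
  rw [pow_succ] at this
  linarith

end Pool.Agent.MP_3ee8cb_gt.DNB3
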