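import Pool.Agent.MP_3ee8cb_gt.DNB3.Spec

/-! There are no long almost parallel Jacobi fields. -/

namespace Pool.Agent.MP_3ee8cb_gt.DNB3

open DN (Dim dm)

variable [Dim]

open Set Filter Topology Real DN DNC0

namespace NOFLx

omit [Dim] in
theorem big (c C e : ℝ) (hc : 0 < c) (he : 0 < e) :
    ∃ T : ℕ, 2 ≤ T ∧ C * (T : ℝ) ^ 3 * exp (-(c * T)) < e := by
  have h1 : Tendsto (fun T : ℕ => c * (T : ℝ)) atTop atTop :=
    tendsto_natCast_atTop_atTop.const_mul_atTop hc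
  have h2 := ((tendsto_pow_mul_exp_neg_atTop_nhds_zero 3).comp h1).const_mul (C / c ^ 3)
  rw [mul_zero] at h2
  obtain ⟨T, h3, h4⟩ := ((eventually_ge_atTop 2).and (h2.eventually_lt_const he)).exists
  refine ⟨T, h3, lt_of_eq_of_lt ?_ h4⟩
  simp only [Function.comp]
  field_simp

theorem flip {m : MF} {lg : W → V} {Γ : Type} [Group Γ] [MulAction Γ V] (ok : m.OK)
    (bs : Bs m lg Γ) (p q : W) (T t : ℝ) :
    df m lg (fl (m.Z T p)) (fl (m.Z T q)) t = df m lg p q (T - t) := by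
  rw [df, df, bs.flip, bs.flip, ← ok.add, ← ok.add, neg_add_eq_sub]
  rfl

end NOFLx

theorem nofl : SNOFL := by
  intro m lg Γ _ _ O b h bs cvx ⟨C, c, hC, hc, hK⟩ ⟨l, c', C', hl, hc', _, hS⟩
  have he : 0 < min (l / 2) C⁻¹ := lt_min (half_pos hl) (inv_pos.2 hC)
  obtain ⟨T, hT, hb⟩ := NOFLx.big c' C' _ hc' (mul_pos hc he)
  have hT2 : (2 : ℝ) ≤ T := by exact_mod_cast hT
  have hT0 : (0 : ℝ) < T := by linarith
  obtain ⟨β, hβ, hK⟩ := hK T (by omega)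
  refine ⟨2 * T, β, by positivity, hβ, fun z ξ hF => ?_⟩
  set e := min (l / 2) C⁻¹ with hedef
  have e1 : e ≤ l / 2 := min_le_left _ _
  have e2 : C * e ≤ 1 := by
    have := mul_le_mul_of_nonneg_left (min_le_right (l / 2) C⁻¹) hC.le
    rwa [mul_inv_cancel₀ hC.ne'] at this
  have hsq : (1 : ℝ) ≤ (T : ℝ) ^ 2 := by nlinarith
  obtain ⟨q, hq, h1, h2, h3⟩ := hK z ξ (e / T ^ 2) hF (by positivity) (by
    rw [show C * (T : ℝ) ^ 2 * (e / T ^ 2) = C * e by field_simp]; exact e2)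
  have hle : e / (T : ℝ) ^ 2 ≤ e := div_le_self he.le hsq
  have hn : ∀ w : W, ‖w.2‖ = 1 → ‖(fl (m.Z T w)).2‖ = 1 := fun w hw => by
    have : (fl (m.Z T w)).2 = -(m.Z T w).2 := rfl
    rw [this, norm_neg, h.jac.norm, hw]
  have h4 := hS _ _ T (hn z hF.unit) (hn q hq) hT2 fun t ht => by
    rw [NOFLx.flip h.ok bs]
    have := h1 (T - t) ⟨by linarith [ht.2], by linarith [ht.1]⟩
    linarith
  rw [NOFLx.flip h.ok bs, NOFLx.flip h.ok bs, sub_zero] at h4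
  have h5 := (cvx z q).2 (mem_univ ((T : ℝ) - 1)) (mem_univ (2 * (T : ℝ)))
    (show 0 ≤ (T : ℝ) / (T + 1) by positivity) (show 0 ≤ 1 / ((T : ℝ) + 1) by positivity)
    (by field_simp)
  rw [h2, smul_eq_mul, smul_eq_mul, smul_eq_mul, smul_eq_mul, mul_zero, add_zero,
    show (T : ℝ) / (T + 1) * (T - 1) + 1 / (T + 1) * (2 * T) = T by field_simp; ring,
    div_mul_eq_mul_div, le_div_iff₀ (by positivity)] at h5
  have h6 : df m lg z q T ≤ T * (C' * exp (-(c' * T))) := by nlinarith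
  have h7 := mul_le_mul_of_nonneg_right (h3.trans h6) (show 0 ≤ (T : ℝ) ^ 2 by positivity)
  rw [show c * (e / (T : ℝ) ^ 2) * T ^ 2 = c * e by field_simp] at h7
  nlinarith

end Pool.Agent.MP_3ee8cb_gt.DNB3
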