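import Pool.Agent.MP_3ee8cb_gt.DNB3.Spec

/-! Row SL: geodesics that stay close have an exponentially small slope. -/

namespace Pool.Agent.MP_3ee8cb_gt.DNB3

open DN (Dim dm)

variable [Dim]

open Set Filter Topology Real DN DNC0
open scoped RealInnerProductSpace ContDiff

noncomputable section

namespace SLx

theorem lipb {A B : Type} [NormedAddCommGroup A] [NormedSpace ℝ A] [FiniteDimensional ℝ A]
    [NormedAddCommGroup B] [NormedSpace ℝ B] {f : A → B} (hf : ContDiff ℝ 1 f) (R : ℝ) :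
    ∃ C, 0 ≤ C ∧ ∀ p q : A, ‖p‖ ≤ R → ‖q‖ ≤ R → ‖f q - f p‖ ≤ C * ‖q - p‖ := by
  have := FiniteDimensional.proper_real A
  obtain ⟨K, hK⟩ := (hf.locallyLipschitz.locallyLipschitzOn
    (s := Metric.closedBall (0 : A) R)).exists_lipschitzOnWith_of_compact
      (isCompact_closedBall _ _)
  refine ⟨K, K.2, fun p q hp hq => ?_⟩
  have := hK.dist_le_mul q (by simpa using hq) p (by simpa using hp)
  simpa only [dist_eq_norm] using this

variable {m : MF} {lg : W → V} {Γ : Type} [Group Γ] [MulAction Γ V]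
  {O : Γ → V → V ≃ₗᵢ[ℝ] V} {b : ℝ}

theorem one (h : N0 m lg Γ O b) (bs : Bs m lg Γ) : ∃ C, 0 ≤ C ∧ ∀ x w q : V, ‖w‖ = 1 → ‖q‖ = 1 →
    df m lg (x, w) (x, q) 1 ≤ C * ‖w - q‖ := by
  obtain ⟨K, hK, hx⟩ := h.act.cpt
  obtain ⟨R, hR⟩ := hK.isBounded.exists_norm_le
  have hZ : ContDiff ℝ 1 (m.Z 1) :=
    h.ok.cZ.comp ((contDiff_const (c := (1 : ℝ))).prodMk contDiff_id)
  have hf : ContDiff ℝ 1 fun u : W × W => lg ((m.Z 1 u.1).1, (m.Z 1 u.2).1) :=
    h.had.c1.comp (((hZ.comp contDiff_fst).fst).prodMk ((hZ.comp contDiff_snd).fst))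
  obtain ⟨C, hC, hL⟩ := lipb hf (max R 1)
  refine ⟨C, hC, fun x w q hw hq => ?_⟩
  obtain ⟨γ, hγ⟩ := hx x
  have e : df m lg (x, w) (x, q) 1 = df m lg (γ • x, O γ x w) (γ • x, O γ x q) 1 := by
    unfold df
    have h1 := h.act.flow γ 1 (x, w)
    have h2 := h.act.flow γ 1 (x, q)
    simp only at h1 h2
    rw [h1, h2, bs.eqv]
  have n1 : ∀ u : V, ‖u‖ = 1 → ‖((γ • x, O γ x u) : W)‖ ≤ max R 1 := fun u hu => by
    rw [Prod.norm_def]
    exact max_le_max (hR _ hγ) (by simp [hu])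
  have := hL ((γ • x, O γ x w), (γ • x, O γ x w)) ((γ • x, O γ x w), (γ • x, O γ x q))
    (by rw [Prod.norm_def]; exact max_le (n1 w hw) (n1 w hw))
    (by rw [Prod.norm_def]; exact max_le (n1 w hw) (n1 q hq))
  rw [e]
  unfold df
  simp only [bs.self, sub_zero] at this
  refine this.trans (le_of_eq ?_)
  congr 1
  simp only [Prod.mk_sub_mk, sub_self, Prod.norm_def, norm_zero, ← map_sub,
    LinearIsometryEquiv.norm_map]
  rw [norm_sub_rev, max_eq_right (norm_nonneg _), max_eq_right (norm_nonneg _)]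

end SLx

theorem sl : SSL := by
  intro m lg Γ _ _ O b h bs cvx ang
  obtain ⟨l, c, C, hl, hc, hC, hA⟩ := ang
  obtain ⟨D, hD, hO⟩ := SLx.one h bs
  refine ⟨min (l / 2) 1, c, D * C, by positivity, hc, by positivity, fun p q T hp hq hT hd => ?_⟩
  have T0 : (0 : ℝ) ≤ T := by linarith
  have d0 : df m lg p q 0 = ‖lg (p.1, q.1)‖ := by unfold df; rw [h.ok.zero, h.ok.zero]
  have d1 : df m lg p q 0 ≤ min (l / 2) 1 := hd 0 ⟨le_rfl, T0⟩
  have d2 : df m lg p q 0 ≤ 1 := d1.trans (min_le_right _ _)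
  have d3 : df m lg p q 0 ≤ l / 2 := d1.trans (min_le_left _ _)
  set y := (m.Z T p).1 with hy
  set v := lg (q.1, y) with hv
  set L := ‖v‖ with hL
  have g1 : ‖lg (p.1, y)‖ = T := by
    have := bs.geo p 0 T
    rw [h.ok.zero, hp, mul_one, zero_sub, abs_neg, abs_of_nonneg T0] at this
    exact this
  have t1 : L ≤ df m lg p q 0 + T := by
    have := h.had.tri q.1 p.1 y
    rw [bs.symm q.1 p.1, g1, ← d0] at this
    exact this
  have t2 : T ≤ df m lg p q 0 + L := by
    have := h.had.tri p.1 q.1 y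
    rw [g1, ← d0] at this
    exact this
  have L0 : 0 < L := by linarith
  set w : V := L⁻¹ • v with hw
  have w1 : ‖w‖ = 1 := by
    rw [hw, norm_smul, norm_inv, Real.norm_eq_abs, abs_of_pos L0, ← hL, inv_mul_cancel₀ L0.ne']
  have wv : L • w = v := by rw [hw, smul_smul, mul_inv_cancel₀ L0.ne', one_smul]
  have wy : (m.Z L (q.1, w)).1 = y := by
    have h1 := h.jac.scale 1 L q.1 w
    have h2 := h.had.ex q.1 y
    rw [← hv, ← wv, h1, mul_one] at h2
    exact h2
  have a0 : df m lg (q.1, w) p 0 = df m lg p q 0 := by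
    rw [d0]; unfold df; rw [h.ok.zero, h.ok.zero, bs.symm]
  have aT : df m lg (q.1, w) p T ≤ df m lg p q 0 := by
    have := bs.geo (q.1, w) T L
    rw [wy] at this
    have e : df m lg (q.1, w) p T = |T - L| := by
      unfold df; rw [← hy, this]; simp [w1]
    rw [e, abs_le]; constructor <;> linarith
  have aa : ∀ t ∈ Icc (0 : ℝ) T, df m lg (q.1, w) p t ≤ df m lg p q 0 := fun t ht => by
    have := (cvx (q.1, w) p).le_max_of_mem_Icc (mem_univ 0) (mem_univ T) ht
    exact this.trans (max_le a0.le aT)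
  have tr : ∀ (u : W) (t : ℝ), df m lg u q t ≤ df m lg u p t + df m lg p q t := fun u t =>
    h.had.tri _ _ _
  have hq' : ((q.1, q.2) : W) = q := rfl
  have key := hA q.1 w q.2 T w1 hq hT fun t ht => by
    rw [hq']
    have h1 := tr (q.1, w) t
    have h2 := aa t ht
    have h3 := (hd t ht).trans (min_le_left _ _)
    linarith
  have f1 := hO q.1 w q.2 w1 hq
  rw [hq'] at f1
  have f2 : df m lg p q 1 ≤ df m lg p (q.1, w) 1 + df m lg (q.1, w) q 1 := h.had.tri _ _ _
  have f3 : df m lg p (q.1, w) 1 = df m lg (q.1, w) p 1 := bs.symm _ _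
  have f4 := aa 1 ⟨zero_le_one, by linarith⟩
  have f5 := mul_le_mul_of_nonneg_left key hD
  rw [← mul_assoc] at f5
  linarith

end

end Pool.Agent.MP_3ee8cb_gt.DNB3
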