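import Pool.Agent.MP_3ee8cb_gt.DNB3.Spec
import Pool.Agent.MP_3ee8cb_gt.DNC0.H38Step
import Pool.Agent.MP_3ee8cb_gt.DNC0.RMov

/-! The telescoped estimate for a bounded Jacobi field. -/

namespace Pool.Agent.MP_3ee8cb_gt.DNB3

open DN (Dim dm)

variable [Dim]

open Set Filter Topology Real DN DNC0
open scoped RealInnerProductSpace

theorem tel0 : STEL0 := by
  intro m lg Γ _ _ O b nw bs st mv R
  have ok := nw.ok
  have act := nw.act
  obtain ⟨K, hK, hK'⟩ := act.cpt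
  obtain ⟨R₀, hR₀⟩ := hK.isBounded.exists_norm_le
  set R₁ := max R (max R₀ 1) with hR₁
  obtain ⟨R₂, hR₂⟩ := bs.bdd (max R₁ 1)
  obtain ⟨c, c0, hc⟩ := st (max R₁ R₂)
  obtain ⟨d, d0, hd⟩ := bs.del (max R₁ R₂)
  set C := c * (2 * d) ^ 2 with hC
  have C0 : 0 ≤ C := by positivity
  refine ⟨C, C0, fun T => ?_⟩
  suffices h : ∀ (z q ξ : W) (ε B : ℝ), ‖z‖ ≤ R₁ → 0 ≤ ε → ε ≤ 1 → 0 ≤ B → Cl m lg 0 ε T z q →
      (∀ k : ℕ, k ≤ T → nn m b (m.Z k z) (fderiv ℝ (m.Z k) z ξ) ≤ B) →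
      |en m T z ξ q - om m z ξ (q - z)| ≤ C * T * B * ε ^ 2 from
    fun z q ξ ε B hz => h z q ξ ε B (le_max_of_le_left hz)
  induction T with
  | zero =>
    intro z q ξ ε B _ _ _ _ cl _
    have h1 := cl.meet
    simp only [Nat.cast_zero, ok.zero] at h1
    have e : q - z = (0, q.2 - z.2) := Prod.ext (by simp [h1]) rfl
    have : en m 0 z ξ q = om m z ξ (q - z) := by
      rw [e]
      simp [en, om, MF.J, ok.zero, H38.z_zero ok, MF.hor, MF.ver, -map_sub]
    rw [this, sub_self, abs_zero]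
    simp
  | succ T ih =>
    intro z q ξ ε B hz ε0 εA B0 cl hB
    obtain ⟨γ, hγ⟩ := hK' (m.Z 1 z).1
    obtain ⟨-, -, m3⟩ := mv γ 1 z ξ
    obtain ⟨m4, m5⟩ := m3 q ε T cl
    simp only [Nat.cast_one, neg_zero, Real.exp_zero, mul_one] at m4 m5
    have hγ' : ‖γ • (m.Z 1 z).1‖ ≤ R₁ := le_max_of_le_right (le_max_of_le_left (hR₀ _ hγ))
    have n1 : ‖ac O γ (m.Z 1 z)‖ ≤ R₁ := by
      rw [Prod.norm_def]
      refine max_le hγ' ?_
      rw [m4.nz]
      exact le_max_of_le_right (le_max_right _ _)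
    have l0 : df m lg z q 0 ≤ ε := by simpa using cl.le 0 (Nat.zero_le _)
    have l1 : df m lg z q 1 ≤ ε := by simpa using cl.le 1 (Nat.le_add_left 1 T)
    have hq : ‖q‖ ≤ max R₁ R₂ := by
      rw [Prod.norm_def]
      refine max_le (le_max_of_le_right (hR₂ z.1 q.1
        (le_max_of_le_left ((norm_fst_le z).trans hz)) (le_max_of_le_right ?_))) ?_
      · have := l0.trans εA
        simpa only [df, ok.zero] using this
      · rw [cl.nq]
        exact le_max_of_le_left (le_max_of_le_right (le_max_right _ _))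
    have hB' : ∀ k : ℕ, k ≤ T → nn m b (m.Z k (ac O γ (m.Z 1 z)))
        (fderiv ℝ (m.Z k) (ac O γ (m.Z 1 z))
          (fderiv ℝ (ac O γ) (m.Z 1 z) (fderiv ℝ (m.Z 1) z ξ))) ≤ B := by
      intro k hk
      have h1 := hB (k + 1) (Nat.succ_le_succ hk)
      have h2 := (mv γ (k + 1) z ξ).1
      push_cast at h1 h2
      rw [RMov.chain1 ok act, RMov.chain2 ok, RMov.fl_ac act, ← ok.add, h2]
      exact h1
    have i1 := ih _ _ _ _ B n1 ε0 εA B0 m4 hB'
    rw [m5] at i1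
    have i2 := hc γ z q ξ (le_max_of_le_left hz) hq (le_max_of_le_left hγ')
    have i3 := hB 1 (Nat.le_add_left 1 T)
    rw [Nat.cast_one] at i3
    have i4 : ‖q - z‖ ≤ 2 * d * ε := by
      have := hd z q (le_max_of_le_left hz) hq
      have h2 := mul_le_mul_of_nonneg_left (add_le_add l0 l1) d0
      linarith
    have i5 : ‖q - z‖ ^ 2 ≤ (2 * d * ε) ^ 2 := by gcongr
    have j2 := i2.trans (mul_le_mul (mul_le_mul_of_nonneg_left i3 c0) i5 (sq_nonneg _)
      (by positivity))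
    calc _ ≤ _ := abs_sub_le _ _ _
      _ ≤ _ := add_le_add i1 j2
      _ = _ := by
        rw [hC]
        push_cast
        ring

end Pool.Agent.MP_3ee8cb_gt.DNB3
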