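import Pool.Agent.MP_3ee8cb_gt.DNB3.Spec
import Pool.Agent.MP_3ee8cb_gt.DNB2.H23Kit
import Pool.Agent.MP_3ee8cb_gt.DNC0.RJf

/-! From the growth of Jacobi fields to the divergence of geodesics from one point. -/

namespace Pool.Agent.MP_3ee8cb_gt.DNB3

open DN (Dim dm)

variable [Dim]

open Set Filter Topology Real DN DNC0
open scoped RealInnerProductSpace

namespace THINx

variable {m : MF} {lg : W → V}

theorem ray (jac : m.Jac) (had : m.Had lg) (y u : V) (r : ℝ) :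
    lg (y, (m.Z r (y, u)).1) = r • u := by
  have h := had.xe y (r • u)
  rwa [jac.scale, mul_one] at h

/-- The chain rule for a moving time and a moving vector. -/
theorem chain (ok : m.OK) {r : ℝ → ℝ} {z : ℝ → W} {r' s : ℝ} {ξ : W} (hr : HasDerivAt r r' s)
    (hz : HasDerivAt z ξ s) : HasDerivAt (fun s => m.Z (r s) (z s))
      (r' • m.vf (m.Z (r s) (z s)) + fderiv ℝ (m.Z (r s)) (z s) ξ) s := by
  have hL := (ok.cZ.differentiable one_ne_zero (r s, z s)).hasFDerivAt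
  set L := fderiv ℝ (fun q : ℝ × W => m.Z q.1 q.2) (r s, z s)
  have h0 := HasFDerivAt.comp_hasDerivAt (f := fun t : ℝ => (t, z s)) (r s) hL
    ((hasDerivAt_id (r s)).prodMk (hasDerivAt_const (r s) (z s)))
  have h1 : HasDerivAt (fun t => m.Z t (z s)) (L (1, 0)) (r s) := h0
  have h2 : HasFDerivAt (m.Z (r s)) (L.comp (ContinuousLinearMap.inr ℝ ℝ W)) (z s) :=
    hL.comp (z s) (hasFDerivAt_prodMk_right (r s) (z s))
  have h4 := HasFDerivAt.comp_hasDerivAt (f := fun t : ℝ => (r t, z t)) s hL (hr.prodMk hz)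
  have h3 : HasDerivAt (fun s => m.Z (r s) (z s)) (L (r', ξ)) s := h4
  refine h3.congr_deriv ?_
  rw [← h1.unique (ok.ode (z s) (r s)), h2.fderiv, ← map_smul, ContinuousLinearMap.comp_apply,
    ← map_add]
  simp

/-- The angular part of the velocity of a curve. -/
theorem ang (ok : m.OK) (jac : m.Jac) (had : m.Had lg) (y : V) {σ : ℝ → V} {σ' : V} {s : ℝ}
    (hσ : HasDerivAt σ σ' s) (h0 : lg (y, σ s) ≠ 0) : ∃ e : V,
      HasDerivAt (fun s => nz (y, lg (y, σ s))) (0, e) s ∧ ⟪e, (nz (y, lg (y, σ s))).2⟫ = 0 ∧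
      ‖m.J (nz (y, lg (y, σ s))) (0, e) ‖lg (y, σ s)‖‖ ≤ ‖m.S (σ s) σ'‖ := by
  have hg := (had.c1.differentiable one_ne_zero (y, σ s)).hasFDerivAt.comp_hasDerivAt s
    ((hasDerivAt_const s y).prodMk hσ)
  set g' := fderiv ℝ lg (y, σ s) (0, σ')
  have hg' : HasDerivAt (fun s => lg (y, σ s)) g' s := hg
  have hr := (RDer.d_norm h0).comp_hasDerivAt s hg'
  have hn := (RDer.d_nz (z := (y, lg (y, σ s))) h0).1.hasFDerivAt.comp_hasDerivAt s
    ((hasDerivAt_const s y).prodMk hg')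
  rw [(RDer.d_nz (z := (y, lg (y, σ s))) h0).2] at hn
  have p0 : ‖lg (y, σ s)‖ ≠ 0 := norm_ne_zero_iff.2 h0
  set e := ‖lg (y, σ s)‖⁻¹ • g' - (‖lg (y, σ s)‖⁻¹ ^ 3 * ⟪lg (y, σ s), g'⟫) • lg (y, σ s)
    with he
  have hn' : HasDerivAt (fun s => nz (y, lg (y, σ s))) (0, e) s := hn
  have pe : ⟪e, (nz (y, lg (y, σ s))).2⟫ = 0 := by
    change ⟪e, ‖lg (y, σ s)‖⁻¹ • lg (y, σ s)⟫ = 0
    rw [he, real_inner_smul_right, inner_sub_left, real_inner_smul_left, real_inner_smul_left,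
      real_inner_self_eq_norm_sq, real_inner_comm]
    field_simp
    ring
  refine ⟨e, hn', pe, ?_⟩
  have id1 : ∀ x : V, lg (y, x) ≠ 0 → (m.Z ‖lg (y, x)‖ (nz (y, lg (y, x)))).1 = x := by
    intro x hx
    have h := had.ex y x
    have h2 : lg (y, x) = ‖lg (y, x)‖ • ‖lg (y, x)‖⁻¹ • lg (y, x) := by
      rw [smul_smul, mul_inv_cancel₀ (norm_ne_zero_iff.2 hx), one_smul]
    rw [h2, jac.scale, mul_one] at h
    exact h
  have c1 := (chain ok (r := fun s => ‖lg (y, σ s)‖) hr hn').fst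
  have c2 : HasDerivAt (fun s => (m.Z ‖lg (y, σ s)‖ (nz (y, lg (y, σ s)))).1) σ' s := by
    refine hσ.congr_of_eventuallyEq ?_
    filter_upwards [hg'.continuousAt.eventually_ne h0] with t ht using id1 _ ht
  have c3 := congrArg (m.S (σ s)) (c2.unique c1)
  set z := nz (y, lg (y, σ s))
  set r := ‖lg (y, σ s)‖
  have c4 : (m.Z r z).1 = σ s := id1 _ h0
  have c5 : ⟪m.J z (0, e) r, (m.Z r z).2⟫ = 0 := by
    rw [RJf.al ok jac z (0, e) r (by rw [RJf.tan ok]; exact pe)]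
    simp [MF.hor]
  have c6 : m.J z (0, e) r = m.S (σ s) (fderiv ℝ (m.Z r) z (0, e)).1 := by
    rw [← c4]
    rfl
  have c7 : m.S (σ s) (m.vf (m.Z r z)).1 = (m.Z r z).2 := by
    rw [← c4]
    exact ok.SR _ _
  rw [Prod.fst_add, Prod.smul_fst, map_add, map_smul, c7, ← c6] at c3
  rw [c3]
  refine le_of_sq_le_sq ?_ (norm_nonneg _)
  rw [norm_add_sq_real, real_inner_smul_left, real_inner_comm, c5]
  nlinarith [sq_nonneg ‖((‖lg (y, σ s)‖⁻¹ • innerSL ℝ (lg (y, σ s))) g') • (m.Z r z).2‖]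

end THINx

theorem thin : STHIN := by
  intro m lg Γ _ _ O b w a a0 bs cv lt A
  have ok := w.ok
  have jac := w.jac
  have had := w.had
  have e1 : 1 ≤ exp (a * |A|) := one_le_exp (by positivity)
  refine ⟨2 * exp (a * |A|), by linarith, fun y u u' hu hu' R T T0 TR hA => ?_⟩
  set d := df m lg (y, u) (y, u') R with hd
  have d0 : 0 ≤ d := norm_nonneg _
  rcases le_or_gt T A with hT | hT
  · have h1 := (cv (y, u) (y, u')).le_max_of_mem_Icc (mem_univ 0) (mem_univ R)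
      (z := R - T) ⟨by linarith, by linarith⟩
    have h2 : df m lg (y, u) (y, u') 0 = 0 := by
      rw [df, ok.zero, ok.zero, bs.self, norm_zero]
    rw [h2, max_eq_right d0] at h1
    have h3 : 1 ≤ exp (a * |A|) * exp (-(a * T)) := by
      rw [← exp_add]
      exact one_le_exp (by nlinarith [le_abs_self A])
    nlinarith
  set p := (m.Z R (y, u)).1 with hp
  set q := (m.Z R (y, u')).1 with hq
  set σ : ℝ → V := fun s => (m.Z s (p, lg (p, q))).1 with hσ
  have R0 : 0 < R := by linarith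
  have low : ∀ s ∈ Icc (0 : ℝ) 1, R - A ≤ ‖lg (y, σ s)‖ := fun s hs => by
    have h1 := had.tri y (σ s) p
    have h2 := bs.geo (p, lg (p, q)) s 0
    rw [ok.zero, sub_zero, abs_of_nonneg hs.1] at h2
    have h3 : ‖lg (y, p)‖ = R := by
      rw [hp, THINx.ray jac had, norm_smul, hu, mul_one, Real.norm_of_nonneg R0.le]
    have h4 : ‖lg (σ s, p)‖ = s * d := h2
    nlinarith [hs.1, hs.2]
  have key : ∀ s ∈ Icc (0 : ℝ) 1, ∃ c' : V,
      HasDerivAt (fun s => (m.Z (R - T) (nz (y, lg (y, σ s)))).1) c' s ∧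
      ‖m.S (m.Z (R - T) (nz (y, lg (y, σ s)))).1 c'‖ ≤ 2 * exp (a * |A|) * exp (-(a * T)) * d := by
    intro s hs
    have l1 := low s hs
    have h0 : lg (y, σ s) ≠ 0 := norm_pos_iff.1 (by linarith)
    obtain ⟨e, h1, h2, h3⟩ := THINx.ang ok jac had y (σ := σ) (ok.ode (p, lg (p, q)) s).fst h0
    have h4 : ‖m.S (σ s) (m.vf (m.Z s (p, lg (p, q)))).1‖ = d := by
      have : m.S (σ s) (m.vf (m.Z s (p, lg (p, q)))).1 = (m.Z s (p, lg (p, q))).2 := ok.SR _ _
      rw [this, jac.norm]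
      rfl
    rw [h4] at h3
    refine ⟨_, ((H38.z_diff ok (R - T) _).hasFDerivAt.comp_hasDerivAt s h1).fst, ?_⟩
    have h5 := lt y (nz (y, lg (y, σ s))).2 e (R - T) ‖lg (y, σ s)‖
      (RDer.unit (z := (y, lg (y, σ s))) h0) h2 (by linarith) (by linarith)
    have h6 : exp (-(a * (‖lg (y, σ s)‖ - (R - T)))) ≤ exp (a * |A|) * exp (-(a * T)) := by
      rw [← exp_add]
      exact exp_le_exp.2 (by nlinarith [le_abs_self A])
    refine h5.trans ?_
    have h7 := mul_le_mul h6 h3 (norm_nonneg _) (by positivity)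
    change 2 * exp _ * ‖m.J (nz (y, lg (y, σ s))) (0, e) ‖lg (y, σ s)‖‖ ≤ _
    linarith
  choose! c' hc using key
  have h := DNB2.H23.len_le had bs hc (right_mem_Icc.2 zero_le_one)
  have n0 : ∀ v : V, ‖v‖ = 1 → nz (y, lg (y, (m.Z R (y, v)).1)) = (y, v) := fun v hv => by
    rw [THINx.ray jac had, nz]
    simp only [norm_smul, hv, mul_one, Real.norm_of_nonneg R0.le, smul_smul,
      inv_mul_cancel₀ R0.ne', one_smul]
  have s0 : σ 0 = p := by simp only [hσ, ok.zero]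
  have s1 : σ 1 = q := had.ex p q
  rw [s0, s1, hp, hq, n0 u hu, n0 u' hu', bs.symm] at h
  exact h

end Pool.Agent.MP_3ee8cb_gt.DNB3
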