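import Pool.Agent.MP_3ee8cb_gt.DNB3.Spec

/-! Busemann functions of geodesics that stay close differ by a constant. -/

namespace Pool.Agent.MP_3ee8cb_gt.DNB3

open DN (Dim dm)

variable [Dim]

open Set Real DN DNC0

namespace YCx

theorem nz_unit {z : W} (h : ‖z.2‖ = 1) : nz z = z := by simp [nz, h]

theorem abs_le {m : MF} {lg : W → V} {a : ℝ} {β : W → V → ℝ} (ho : m.OK)
    (sy : ∀ x y, ‖lg (x, y)‖ = ‖lg (y, x)‖) (bz : DNB2.Bz m lg a β) {z : W} (h : ‖z.2‖ = 1)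
    (y : V) : |β z y| ≤ ‖lg (z.1, y)‖ := by
  have e := bz.self z 0 h
  have l1 := bz.lip z y z.1 h
  have l2 := bz.lip z z.1 y h
  rw [ho.zero] at e
  rw [sy] at l1
  exact _root_.abs_le.2 ⟨by linarith, by linarith⟩

end YCx

theorem yc : SYC := by
  intro m lg Γ _ _ O a b h β bs jf seg bz tr
  obtain ⟨C₁, c1, th⟩ := jf.thin (1 / 4)
  obtain ⟨C₂, c2, seg⟩ := seg (1 / 8) (by norm_num)
  obtain ⟨C₃, c3, tr⟩ := tr
  have a0 := h.a0
  refine ⟨a / 2, (C₁ + C₂ + 2 * C₃ + 2) * exp (2 * a), by positivity, by positivity,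
    fun p q T hp hq T1 cl => ?_⟩
  obtain ⟨E, hE⟩ : ∃ E, E = exp (-(a * (T / 2 - 2))) := ⟨_, rfl⟩
  have eE : (C₁ + C₂ + 2 * C₃ + 2) * exp (2 * a) * exp (-(a / 2 * T)) =
      (C₁ + C₂ + 2 * C₃ + 2) * E := by
    rw [hE, mul_assoc, ← exp_add]
    congr 2
    ring
  have E0 : 0 < E := hE ▸ exp_pos _
  have le : ∀ s, T / 2 - 2 ≤ s → exp (-(a * s)) ≤ E := fun s hs =>
    hE ▸ exp_le_exp.2 (neg_le_neg (mul_le_mul_of_nonneg_left hs a0.le))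
  have d0 : ‖lg (p.1, q.1)‖ ≤ 1 / 8 := by
    simpa only [df, h.ok.zero] using cl 0 ⟨le_rfl, by linarith⟩
  rw [eE]
  by_cases T4 : T < 4
  · refine ⟨0, fun y hy => ?_⟩
    have e1 := le 0 (by linarith)
    rw [mul_zero, neg_zero, exp_zero] at e1
    have b1 := YCx.abs_le h.ok bs.symm bz hp y
    have b2 := YCx.abs_le h.ok bs.symm bz hq y
    have b3 := h.had.tri p.1 q.1 y
    have b4 := abs_sub (β p y) (β q y)
    rw [sub_zero]
    nlinarith [mul_nonneg (show 0 ≤ C₁ + C₂ + 2 * C₃ by linarith) E0.le]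
  obtain ⟨N, N1, N2⟩ : ∃ N : ℕ, (N : ℝ) ≤ T ∧ T < N + 1 :=
    ⟨⌊T⌋₊, Nat.floor_le (by linarith), Nat.lt_floor_add_one T⟩
  have N4 : 4 ≤ N := by
    have : (3 : ℝ) < N := by linarith
    exact_mod_cast this
  obtain ⟨K, K1, K2⟩ : ∃ K : ℕ, 2 * K ≤ N ∧ N ≤ 2 * K + 1 := ⟨N / 2, by omega, by omega⟩
  have K3 : 2 ≤ K := by omega
  have k1 : 2 * (K : ℝ) ≤ N := by exact_mod_cast K1
  have k2 : (N : ℝ) ≤ 2 * K + 1 := by exact_mod_cast K2
  have k3 : (2 : ℝ) ≤ K := by exact_mod_cast K3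
  obtain ⟨ne, s1, s2, -⟩ := seg p q.1 N hp d0 (by linarith)
  obtain ⟨τ, hτ⟩ : ∃ τ, τ = ‖lg (q.1, (m.Z N p).1)‖ - N := ⟨_, rfl⟩
  obtain ⟨n, hn⟩ : ∃ n, n = ‖lg (q.1, (m.Z N p).1)‖⁻¹ • lg (q.1, (m.Z N p).1) := ⟨_, rfl⟩
  have n1 : ‖n‖ = 1 := hn ▸ norm_smul_inv_norm ne
  have es : sg m lg N p q.1 = m.Z τ (q.1, n) := by rw [hτ, hn]; rfl
  have dN : ‖lg ((m.Z N p).1, (m.Z N q).1)‖ ≤ 1 / 8 := cl N ⟨by linarith, N1⟩
  have gN := bs.geo q 0 N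
  rw [h.ok.zero, hq, mul_one, zero_sub, abs_neg, abs_of_nonneg (by linarith)] at gN
  have tb : |τ| ≤ 1 / 8 := by
    have t1 := h.had.tri q.1 (m.Z N p).1 (m.Z N q).1
    have t2 := h.had.tri q.1 (m.Z N q).1 (m.Z N p).1
    rw [bs.symm (m.Z N q).1] at t2
    exact abs_le.2 ⟨by linarith, by linarith⟩
  obtain ⟨t1, t2⟩ := abs_le.1 tb
  have f1 : df m lg (q.1, q.2) (q.1, n) N ≤ 1 / 4 := by
    have g := bs.geo (q.1, n) (N + τ) N
    rw [h.ok.add, ← es, ← s1.meet, add_sub_cancel_left, n1, mul_one] at g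
    have t := h.had.tri (m.Z N q).1 (m.Z N p).1 (m.Z N (q.1, n)).1
    rw [bs.symm (m.Z N q).1 (m.Z N p).1] at t
    change ‖lg ((m.Z N q).1, (m.Z N (q.1, n)).1)‖ ≤ _
    linarith
  have f2 : ‖lg ((m.Z K q).1, (m.Z K (q.1, n)).1)‖ ≤ C₁ * E := by
    have := th q.1 q.2 n hq n1 N (N - K) (by linarith) (by linarith) f1
    rw [sub_sub_cancel] at this
    refine this.trans ?_
    refine (mul_le_mul_of_nonneg_left (f1.trans (by norm_num : (1 : ℝ) / 4 ≤ 1))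
      (by positivity)).trans ?_
    rw [mul_one]
    exact mul_le_mul_of_nonneg_left (le _ (by linarith)) (by linarith)
  have f3 : ‖lg ((m.Z (K - τ) p).1, (m.Z K (q.1, n)).1)‖ ≤ C₂ * E := by
    have := s2 (K - τ) ⟨by linarith, by linarith⟩
    rw [df, es, ← h.ok.add, sub_add_cancel] at this
    refine this.trans (mul_le_mul ?_ (le _ (by linarith)) (by positivity) c2)
    nlinarith
  refine ⟨τ, fun y hy => ?_⟩
  have u : ‖(m.Z (-τ) p).2‖ = 1 := (h.jac.norm _ _).trans hp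
  have y1 : ‖lg ((m.Z (-τ) p).1, y)‖ ≤ 1 := by
    have g := bs.geo p (-τ) 0
    rw [h.ok.zero, hp, mul_one, sub_zero, abs_neg] at g
    linarith [h.had.tri (m.Z (-τ) p).1 p.1 y, h.had.tri p.1 q.1 y]
  have w : ∀ r : ℝ, 0 ≤ r → r ≤ 1 → C₃ * r ^ 2 * exp (-(2 * a * K)) ≤ C₃ * E := fun r r0 r1 =>
    mul_le_mul (mul_le_of_le_one_right c3 (pow_le_one₀ r0 r1))
      (by rw [mul_comm 2 a, mul_assoc]; exact le _ (by linarith)) (by positivity) c3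
  have r1 := (tr _ y K u y1 K3).trans (w _ (norm_nonneg _) y1)
  have r2 := (tr q y K hq (by linarith) K3).trans (w _ (norm_nonneg _) (by linarith))
  rw [bt, YCx.nz_unit u, ← h.ok.add, ← sub_eq_add_neg, bz.shift p _ y hp] at r1
  rw [bt, YCx.nz_unit hq] at r2
  have v1 := h.had.tri y (m.Z K q).1 (m.Z K (q.1, n)).1
  have v2 := h.had.tri y (m.Z (K - τ) p).1 (m.Z K (q.1, n)).1
  have v3 := h.had.tri y (m.Z K (q.1, n)).1 (m.Z K q).1
  have v4 := h.had.tri y (m.Z K (q.1, n)).1 (m.Z (K - τ) p).1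
  rw [bs.symm (m.Z K (q.1, n)).1] at v3 v4
  obtain ⟨r3, r4⟩ := abs_le.1 r1
  obtain ⟨r5, r6⟩ := abs_le.1 r2
  exact abs_le.2 ⟨by linarith, by linarith⟩

end Pool.Agent.MP_3ee8cb_gt.DNB3
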