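import Pool.Agent.MP_3ee8cb_gt.DNB2.Spec

/-! A nonpositively curved source: statements of the rows. -/

namespace Pool.Agent.MP_3ee8cb_gt.DNB3

open DN (Dim dm)

variable [Dim]

open Set Filter Topology Real DN DNC0
open DNB2 (Fw Bw gr al er Bz TelK Mid Asy Trunc Grw Clo E1 E2 Tst Nrm Ex)
open CR (Met UT dd ng MinP)
open LV (QP BP)
open scoped RealInnerProductSpace ContDiff

noncomputable section

/-- A nonpositively curved space with a cocompact group. -/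
structure N0 (m : MF) (lg : W → V) (Γ : Type) [Group Γ] [MulAction Γ V]
    (O : Γ → V → V ≃ₗᵢ[ℝ] V) (b : ℝ) : Prop where
  ok : m.OK
  jac : m.Jac
  had : m.Had lg
  act : Act m Γ O
  b0 : 0 < b
  up : m.Up 0
  dn : m.Dn (b ^ 2)
  fin : ∀ R : ℝ, {γ : Γ | ∃ x : V, ‖x‖ ≤ R ∧ ‖γ • x‖ ≤ R}.Finite
  qz : Q2 (m.Z 1)
  qa : ∀ γ, ContDiff ℝ 2 (ac O γ)

/-- Geodesics from one point diverge exponentially. -/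
def Thin (m : MF) (lg : W → V) (a : ℝ) : Prop := ∀ A : ℝ, ∃ C : ℝ, 1 ≤ C ∧ ∀ y u u' : V,
  ‖u‖ = 1 → ‖u'‖ = 1 → ∀ R T : ℝ, 0 ≤ T → T ≤ R → df m lg (y, u) (y, u') R ≤ A →
    df m lg (y, u) (y, u') (R - T) ≤ C * exp (-(a * T)) * df m lg (y, u) (y, u') R

structure NV (m : MF) (lg : W → V) (Γ : Type) [Group Γ] [MulAction Γ V]
    (O : Γ → V → V ≃ₗᵢ[ℝ] V) (a b : ℝ) : Prop extends N0 m lg Γ O b where
  a0 : 0 < a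
  ab : a ≤ b
  th : Thin m lg a

def On0 (P : ∀ (_ : MF) (_ : W → V) (Γ : Type) [Group Γ] [MulAction Γ V]
    (_ : Γ → V → V ≃ₗᵢ[ℝ] V) (_ : ℝ), Prop) : Prop :=
  ∀ (m : MF) (lg : W → V) (Γ : Type) [Group Γ] [MulAction Γ V] (O : Γ → V → V ≃ₗᵢ[ℝ] V)
    (b : ℝ), N0 m lg Γ O b → P m lg Γ O b

def OnV (P : ∀ (_ : MF) (_ : W → V) (Γ : Type) [Group Γ] [MulAction Γ V]
    (_ : Γ → V → V ≃ₗᵢ[ℝ] V) (_ _ : ℝ), Prop) : Prop :=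
  ∀ (m : MF) (lg : W → V) (Γ : Type) [Group Γ] [MulAction Γ V] (O : Γ → V → V ≃ₗᵢ[ℝ] V)
    (a b : ℝ), NV m lg Γ O a b → P m lg Γ O a b

/-! ### One space -/

/-- The distance of two geodesics is convex. -/
def Cvx (m : MF) (lg : W → V) : Prop := ∀ p q : W, ConvexOn ℝ univ (df m lg p q)

/-- Close geodesics stay close for a bounded time. -/
def Ug (m : MF) (lg : W → V) : Prop := ∀ η : ℝ, 0 < η → ∃ δ : ℝ, 0 < δ ∧ ∀ p q : W, ‖p.2‖ = 1 →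
  ‖q.2‖ = 1 → df m lg p q 0 ≤ δ → df m lg p q 1 ≤ δ → ∀ t ∈ Icc (0 : ℝ) 3, df m lg p q t ≤ η

/-- The telescoped estimate for a bounded Jacobi field. -/
def Tel0 (m : MF) (lg : W → V) (b : ℝ) : Prop := ∀ R : ℝ, ∃ C : ℝ, 0 ≤ C ∧
  ∀ (T : ℕ) (z q ξ : W) (ε B : ℝ), ‖z‖ ≤ R → 0 ≤ ε → ε ≤ 1 → 0 ≤ B → Cl m lg 0 ε T z q →
    (∀ k : ℕ, k ≤ T → nn m b (m.Z k z) (fderiv ℝ (m.Z k) z ξ) ≤ B) →
      |en m T z ξ q - om m z ξ (q - z)| ≤ C * T * B * ε ^ 2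

/-- The Jacobi field that vanishes at the end of an almost parallel one. -/
def Gron (m : MF) : Prop := ∃ C : ℝ, 0 ≤ C ∧ ∀ (z ξ ζ : W) (T β : ℝ), ‖z.2‖ = 1 → 0 ≤ β →
  (∀ t ∈ Icc 0 T, ‖m.J' z ξ t‖ ≤ β) → m.J z ζ T = 0 → m.J' z ζ T = m.J z ξ T →
    ∀ t ∈ Icc 0 T, ‖m.J z ζ t - (t - T) • m.J z ξ t‖ ≤ β * exp (C * T) ∧
      ‖m.J' z ζ t - m.J z ξ t - (t - T) • m.J' z ξ t‖ ≤ β * exp (C * T)

/-- An almost parallel normal Jacobi field on `[0, T]`. -/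
structure Fl (m : MF) (z ξ : W) (T β : ℝ) : Prop where
  unit : ‖z.2‖ = 1
  perp : ∀ t, ⟪m.J z ξ t, (m.Z t z).2⟫ = 0
  low : ∀ t ∈ Icc 0 T, 1 / 2 ≤ ‖m.J z ξ t‖
  upp : ∀ t ∈ Icc 0 T, ‖m.J z ξ t‖ ≤ 1
  der : ∀ t ∈ Icc 0 T, ‖m.J' z ξ t‖ ≤ β

/-- The offset of a converging geodesic, tested against an almost parallel field, is linear. -/
def Lin0 (m : MF) (lg : W → V) : Prop := ∀ R : ℝ, ∃ C : ℝ, 0 ≤ C ∧ ∀ (T : ℕ) (κ : ℝ), 1 ≤ T →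
  0 < κ → ∃ β : ℝ, 0 < β ∧ ∀ (S : ℕ) (z ξ q : W) (ε : ℝ), 1 ≤ S → S ≤ T → ‖z‖ ≤ R → Fl m z ξ S β →
    0 ≤ ε → ε ≤ 1 → Cl m lg 0 ε S z q →
      |⟪m.J z ξ 0, m.hor z (q - z)⟫ + S * en m S z ξ q| ≤ κ * ε + C * T ^ 2 * ε ^ 2

/-- An almost parallel field gives a pair of geodesics that approach slowly. -/
def Keep (m : MF) (lg : W → V) : Prop := ∃ C c : ℝ, 0 < C ∧ 0 < c ∧ ∀ T : ℕ, 1 ≤ T →
  ∃ β : ℝ, 0 < β ∧ ∀ (z ξ : W) (ε : ℝ), Fl m z ξ (2 * T) β → 0 < ε → C * T ^ 2 * ε ≤ 1 →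
    ∃ q : W, ‖q.2‖ = 1 ∧ (∀ t ∈ Icc (0 : ℝ) (2 * T), df m lg z q t ≤ 2 * ε) ∧
      df m lg z q (2 * T) = 0 ∧ c * ε ≤ df m lg z q T

/-- Geodesics from one point that stay close have an exponentially small angle. -/
def Ang (m : MF) (lg : W → V) : Prop := ∃ l c C : ℝ, 0 < l ∧ 0 < c ∧ 0 ≤ C ∧
  ∀ (x w q : V) (T : ℝ), ‖w‖ = 1 → ‖q‖ = 1 → 2 ≤ T →
    (∀ t ∈ Icc 0 T, df m lg (x, w) (x, q) t ≤ l) → ‖w - q‖ ≤ C * exp (-(c * T))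

/-- Geodesics that stay close have an exponentially small slope. -/
def Sl (m : MF) (lg : W → V) : Prop := ∃ l c C : ℝ, 0 < l ∧ 0 < c ∧ 0 ≤ C ∧
  ∀ (p q : W) (T : ℝ), ‖p.2‖ = 1 → ‖q.2‖ = 1 → 2 ≤ T → (∀ t ∈ Icc 0 T, df m lg p q t ≤ l) →
    df m lg p q 1 ≤ df m lg p q 0 + C * exp (-(c * T))

def NoFl (m : MF) : Prop := ∃ T β : ℝ, 0 < T ∧ 0 < β ∧ ∀ z ξ : W, ¬Fl m z ξ T β

/-- Jacobi fields that vanish at time zero double in a fixed time. -/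
def Half (m : MF) : Prop := ∃ T : ℝ, 0 < T ∧ ∀ (y u e : V) (R : ℝ), ‖u‖ = 1 → ⟪e, u⟫ = 0 →
  T ≤ R → 2 * ‖m.J (y, u) (0, e) (R - T)‖ ≤ ‖m.J (y, u) (0, e) R‖

def LTh (m : MF) (a : ℝ) : Prop := ∀ (y u e : V) (s t : ℝ), ‖u‖ = 1 → ⟪e, u⟫ = 0 → 0 ≤ s →
  s ≤ t → ‖m.J (y, u) (0, e) s‖ ≤ 2 * exp (-(a * (t - s))) * ‖m.J (y, u) (0, e) t‖

/-- The quadratic lower bound for the sum of opposite Busemann functions. -/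
def Lbq (lg : W → V) (β : W → V → ℝ) : Prop := ∃ c : ℝ, 0 < c ∧ ∀ (z : W) (y : V), ‖z.2‖ = 1 →
  β z y = β (fl z) y → ‖lg (z.1, y)‖ ≤ 1 → c * ‖lg (z.1, y)‖ ^ 2 ≤ 8 * β z y

/-- Busemann functions in frames, without local product. -/
structure B0 (m : MF) (lg : W → V) (β : W → V → ℝ) : Prop where
  lim : ∀ (z : W) (y : V), ‖z.2‖ = 1 → Tendsto (fun T : ℕ => bt m lg T z y) atTop (𝓝 (β z y))
  lip : ∀ (z : W) (x y : V), ‖z.2‖ = 1 → β z x - β z y ≤ ‖lg (x, y)‖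
  self : ∀ (z : W) (t : ℝ), ‖z.2‖ = 1 → β z (m.Z t z).1 = -t
  shift : ∀ (z : W) (t : ℝ) (y : V), ‖z.2‖ = 1 → β (m.Z t z) y = β z y + t
  top : ∀ p q : W, ‖p.2‖ = 1 → ‖q.2‖ = 1 → Fw m lg p q → ∀ y, β p y = β q y
  opp : ∀ (z : W) (y : V), ‖z.2‖ = 1 → 0 ≤ β z y + β (fl z) y

/-- Busemann functions of geodesics that stay close differ by a constant. -/
def Yc (m : MF) (lg : W → V) (β : W → V → ℝ) : Prop := ∃ c C : ℝ, 0 < c ∧ 0 ≤ C ∧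
  ∀ (p q : W) (T : ℝ), ‖p.2‖ = 1 → ‖q.2‖ = 1 → 1 ≤ T →
    (∀ t ∈ Icc 0 T, df m lg p q t ≤ 1 / 8) → ∃ τ : ℝ, ∀ y, ‖lg (q.1, y)‖ ≤ 1 / 2 →
      |β p y - β q y - τ| ≤ C * exp (-(c * T))

def SBS0 : Prop := On0 fun m lg Γ _ _ _ _ => Bs m lg Γ
def SSTEP0 : Prop := On0 fun m _ _ _ _ O b => Step m O b
def SMOV0 : Prop := On0 fun m lg Γ _ _ O b => ∀ a, Bs m lg Γ → Mov m lg O a b
def SCVX : Prop := ∀ (m : MF) (lg : W → V), m.OK → m.Jac → m.Had lg → Cvx m lg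
def SUG : Prop := On0 fun m lg Γ _ _ _ _ => Bs m lg Γ → Ug m lg
def STEL0 : Prop := On0 fun m lg Γ _ _ O b => Bs m lg Γ → Step m O b → Mov m lg O 0 b →
  Tel0 m lg b
def SGRON : Prop := On0 fun m _ _ _ _ _ _ => Gron m
def SLIN0 : Prop := On0 fun m lg Γ _ _ _ b => Bs m lg Γ → Tel0 m lg b → Gron m → Lin0 m lg
def SKEEP : Prop := On0 fun m lg Γ _ _ O b => Bs m lg Γ → Cvx m lg → Mov m lg O 0 b →
  Tel0 m lg b → Lin0 m lg → Keep m lg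
def SSL : Prop := On0 fun m lg Γ _ _ _ _ => Bs m lg Γ → Cvx m lg → Ang m lg → Sl m lg
def SNOFL : Prop := On0 fun m lg Γ _ _ _ _ => Bs m lg Γ → Cvx m lg → Keep m lg → Sl m lg → NoFl m
def SHALF : Prop := On0 fun m _ _ _ _ _ _ => NoFl m → Half m
def SLTH : Prop := On0 fun m _ _ _ _ _ b => Half m → ∃ a, 0 < a ∧ a ≤ b ∧ LTh m a
def STHIN : Prop := On0 fun m lg Γ _ _ _ _ => ∀ a, 0 < a → Bs m lg Γ → Cvx m lg → LTh m a →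
  Thin m lg a
def SLBQ : Prop := OnV fun m lg Γ _ _ _ a _ => ∀ β, Bs m lg Γ → Cvx m lg → B0 m lg β →
  Asy m lg a β → Lbq lg β
def SYC : Prop := DNB2.OnV fun m lg Γ _ _ _ a b => ∀ β, Bs m lg Γ → Jf m lg a b → Seg m lg a →
  Bz m lg a β → Trunc m lg a β → Yc m lg β

/-- The port of the rows of one space. -/
def SEX : Prop := OnV fun m lg _ _ _ _ a b => ∀ β σ, Bz m lg 0 β → (Asy m lg a β → Lbq lg β) →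
  0 < σ → σ ≤ 1 → b * σ < 2 * a → Ex m lg β σ (a / (a + b))

/-! ### A pair -/

/-- One direction of a conjugacy in frames. -/
structure P1 (m : MF) (lg : W → V) (m' : MF) (lg' : W → V) (φ ψ : W → W) : Prop where
  unit : ∀ z : W, ‖z.2‖ = 1 → ‖(φ z).2‖ = 1
  left : ∀ z : W, ‖z.2‖ = 1 → ψ (φ z) = z
  flow : ∀ (t : ℝ) (z : W), ‖z.2‖ = 1 → φ (m.Z t z) = m'.Z t (φ z)
  fw : ∀ p q : W, ‖p.2‖ = 1 → ‖q.2‖ = 1 → Fw m lg p q → Fw m' lg' (φ p) (φ q)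
  bw : ∀ p q : W, ‖p.2‖ = 1 → ‖q.2‖ = 1 → Bw m lg p q → Bw m' lg' (φ p) (φ q)
  uc : ∀ η : ℝ, 0 < η → ∃ δ : ℝ, 0 < δ ∧ ∀ p q : W, ‖p.2‖ = 1 → ‖q.2‖ = 1 →
    (∀ t ∈ Icc (0 : ℝ) 1, df m lg p q t ≤ δ) → df m' lg' (φ p) (φ q) 0 ≤ η

/-- Asymptotes exist. -/
def Mv (m : MF) (lg : W → V) : Prop := ∀ (w : W) (x : V), ‖w.2‖ = 1 →
  ∃ (v : V) (k : ℝ), ‖v‖ = 1 ∧ Fw m lg (x, v) (m.Z k w)

/-- The offset of two vectors at one point is not positive. -/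
def Key (m : MF) (lg : W → V) (lg' : W → V) (β' : W → V → ℝ) (φ : W → W) : Prop :=
  ∀ η : ℝ, 0 < η → ∃ δ : ℝ, 0 < δ ∧ ∀ x v v' : V, ‖v‖ = 1 → ‖v'‖ = 1 →
    df m lg (x, v) (x, v') 1 ≤ δ → ∃ y, ‖lg' ((φ (x, v)).1, y)‖ ≤ η ∧
      β' (φ (x, v)) y + β' (fl (φ (x, v'))) y ≤ 0

/-- The data of a pair. -/
structure Pr (m : MF) (lg : W → V) (β : W → V → ℝ) (m' : MF) (lg' : W → V) (β' : W → V → ℝ)
    (a' : ℝ) (φ ψ : W → W) : Prop where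
  ok : m.OK
  jac : m.Jac
  had : m.Had lg
  ok' : m'.OK
  jac' : m'.Jac
  had' : m'.Had lg'
  cvx : Cvx m lg
  ug : Ug m lg
  b0 : B0 m lg β
  bz : Bz m' lg' a' β'
  p1 : P1 m lg m' lg' φ ψ
  p2 : P1 m' lg' m lg ψ φ

def OnP (P : MF → (W → V) → (W → V → ℝ) → MF → (W → V) → (W → V → ℝ) → (W → W) → Prop) : Prop :=
  ∀ m lg β m' lg' β' a' φ ψ, Pr m lg β m' lg' β' a' φ ψ → P m lg β m' lg' β' φ

def SKEY : Prop := OnP fun m lg _ _ lg' β' φ => Key m lg lg' β' φ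
def SUNI : Prop := OnP fun m lg β _ _ _ _ => Bz m lg 0 β
def SANG : Prop := OnP fun m lg _ m' lg' β' φ => Mv m lg → Key m lg lg' β' φ → Yc m' lg' β' →
  Ang m lg

/-! ### Links with the world of metrics -/

def SHAD0 : Prop := On1 fun h C _ _ _ Ψ => ∀ m : MF, m.OK → m.Jac → Lk h C Ψ m → m.Up 0 →
  MinP h Ψ ∧ ∃ lg, m.Had lg ∧ ∀ y z, ‖lg (y, z)‖ = dd h y z

def SUP0 : Prop := On1 fun g C _ _ _ Φ => ∀ (m : MF) (b : ℝ), m.OK → Lk g C Φ m →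
  Pin g C 0 (b ^ 2) → m.Up 0 ∧ m.Dn ((|b| + 1) ^ 2)

def SBR0 : Prop := On1 fun g C Γ _ _ Φ => ∀ (m : MF) (lg : W → V) O (b : ℝ),
  (∀ γ : Γ, ContDiff ℝ ∞ fun x : V => γ • x) → m.OK → m.Jac → Lk g C Φ m → ContDiff ℝ 2 m.om →
  m.Had lg → Act m Γ O → 0 < b → m.Up 0 → m.Dn (b ^ 2) → N0 m lg Γ O b

def SBZ0 : Prop := On1 fun g C _ _ _ Φ => ∀ (m : MF) (lg : W → V), m.OK → Lk g C Φ m →
  (∀ y z, ‖lg (y, z)‖ = dd g y z) → BP g Φ → ∃ β, Ln g Φ m lg β ∧ B0 m lg β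

def SASP0 : Prop := On2 fun g h _ _ _ _ _ _ _ _ Φ Ψ _ F => MinP g Φ → MinP h Ψ → Asp g h Φ Ψ F

def SP1 : Prop := On2 fun g h _ _ _ _ _ _ _ _ Φ Ψ _ F => ∀ (m m' : MF) (lg lg' : W → V) β β',
  m.OK → m'.OK → MinP g Φ → MinP h Ψ → Ln g Φ m lg β → Ln h Ψ m' lg' β' → Asp g h Φ Ψ F →
  ∃ φ ψ, P1 m lg m' lg' φ ψ ∧ P1 m' lg' m lg ψ φ

def SMV : Prop := On2 fun g h _ _ _ _ _ _ _ _ Φ Ψ _ F => ∀ (m : MF) (lg : W → V) β (a : ℝ),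
  0 < a → TB.CurvLe h a → MinP g Φ → Ln g Φ m lg β → Asp g h Φ Ψ F → Mv m lg

/-- Part B with a nonpositively curved source. -/
def PartB3 : Prop := DNIN.On3 fun g h _ _ _ _ _ _ _ F => ∀ a b b' : ℝ, 0 < a →
  b ^ 2 < 4 * a ^ 2 → DNIN.Pinch g 0 b' → DNIN.Pinch h a b → DNIN.C1F F ∧ DNIN.C1F F.symm

end

end Pool.Agent.MP_3ee8cb_gt.DNB3
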