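import Pool.Agent.MP_3ee8cb_gt.DNB3.PAll
import Pool.Agent.MP_3ee8cb_gt.DNB2.All

/-! A nonpositively curved source: assembly of the rows. -/

namespace Pool.Agent.MP_3ee8cb_gt.DNB3

open DN (Dim dm)

variable [Dim]

open Set Filter Topology Real DN DNC0
open DNB2 (Bz Ex)
open CR (Met UT dd ng)

structure Rows : Prop where
  bs0 : SBS0
  step0 : SSTEP0
  mov0 : SMOV0
  cvx : SCVX
  ug : SUG
  tel0 : STEL0
  gron : SGRON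
  lin0 : SLIN0
  keep : SKEEP
  sl : SSL
  nofl : SNOFL
  half : SHALF
  lth : SLTH
  thin : STHIN
  lbq : SLBQ
  yc : SYC
  key : SKEY
  uni : SUNI
  ang : SANG
  had0 : SHAD0
  up0 : SUP0
  br0 : SBR0
  bz0 : SBZ0
  asp0 : SASP0
  p1 : SP1
  mv : SMV

theorem nv_of (r : Rows) {m : MF} {lg : W → V} {Γ : Type} [Group Γ] [MulAction Γ V]
    {O : Γ → V → V ≃ₗᵢ[ℝ] V} {b : ℝ} (w : N0 m lg Γ O b) (an : Ang m lg) :
    ∃ a, NV m lg Γ O a b := by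
  have bs := r.bs0 m lg Γ O b w
  have cv := r.cvx m lg w.ok w.jac w.had
  have mv := r.mov0 m lg Γ O b w 0 bs
  have tl := r.tel0 m lg Γ O b w bs (r.step0 m lg Γ O b w) mv
  have kp := r.keep m lg Γ O b w bs cv mv tl (r.lin0 m lg Γ O b w bs tl (r.gron m lg Γ O b w))
  obtain ⟨a, a0, ab, lt⟩ := r.lth m lg Γ O b w (r.half m lg Γ O b w
    (r.nofl m lg Γ O b w bs cv kp (r.sl m lg Γ O b w bs cv an)))
  exact ⟨a, w, a0, ab, r.thin m lg Γ O b w a a0 bs cv lt⟩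

theorem oneY (r : Rows) {g : Met dm} {Γ : Type} [Group Γ] [MulAction Γ V]
    {Φ : ℝ → UT g → UT g} {a b : ℝ} (sm : DNIN.SM g Γ Φ) (ha : 0 < a) (hp : DNIN.Pinch g a b)
    (hb : b ^ 2 < 4 * a ^ 2) :
    ∃ (C : TB.Chr dm) (m : MF) (lg : W → V) (β : W → V → ℝ) (κ : ℝ), TB.IsChr g C ∧ m.OK ∧ m.Jac ∧
      m.Had lg ∧ Pk g Φ a ∧ Ln g Φ m lg β ∧ Bz m lg a β ∧ TB.CurvLe g a ∧ Yc m lg β ∧
      Ex m lg β 1 κ := by
  obtain ⟨C, hC, hc⟩ := hp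
  have cl : TB.CurvLe g a := ⟨C, hC, fun x u v => (hc x u v).1⟩
  have pk := DNC0.pk DNC0.near g C Γ Φ sm.qp hC a ha cl
  obtain ⟨m, ok, lk, c2⟩ := DNC0.frm3 g C Γ Φ sm.qp hC sm.sm
  have jac := DN.sJAC m ok
  obtain ⟨lg, had, hd⟩ := DNFL.had g C Γ Φ sm.qp hC m a ok jac lk ha cl
  obtain ⟨O, act⟩ := DN.sACT g C Γ Φ sm.qp hC m ok lk (d2_of sm)
  have w := DNB2.br stay g C Γ Φ sm.qp hC m lg O a b sm.act ok jac lk c2 had hd act ha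
    (fun x u v => ⟨(hc x u v).2, (hc x u v).1⟩) pk.th
  obtain ⟨β, ln, bz⟩ := DNB2.bz g C Γ Φ sm.qp hC m lg a ok jac lk had hd ha cl
  have bs := DNB2.bs m lg Γ O a _ w
  have jf := DNB2.jf m lg Γ O a _ w
  have sg := DNB2.seg m lg Γ O a _ w bs jf
  have tr := DNB2.trunc m lg Γ O a _ w β bs bz (DNB2.mid m lg Γ O a _ w bs)
    (DNB2.asy m lg Γ O a _ w β bs sg bz)
  refine ⟨C, m, lg, β, _, hC, ok, jac, had, pk, ln, bz, cl, r.yc m lg Γ O a _ w β bs jf sg bz tr,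
    DNB2.world DNB2.rows1 w bz one_pos le_rfl ?_⟩
  rw [mul_one]
  exact max_lt (abs_lt_of_sq_lt_sq (by linarith) (by linarith)) (by linarith)

theorem partB3_of (r : Rows) : PartB3 := by
  intro g h Γ Λ _ _ _ _ Φ Ψ ρ F sg sh cj a b b' ha hb pg ph
  have s := DNB2.rows2
  obtain ⟨C', m', lg', β', κ', hC', ok', jac', had', pk', ln', bz', cl', yc, ex2⟩ :=
    oneY r sh ha ph hb
  obtain ⟨C, hC, hc⟩ := pg
  obtain ⟨m, ok, lk, c2⟩ := DNC0.frm3 g C Γ Φ sg.qp hC sg.sm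
  have jac := DN.sJAC m ok
  obtain ⟨up, dn⟩ := r.up0 g C Γ Φ sg.qp hC m b' ok lk fun x u v =>
    ⟨(hc x u v).2, by simpa using (hc x u v).1⟩
  obtain ⟨mn, lg, had, hd⟩ := r.had0 g C Γ Φ sg.qp hC m ok jac lk up
  obtain ⟨O, act⟩ := DN.sACT g C Γ Φ sg.qp hC m ok lk (d2_of sg)
  have w := r.br0 g C Γ Φ sg.qp hC m lg O (|b'| + 1) sg.act ok jac lk c2 had act (by positivity)
    up dn
  have bp := LV.bp dm g Γ Φ sg.qp mn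
  obtain ⟨β, ln, b0⟩ := r.bz0 g C Γ Φ sg.qp hC m lg ok lk hd bp
  have asp := r.asp0 g h C C' Γ Λ Φ Ψ ρ F sg.qp sh.qp hC hC' (d2_of sg) (d2_of sh) cj mn pk'.min
  obtain ⟨φ₀, ψ₀, q1, q2⟩ := r.p1 g h C C' Γ Λ Φ Ψ ρ F sg.qp sh.qp hC hC' (d2_of sg) (d2_of sh) cj
    m m' lg lg' β β' ok ok' mn pk'.min ln ln' asp
  have mv := r.mv g h C C' Γ Λ Φ Ψ ρ F sg.qp sh.qp hC hC' (d2_of sg) (d2_of sh) cj m lg β a ha cl'
    mn ln asp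
  have bs := r.bs0 m lg Γ O _ w
  have cv := r.cvx m lg ok jac had
  have pr : Pr m lg β m' lg' β' a φ₀ ψ₀ :=
    ⟨ok, jac, had, ok', jac', had', cv, r.ug m lg Γ O _ w bs, b0, bz', q1, q2⟩
  have bz := r.uni _ _ _ _ _ _ _ _ _ pr
  obtain ⟨a₀, nv⟩ := nv_of r w (r.ang _ _ _ _ _ _ _ _ _ pr mv (r.key _ _ _ _ _ _ _ _ _ pr) yc)
  have a0 := nv.a0
  have b0' := w.b0
  have ex1 := exAll m lg Γ O a₀ _ nv β (a₀ / (|b'| + 1)) bz (r.lbq m lg Γ O a₀ _ nv β bs cv b0)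
    (div_pos a0 b0') ((div_le_one b0').2 nv.ab) (by rw [mul_div_cancel₀ _ b0'.ne']; linarith)
  obtain ⟨φ, ψ, c1, c2, e1, e2⟩ := s.cj g h Φ Ψ m m' lg lg' β β' 0 a F ln ln' ok ok' jac jac'
    had had' bz bz' (DNC0.inv.1 dm g Φ bp) (DNC0.inv.1 dm h Ψ pk'.bp) asp
  have it := s.iter s.boota s.bootb m lg β m' lg' β' φ ψ c1 c2 _ _ _ ex1.s0 ex1.s1 ex1.k0 ex1.k1
    ex2.k0 ex2.k1 (s.lf _ _ _ _ _ ex1) (s.lf _ _ _ _ _ ex2)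
  have i1 := fun θ h0 h1 => (it θ h0 h1).1
  have i2 := fun θ h0 h1 => (it θ h0 h1).2
  exact ⟨s.fin g h m m' F φ ok ok' ln.unit e1 (s.lin φ (s.lina m lg β m' lg' β' φ ψ c1 c2 _ _ _ _
      ex1 ex2 i2 (s.gen m lg β m' lg' β' φ ψ c1 c2 _ _ _ _ ex1 ex2 i2))),
    s.fin h g m' m F.symm ψ ok' ok ln'.unit e2 (s.lin ψ (s.lina m' lg' β' m lg β ψ φ c2 c1 _ _ _ _
      ex2 ex1 i1 (s.gen m' lg' β' m lg β ψ φ c2 c1 _ _ _ _ ex2 ex1 i1)))⟩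

end Pool.Agent.MP_3ee8cb_gt.DNB3
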